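import Pool.Agent.Lib.MP_8dbdcc_co.Bsg

set_option autoImplicit false

/-!
# From small doubling to an approximate group
-/

namespace Pool.Agent.Lib.MP_8dbdcc_co

open Finset
open scoped Pointwise

variable {G : Type*} [Group G] [DecidableEq G]

/-- number of representations `g = a * b⁻¹` with `a, b ∈ V` -/
def rp (V : Finset G) (g : G) : ℕ := ((V ×ˢ V).filter fun q => q.1 * q.2⁻¹ = g).card

theorem rp_inv (V : Finset G) (g : G) : rp V g⁻¹ = rp V g := by
  unfold rp
  apply Finset.card_bij (fun q _ => (q.2, q.1))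
  · intro q hq
    rw [Finset.mem_filter, Finset.mem_product] at hq ⊢
    refine ⟨⟨hq.1.2, hq.1.1⟩, ?_⟩
    have := congrArg (fun t => t⁻¹) hq.2
    simpa using this
  · rintro ⟨a, b⟩ _ ⟨c, d⟩ _ h
    simp only [Prod.mk.injEq] at h ⊢
    exact ⟨h.2, h.1⟩
  · rintro ⟨a, b⟩ hq
    rw [Finset.mem_filter, Finset.mem_product] at hq
    refine ⟨(b, a), ?_, rfl⟩
    rw [Finset.mem_filter, Finset.mem_product]
    refine ⟨⟨hq.1.2, hq.1.1⟩, ?_⟩
    have := congrArg (fun t => t⁻¹) hq.2
    simpa using this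

theorem rp_one (V : Finset G) : rp V 1 = V.card := by
  unfold rp
  symm
  apply Finset.card_bij (fun a _ => (a, a))
  · intro a ha
    rw [Finset.mem_filter, Finset.mem_product]
    exact ⟨⟨ha, ha⟩, by simp⟩
  · intro a _ b _ h
    exact (Prod.mk.injEq _ _ _ _ ▸ h).1
  · rintro ⟨a, b⟩ hq
    rw [Finset.mem_filter, Finset.mem_product] at hq
    have h1 : a = b := mul_inv_eq_one.1 hq.2
    subst h1
    exact ⟨a, hq.1.1, rfl⟩

theorem rp_le (V : Finset G) (g : G) : rp V g ≤ V.card := by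
  unfold rp
  apply Finset.card_le_card_of_injOn (fun q => q.1)
  · intro q hq
    have := (Finset.mem_filter.1 (Finset.mem_coe.1 hq)).1
    exact (Finset.mem_product.1 this).1
  · rintro ⟨a, b⟩ h1 ⟨c, d⟩ h2 h
    have h1' := (Finset.mem_filter.1 (Finset.mem_coe.1 h1)).2
    have h2' := (Finset.mem_filter.1 (Finset.mem_coe.1 h2)).2
    simp only at h h1' h2'
    subst h
    rw [← h2'] at h1'
    have := inv_injective (mul_left_cancel h1')
    rw [this]

theorem rp_le' (V : Finset G) (g : G) : rp V g ≤ (V.filter fun a => g⁻¹ * a ∈ V).card := by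
  unfold rp
  apply Finset.card_le_card_of_injOn (fun q => q.1)
  · intro q hq
    have h := Finset.mem_filter.1 (Finset.mem_coe.1 hq)
    have h1 := Finset.mem_product.1 h.1
    rw [Finset.mem_coe, Finset.mem_filter]
    refine ⟨h1.1, ?_⟩
    rw [← h.2]
    simpa using h1.2
  · rintro ⟨a, b⟩ h1 ⟨c, d⟩ h2 h
    have h1' := (Finset.mem_filter.1 (Finset.mem_coe.1 h1)).2
    have h2' := (Finset.mem_filter.1 (Finset.mem_coe.1 h2)).2
    simp only at h h1' h2'
    subst h
    rw [← h2'] at h1'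
    have := inv_injective (mul_left_cancel h1')
    rw [this]

/-- the energy is large -/
theorem rp_energy (V : Finset G) :
    (V.card : ℝ) ^ 4 ≤ ((V⁻¹ * V).card : ℝ) * ∑ g ∈ V * V⁻¹, (rp V g : ℝ) ^ 2 := by
  classical
  set r' : G → ℕ := fun w => ((V ×ˢ V).filter fun q => q.1⁻¹ * q.2 = w).card with hr'
  have h1 : ∑ w ∈ V⁻¹ * V, r' w = V.card ^ 2 := by
    have := Finset.card_eq_sum_card_fiberwise (f := fun q : G × G => q.1⁻¹ * q.2)
      (s := V ×ˢ V) (t := V⁻¹ * V) (by
        intro q hq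
        have := Finset.mem_product.1 (Finset.mem_coe.1 hq)
        exact Finset.mem_coe.2 (Finset.mul_mem_mul (Finset.inv_mem_inv this.1) this.2))
    rw [Finset.card_product] at this
    rw [pow_two, this]
  have h2 : ∑ w ∈ V⁻¹ * V, (r' w) ^ 2 = ∑ g ∈ V * V⁻¹, (rp V g) ^ 2 := by
    -- both sides count quadruples
    have e1 : ∑ w ∈ V⁻¹ * V, (r' w) ^ 2 =
        (((V ×ˢ V) ×ˢ (V ×ˢ V)).filter fun q => q.1.1⁻¹ * q.1.2 = q.2.1⁻¹ * q.2.2).card := by
      rw [Finset.card_eq_sum_card_fiberwise (f := fun q : (G × G) × (G × G) => q.1.1⁻¹ * q.1.2)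
        (t := V⁻¹ * V)]
      · apply Finset.sum_congr rfl
        intro w _
        rw [hr', pow_two, ← Finset.card_product]
        congr 1
        ext q
        simp only [Finset.mem_product, Finset.mem_filter]
        constructor
        · rintro ⟨⟨h1, h2⟩, h3, h4⟩
          exact ⟨⟨⟨h1, h3⟩, h2.trans h4.symm⟩, h2⟩
        · rintro ⟨⟨⟨h1, h3⟩, h4⟩, h2⟩
          exact ⟨⟨h1, h2⟩, h3, h4.symm.trans h2⟩
      · intro q hq
        have := (Finset.mem_filter.1 (Finset.mem_coe.1 hq)).1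
        have := Finset.mem_product.1 (Finset.mem_product.1 this).1
        exact Finset.mem_coe.2 (Finset.mul_mem_mul (Finset.inv_mem_inv this.1) this.2)
    have e2 : ∑ g ∈ V * V⁻¹, (rp V g) ^ 2 =
        (((V ×ˢ V) ×ˢ (V ×ˢ V)).filter fun q => q.1.1 * q.1.2⁻¹ = q.2.1 * q.2.2⁻¹).card := by
      rw [Finset.card_eq_sum_card_fiberwise (f := fun q : (G × G) × (G × G) => q.1.1 * q.1.2⁻¹)
        (t := V * V⁻¹)]
      · apply Finset.sum_congr rfl
        intro w _
        rw [rp, pow_two, ← Finset.card_product]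
        congr 1
        ext q
        simp only [Finset.mem_product, Finset.mem_filter]
        constructor
        · rintro ⟨⟨h1, h2⟩, h3, h4⟩
          exact ⟨⟨⟨h1, h3⟩, h2.trans h4.symm⟩, h2⟩
        · rintro ⟨⟨⟨h1, h3⟩, h4⟩, h2⟩
          exact ⟨⟨h1, h2⟩, h3, h4.symm.trans h2⟩
      · intro q hq
        have := (Finset.mem_filter.1 (Finset.mem_coe.1 hq)).1
        have := Finset.mem_product.1 (Finset.mem_product.1 this).1
        exact Finset.mem_coe.2 (Finset.mul_mem_mul this.1 (Finset.inv_mem_inv this.2))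
    rw [e1, e2]
    -- `c⁻¹ a = d⁻¹ b` iff `a b⁻¹ = c d⁻¹`
    apply Finset.card_bij (fun q _ => ((q.1.2, q.2.2), (q.1.1, q.2.1)))
    · rintro ⟨⟨c, a⟩, d, b⟩ hq
      simp only [Finset.mem_filter, Finset.mem_product] at hq ⊢
      refine ⟨⟨⟨hq.1.1.2, hq.1.2.2⟩, hq.1.1.1, hq.1.2.1⟩, ?_⟩
      have h := hq.2
      calc a * b⁻¹ = c * (c⁻¹ * a) * b⁻¹ := by group
        _ = c * (d⁻¹ * b) * b⁻¹ := by rw [h]
        _ = c * d⁻¹ := by group
    · rintro ⟨⟨c, a⟩, d, b⟩ _ ⟨⟨c', a'⟩, d', b'⟩ _ h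
      simp only [Prod.mk.injEq] at h ⊢
      tauto
    · rintro ⟨⟨a, b⟩, c, d⟩ hq
      simp only [Finset.mem_filter, Finset.mem_product] at hq
      refine ⟨((c, a), (d, b)), ?_, rfl⟩
      simp only [Finset.mem_filter, Finset.mem_product]
      refine ⟨⟨⟨hq.1.2.1, hq.1.1.1⟩, hq.1.2.2, hq.1.1.2⟩, ?_⟩
      have h := hq.2
      calc c⁻¹ * a = c⁻¹ * (a * b⁻¹) * b := by group
        _ = c⁻¹ * (c * d⁻¹) * b := by rw [h]
        _ = d⁻¹ * b := by group
  have h3 := sq_sum_le_card_mul_sum_sq (s := V⁻¹ * V) (f := fun w => (r' w : ℝ))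
  have h4 : ∑ w ∈ V⁻¹ * V, (r' w : ℝ) = (V.card : ℝ) ^ 2 := by exact_mod_cast h1
  have h5 : ∑ w ∈ V⁻¹ * V, (r' w : ℝ) ^ 2 = ∑ g ∈ V * V⁻¹, (rp V g : ℝ) ^ 2 := by
    exact_mod_cast h2
  rw [h4, h5] at h3
  refine le_trans (le_of_eq ?_) h3
  ring

/-- A set with few quotients gives rise to an approximate group. -/
theorem apx (V : Finset G) (hV : V.Nonempty) (C : ℝ)
    (hC : ((V⁻¹ * V).card : ℝ) ≤ C * V.card) :
    ∃ H : Finset G, 1 ∈ H ∧ (∀ g ∈ H, g⁻¹ ∈ H) ∧ (V.card : ℝ) ≤ 2 * C * H.card ∧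
      (∀ g ∈ H, (V.card : ℝ) ≤ 2 * C * (rp V g : ℝ)) ∧
      ∀ k : ℕ, ((H ^ k).card : ℝ) ≤ (2 * C ^ 2) ^ k * C * V.card := by
  classical
  have hv0 : (0 : ℝ) < V.card := by exact_mod_cast hV.card_pos
  have hC1 : 1 ≤ C := by
    obtain ⟨a, ha⟩ := hV
    have h1 : V.card ≤ (V⁻¹ * V).card := by
      apply Finset.card_le_card_of_injOn (fun v => a⁻¹ * v)
      · intro v hv
        exact Finset.mem_coe.2 (Finset.mul_mem_mul (Finset.inv_mem_inv ha) hv)
      · intro v _ w _ h
        exact mul_left_cancel h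
    have h2 : (V.card : ℝ) ≤ C * V.card := le_trans (by exact_mod_cast h1) hC
    nlinarith
  have hC0 : 0 < C := by linarith
  set H : Finset G := (V * V⁻¹).filter fun g => (V.card : ℝ) ≤ 2 * C * (rp V g : ℝ) with hH
  have hHr : ∀ g ∈ H, (V.card : ℝ) ≤ 2 * C * (rp V g : ℝ) := fun g hg =>
    (Finset.mem_filter.1 hg).2
  have hcard : (V.card : ℝ) ≤ 2 * C * H.card := by
    have h1 := rp_energy V
    have h2 : (V.card : ℝ) ^ 3 ≤ C * ∑ g ∈ V * V⁻¹, (rp V g : ℝ) ^ 2 := by
      have h3 : (V.card : ℝ) ^ 4 ≤ C * V.card * ∑ g ∈ V * V⁻¹, (rp V g : ℝ) ^ 2 :=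
        h1.trans (mul_le_mul_of_nonneg_right hC (Finset.sum_nonneg fun _ _ => sq_nonneg _))
      have h4 : (V.card : ℝ) * (V.card : ℝ) ^ 3 ≤
          V.card * (C * ∑ g ∈ V * V⁻¹, (rp V g : ℝ) ^ 2) := by
        refine le_trans (le_of_eq (by ring)) (h3.trans (le_of_eq (by ring)))
      exact le_of_mul_le_mul_left h4 hv0
    have hsplit := Finset.sum_filter_add_sum_filter_not (V * V⁻¹)
      (fun g => (V.card : ℝ) ≤ 2 * C * (rp V g : ℝ)) (fun g => (rp V g : ℝ) ^ 2)
    have h5 : ∑ g ∈ H, (rp V g : ℝ) ^ 2 ≤ H.card * (V.card : ℝ) ^ 2 := by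
      rw [← nsmul_eq_mul, ← Finset.sum_const]
      apply Finset.sum_le_sum
      intro g _
      exact pow_le_pow_left₀ (by positivity) (by exact_mod_cast rp_le V g) 2
    have hsum : ∑ g ∈ V * V⁻¹, (rp V g : ℝ) = (V.card : ℝ) ^ 2 := by
      have := Finset.card_eq_sum_card_fiberwise (f := fun q : G × G => q.1 * q.2⁻¹)
        (s := V ×ˢ V) (t := V * V⁻¹) (by
          intro q hq
          have := Finset.mem_product.1 (Finset.mem_coe.1 hq)
          exact Finset.mem_coe.2 (Finset.mul_mem_mul this.1 (Finset.inv_mem_inv this.2)))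
      rw [Finset.card_product] at this
      rw [pow_two]
      exact_mod_cast this.symm
    have h6 : 2 * C * ∑ g ∈ (V * V⁻¹).filter (fun g => ¬ (V.card : ℝ) ≤ 2 * C * (rp V g : ℝ)),
        (rp V g : ℝ) ^ 2 ≤ (V.card : ℝ) ^ 3 := by
      rw [Finset.mul_sum]
      calc ∑ g ∈ (V * V⁻¹).filter (fun g => ¬ (V.card : ℝ) ≤ 2 * C * (rp V g : ℝ)),
            2 * C * (rp V g : ℝ) ^ 2
          ≤ ∑ g ∈ (V * V⁻¹).filter (fun g => ¬ (V.card : ℝ) ≤ 2 * C * (rp V g : ℝ)),
            (V.card : ℝ) * (rp V g : ℝ) := by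
            apply Finset.sum_le_sum
            intro g hg
            have := (not_le.1 (Finset.mem_filter.1 hg).2).le
            have h0 : (0 : ℝ) ≤ rp V g := by positivity
            nlinarith
        _ ≤ ∑ g ∈ V * V⁻¹, (V.card : ℝ) * (rp V g : ℝ) :=
            Finset.sum_le_sum_of_subset_of_nonneg (Finset.filter_subset _ _)
              fun _ _ _ => by positivity
        _ = (V.card : ℝ) ^ 3 := by
            rw [← Finset.mul_sum, hsum]
            ring
    have h7 : (V.card : ℝ) ^ 3 ≤ 2 * C * (H.card * (V.card : ℝ) ^ 2) := by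
      have h8 : ∑ g ∈ V * V⁻¹, (rp V g : ℝ) ^ 2 = ∑ g ∈ H, (rp V g : ℝ) ^ 2 +
          ∑ g ∈ (V * V⁻¹).filter (fun g => ¬ (V.card : ℝ) ≤ 2 * C * (rp V g : ℝ)),
            (rp V g : ℝ) ^ 2 := hsplit.symm
      rw [h8] at h2
      nlinarith
    have h9 : (V.card : ℝ) ^ 2 * V.card ≤ (V.card : ℝ) ^ 2 * (2 * C * H.card) := by
      refine le_trans (le_of_eq (by ring)) (h7.trans (le_of_eq (by ring)))
    exact le_of_mul_le_mul_left h9 (by positivity)
  refine ⟨H, ?_, ?_, hcard, hHr, ?_⟩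
  · rw [hH, Finset.mem_filter]
    obtain ⟨a, ha⟩ := hV
    refine ⟨?_, ?_⟩
    · have := Finset.mul_mem_mul ha (Finset.inv_mem_inv ha)
      rwa [mul_inv_cancel] at this
    · rw [rp_one]
      nlinarith
  · intro g hg
    rw [hH, Finset.mem_filter] at hg ⊢
    refine ⟨?_, ?_⟩
    · obtain ⟨a, ha, b, hb, rfl⟩ := Finset.mem_mul.1 hg.1
      obtain ⟨c, hc, rfl⟩ := Finset.mem_inv.1 hb
      have : (a * c⁻¹)⁻¹ = c * a⁻¹ := by group
      rw [this]
      exact Finset.mul_mem_mul hc (Finset.inv_mem_inv ha)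
    · rw [rp_inv]
      exact hg.2
  · intro k
    have hq : ∀ k : ℕ, ((V⁻¹ * H ^ k * V).card : ℝ) ≤ (2 * C ^ 2) ^ k * C * V.card := by
      intro k
      induction k with
      | zero => simpa using hC
      | succ k ih =>
        set Q := V⁻¹ * H ^ k * V with hQ
        set Q' := V⁻¹ * H ^ (k + 1) * V with hQ'
        have hrep : ∀ g ∈ Q', (V.card : ℝ) / (2 * C) ≤
            ((((V⁻¹ * V) ×ˢ Q).filter fun q => q.1 * q.2 = g).card : ℝ) := by
          intro g hg
          obtain ⟨t, ht, v, hv, rfl⟩ := Finset.mem_mul.1 hg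
          obtain ⟨s, hs, u, hu, rfl⟩ := Finset.mem_mul.1 ht
          obtain ⟨b, hb, rfl⟩ := Finset.mem_inv.1 hs
          rw [pow_succ'] at hu
          obtain ⟨h, hh, u', hu', rfl⟩ := Finset.mem_mul.1 hu
          have h1 := hHr h hh
          have h2 := rp_le' V h
          have h3 : (V.filter fun a => h⁻¹ * a ∈ V).card ≤
              (((V⁻¹ * V) ×ˢ Q).filter fun q => q.1 * q.2 = b⁻¹ * (h * u') * v).card := by
            apply Finset.card_le_card_of_injOn (fun a => (b⁻¹ * a, a⁻¹ * h * u' * v))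
            · intro a ha
              have ha' := Finset.mem_filter.1 (Finset.mem_coe.1 ha)
              rw [Finset.mem_coe, Finset.mem_filter, Finset.mem_product]
              refine ⟨⟨Finset.mul_mem_mul (Finset.inv_mem_inv hb) ha'.1, ?_⟩, ?_⟩
              · have e : a⁻¹ * h = (h⁻¹ * a)⁻¹ := by group
                simp only [hQ]
                rw [e]
                exact Finset.mul_mem_mul
                  (Finset.mul_mem_mul (Finset.inv_mem_inv ha'.2) hu') hv
              · simp only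
                group
            · intro a _ a' _ haa
              exact mul_left_cancel (Prod.mk.injEq _ _ _ _ ▸ haa).1
          have h4 : (rp V h : ℝ) ≤
              ((((V⁻¹ * V) ×ˢ Q).filter fun q => q.1 * q.2 = b⁻¹ * (h * u') * v).card : ℝ) := by
            exact_mod_cast h2.trans h3
          rw [div_le_iff₀ (by positivity)]
          nlinarith
        have hsum := sum_card_fiber_le ((V⁻¹ * V) ×ˢ Q) (fun q : G × G => q.1 * q.2) Q'
        have h1 : (Q'.card : ℝ) * ((V.card : ℝ) / (2 * C)) ≤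
            ((V⁻¹ * V).card : ℝ) * (Q.card : ℝ) := by
          rw [← nsmul_eq_mul, ← Finset.sum_const]
          refine (Finset.sum_le_sum hrep).trans ?_
          rw [← Nat.cast_sum, ← Nat.cast_mul, ← Finset.card_product]
          exact_mod_cast hsum
        have h2 : ((V⁻¹ * V).card : ℝ) * (Q.card : ℝ) ≤
            (C * V.card) * ((2 * C ^ 2) ^ k * C * V.card) :=
          mul_le_mul hC ih (by positivity) (by positivity)
        have h3 : (V.card : ℝ) / (2 * C) * Q'.card ≤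
            (V.card : ℝ) / (2 * C) * ((2 * C ^ 2) ^ (k + 1) * C * V.card) := by
          calc (V.card : ℝ) / (2 * C) * Q'.card = (Q'.card : ℝ) * ((V.card : ℝ) / (2 * C)) := by
                ring
            _ ≤ (C * V.card) * ((2 * C ^ 2) ^ k * C * V.card) := h1.trans h2
            _ = (V.card : ℝ) / (2 * C) * ((2 * C ^ 2) ^ (k + 1) * C * V.card) := by
                field_simp
                ring
        exact le_of_mul_le_mul_left h3 (by positivity)
    refine le_trans ?_ (hq k)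
    obtain ⟨a, ha⟩ := hV
    have : (H ^ k).card ≤ (V⁻¹ * H ^ k * V).card := by
      apply Finset.card_le_card_of_injOn (fun g => a⁻¹ * g * a)
      · intro g hg
        exact Finset.mem_coe.2 (Finset.mul_mem_mul
          (Finset.mul_mem_mul (Finset.inv_mem_inv ha) (Finset.mem_coe.1 hg)) ha)
      · intro g _ g' _ h
        exact mul_left_cancel (mul_right_cancel h)
    exact_mod_cast this

end Pool.Agent.Lib.MP_8dbdcc_co
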