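import Mathlib

set_option autoImplicit false

/-!
# A Balog–Szemerédi–Gowers lemma for groups
-/

namespace Pool.Agent.Lib.MP_8dbdcc_co

open Finset
open scoped Pointwise

theorem sum_card_fiber_le {A B : Type*} [DecidableEq B] (P : Finset A) (π : A → B)
    (U : Finset B) : ∑ u ∈ U, (P.filter fun q => π q = u).card ≤ P.card := by
  classical
  simp only [Finset.card_filter]
  rw [Finset.sum_comm]
  calc ∑ q ∈ P, ∑ u ∈ U, (if π q = u then 1 else 0) ≤ ∑ q ∈ P, 1 := by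
        apply Finset.sum_le_sum
        intro q _
        rw [Finset.sum_ite_eq]
        split_ifs <;> simp
    _ = P.card := by simp

theorem bsg_rep {G : Type*} [Group G] [DecidableEq G] (Gd D : Finset G)
    (c₁ c₂ : G → Finset G) (v₁ v₂ : G)
    (h₁ : ∀ v ∈ Gd, ∀ w ∈ c₁ v, v₁⁻¹ * w ∈ D ∧ w⁻¹ * v ∈ D)
    (h₂ : ∀ v ∈ Gd, ∀ w ∈ c₂ v, v⁻¹ * w ∈ D ∧ w⁻¹ * v₂ ∈ D) :
    (Gd.sigma fun v => c₁ v ×ˢ c₂ v).card ≤ ((D ×ˢ D ×ˢ D ×ˢ D).filter fun q =>
      q.1 * q.2.1 * q.2.2.1 * q.2.2.2 = v₁⁻¹ * v₂).card := by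
  apply Finset.card_le_card_of_injOn
    (fun t : (Σ _ : G, G × G) => (v₁⁻¹ * t.2.1, t.2.1⁻¹ * t.1, t.1⁻¹ * t.2.2, t.2.2⁻¹ * v₂))
  · rintro ⟨v, w₁, w₂⟩ ht
    have ht1 := Finset.mem_sigma.1 (Finset.mem_coe.1 ht)
    have ht2 := Finset.mem_product.1 ht1.2
    have e1 := h₁ v ht1.1 w₁ ht2.1
    have e2 := h₂ v ht1.1 w₂ ht2.2
    rw [Finset.mem_coe, Finset.mem_filter, Finset.mem_product, Finset.mem_product,
      Finset.mem_product]
    exact ⟨⟨e1.1, e1.2, e2.1, e2.2⟩, by simp only; group⟩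
  · rintro ⟨v, w₁, w₂⟩ _ ⟨v', w₁', w₂'⟩ _ h
    simp only [Prod.mk.injEq] at h
    obtain ⟨h1, h2, h3, _⟩ := h
    have hw₁ : w₁ = w₁' := mul_left_cancel h1
    subst hw₁
    have hv : v = v' := mul_left_cancel h2
    subst hv
    have hw₂ : w₂ = w₂' := mul_left_cancel h3
    subst hw₂
    rfl

/-- If many pairs of elements of `Y` have a quotient in the symmetric set `D`, then `Y` contains a
large subset `V` with few quotients. -/
theorem bsg {G : Type*} [Group G] [DecidableEq G] (Y D : Finset G)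
    (hD : ∀ g ∈ D, g⁻¹ ∈ D) (α : ℝ) (hα : 0 < α) (hY : Y.Nonempty)
    (hE : α * (Y.card : ℝ) ^ 2 ≤ (((Y ×ˢ Y).filter fun q => q.1⁻¹ * q.2 ∈ D).card : ℝ)) :
    ∃ V ⊆ Y, α / 2 * Y.card ≤ V.card ∧
      ((V⁻¹ * V).card : ℝ) * (α ^ 5 * (Y.card : ℝ) ^ 3) ≤ 4096 * (D.card : ℝ) ^ 4 := by
  classical
  set y : ℝ := (Y.card : ℝ) with hy
  have hy0 : 0 < y := by
    rw [hy]
    exact_mod_cast hY.card_pos
  set N : G → Finset G := fun w => Y.filter fun v => v⁻¹ * w ∈ D with hN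
  set cn : G → G → Finset G := fun v v' => Y.filter fun w => v⁻¹ * w ∈ D ∧ v'⁻¹ * w ∈ D with hcn
  set κ : ℝ := α ^ 2 / 32 with hκ
  have hκ0 : 0 < κ := by positivity
  set Bad : Finset (G × G) := (Y ×ˢ Y).filter fun q => ((cn q.1 q.2).card : ℝ) ≤ κ * y with hBad
  set bad : G → Finset (G × G) := fun w => Bad.filter fun q => q.1 ∈ N w ∧ q.2 ∈ N w with hbad
  -- the number of edges
  have hsumN : α * y ^ 2 ≤ ∑ w ∈ Y, ((N w).card : ℝ) := by
    refine hE.trans (le_of_eq ?_)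
    rw [← Nat.cast_sum]
    congr 1
    rw [Finset.card_filter, Finset.sum_product_right]
    apply Finset.sum_congr rfl
    intro w _
    rw [hN, Finset.card_filter]
  have hCS : α ^ 2 * y ^ 3 ≤ ∑ w ∈ Y, ((N w).card : ℝ) ^ 2 := by
    have h1 := sq_sum_le_card_mul_sum_sq (s := Y) (f := fun w => ((N w).card : ℝ))
    have h2 : (α * y ^ 2) ^ 2 ≤ (∑ w ∈ Y, ((N w).card : ℝ)) ^ 2 :=
      pow_le_pow_left₀ (by positivity) hsumN 2
    have h3 : (α * y ^ 2) ^ 2 ≤ y * ∑ w ∈ Y, ((N w).card : ℝ) ^ 2 := h2.trans h1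
    have h4 : y * (α ^ 2 * y ^ 3) ≤ y * ∑ w ∈ Y, ((N w).card : ℝ) ^ 2 := by
      refine le_trans (le_of_eq ?_) h3
      ring
    exact le_of_mul_le_mul_left h4 hy0
  have hsumbad : ∑ w ∈ Y, ((bad w).card : ℝ) ≤ κ * y ^ 3 := by
    have h1 : ∑ w ∈ Y, ((bad w).card : ℝ) = ∑ q ∈ Bad, ((cn q.1 q.2).card : ℝ) := by
      rw [← Nat.cast_sum, ← Nat.cast_sum]
      congr 1
      simp only [hbad, hcn, Finset.card_filter]
      rw [Finset.sum_comm]
      apply Finset.sum_congr rfl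
      intro q hq
      have hq' := (Finset.mem_filter.1 hq).1
      rw [Finset.mem_product] at hq'
      apply Finset.sum_congr rfl
      intro w _
      simp only [hN, Finset.mem_filter, hq'.1, hq'.2, true_and]
    rw [h1]
    calc ∑ q ∈ Bad, ((cn q.1 q.2).card : ℝ) ≤ ∑ q ∈ Bad, κ * y :=
          Finset.sum_le_sum fun q hq => (Finset.mem_filter.1 hq).2
      _ = (Bad.card : ℝ) * (κ * y) := by rw [Finset.sum_const, nsmul_eq_mul]
      _ ≤ (y * y) * (κ * y) := by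
          apply mul_le_mul_of_nonneg_right _ (by positivity)
          have : Bad.card ≤ Y.card * Y.card := by
            rw [← Finset.card_product]
            exact Finset.card_filter_le _ _
          rw [hy]
          exact_mod_cast this
      _ = κ * y ^ 3 := by ring
  obtain ⟨w, hwY, hw⟩ : ∃ w ∈ Y, α ^ 2 / 2 * y ^ 2 ≤
      ((N w).card : ℝ) ^ 2 - 16 * ((bad w).card : ℝ) := by
    apply Finset.exists_le_of_sum_le hY
    rw [Finset.sum_const, nsmul_eq_mul, Finset.sum_sub_distrib, ← Finset.mul_sum, ← hy]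
    have : y * (α ^ 2 / 2 * y ^ 2) = α ^ 2 * y ^ 3 - 16 * (κ * y ^ 3) := by
      rw [hκ]
      ring
    rw [this]
    linarith
  set V₀ := N w with hV₀
  set x : ℝ := (V₀.card : ℝ) with hx
  have hx0 : 0 ≤ x := by rw [hx]; positivity
  have hbx : 16 * ((bad w).card : ℝ) ≤ x ^ 2 := by
    have : 0 ≤ α ^ 2 / 2 * y ^ 2 := by positivity
    linarith
  have hxy : α ^ 2 / 2 * y ^ 2 ≤ x ^ 2 := by
    have : (0 : ℝ) ≤ ((bad w).card : ℝ) := by positivity
    linarith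
  set bd : G → Finset G := fun v => V₀.filter fun v' => (v, v') ∈ Bad with hbd
  set V := V₀.filter fun v => ((bd v).card : ℝ) < x / 4 with hV
  have hV₀Y : V₀ ⊆ Y := Finset.filter_subset _ _
  have hVV₀ : V ⊆ V₀ := Finset.filter_subset _ _
  -- size of `V`
  have hcardbad : ((bad w).card : ℝ) = ∑ v ∈ V₀, ((bd v).card : ℝ) := by
    rw [← Nat.cast_sum]
    congr 1
    have : bad w = (V₀ ×ˢ V₀).filter fun q => q ∈ Bad := by
      ext q
      simp only [hbad, Finset.mem_filter, Finset.mem_product]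
      tauto
    rw [this, Finset.card_filter, Finset.sum_product]
    apply Finset.sum_congr rfl
    intro v _
    rw [hbd, Finset.card_filter]
  have hVcard : 3 / 4 * x ≤ (V.card : ℝ) := by
    have h1 : ((V₀ \ V).card : ℝ) * (x / 4) ≤ ((bad w).card : ℝ) := by
      rw [hcardbad]
      calc ((V₀ \ V).card : ℝ) * (x / 4) = ∑ v ∈ V₀ \ V, x / 4 := by
            rw [Finset.sum_const, nsmul_eq_mul]
        _ ≤ ∑ v ∈ V₀ \ V, ((bd v).card : ℝ) := by
            apply Finset.sum_le_sum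
            intro v hv
            have hv' := Finset.mem_sdiff.1 hv
            by_contra hcon
            exact hv'.2 (Finset.mem_filter.2 ⟨hv'.1, not_le.1 hcon⟩)
        _ ≤ ∑ v ∈ V₀, ((bd v).card : ℝ) :=
            Finset.sum_le_sum_of_subset_of_nonneg Finset.sdiff_subset
              fun _ _ _ => by positivity
    have h2 : ((V₀ \ V).card : ℝ) + (V.card : ℝ) = x := by
      rw [hx]
      exact_mod_cast Finset.card_sdiff_add_card_eq_card hVV₀
    rcases hx0.eq_or_lt with h3 | h3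
    · rw [← h3]
      simp
    · have h4 : ((V₀ \ V).card : ℝ) * (x / 4) ≤ x / 4 * (x / 4) := by nlinarith
      have h5 : ((V₀ \ V).card : ℝ) ≤ x / 4 := le_of_mul_le_mul_right h4 (by positivity)
      linarith
  refine ⟨V, hVV₀.trans hV₀Y, ?_, ?_⟩
  · apply le_of_sq_le_sq _ (by positivity)
    have : (3 / 4 * x) ^ 2 ≤ (V.card : ℝ) ^ 2 := pow_le_pow_left₀ (by positivity) hVcard 2
    nlinarith
  -- representations
  set P : Finset (G × G × G × G) := D ×ˢ D ×ˢ D ×ˢ D with hP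
  set π : G × G × G × G → G := fun q => q.1 * q.2.1 * q.2.2.1 * q.2.2.2 with hπ
  have hrep : ∀ u ∈ V⁻¹ * V, x / 2 * (κ * y) ^ 2 ≤ ((P.filter fun q => π q = u).card : ℝ) := by
    intro u hu
    obtain ⟨a, ha, v₂, hv₂, rfl⟩ := Finset.mem_mul.1 hu
    obtain ⟨v₁, hv₁, rfl⟩ := Finset.mem_inv.1 ha
    have hv₁' := Finset.mem_filter.1 hv₁
    have hv₂' := Finset.mem_filter.1 hv₂
    set Gd := V₀.filter fun v => (v₁, v) ∉ Bad ∧ (v₂, v) ∉ Bad with hGd
    have hGdcard : x / 2 ≤ (Gd.card : ℝ) := by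
      have h1 : V₀ ⊆ Gd ∪ (bd v₁ ∪ bd v₂) := by
        intro v hv
        simp only [hGd, hbd, Finset.mem_union, Finset.mem_filter]
        tauto
      have h2 : V₀.card ≤ Gd.card + ((bd v₁).card + (bd v₂).card) :=
        (Finset.card_le_card h1).trans ((Finset.card_union_le _ _).trans
          (Nat.add_le_add_left (Finset.card_union_le _ _) _))
      have h3 : x ≤ (Gd.card : ℝ) + (((bd v₁).card : ℝ) + ((bd v₂).card : ℝ)) := by
        rw [hx]
        exact_mod_cast h2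
      linarith [hv₁'.2, hv₂'.2]
    set Sg : Finset (Σ _ : G, G × G) := Gd.sigma fun v => cn v₁ v ×ˢ cn v₂ v with hSg
    have hcn : ∀ v' ∈ V₀, ∀ v ∈ V₀, (v', v) ∉ Bad → κ * y ≤ ((cn v' v).card : ℝ) := by
      intro v' hv' v hv hnb
      by_contra hcon
      apply hnb
      rw [hBad, Finset.mem_filter, Finset.mem_product]
      exact ⟨⟨hV₀Y hv', hV₀Y hv⟩, (not_le.1 hcon).le⟩
    have hSgcard : x / 2 * (κ * y) ^ 2 ≤ (Sg.card : ℝ) := by
      rw [hSg, Finset.card_sigma, Nat.cast_sum]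
      calc x / 2 * (κ * y) ^ 2 ≤ (Gd.card : ℝ) * (κ * y) ^ 2 :=
            mul_le_mul_of_nonneg_right hGdcard (by positivity)
        _ = ∑ v ∈ Gd, (κ * y) ^ 2 := by rw [Finset.sum_const, nsmul_eq_mul]
        _ ≤ ∑ v ∈ Gd, (((cn v₁ v ×ˢ cn v₂ v).card : ℕ) : ℝ) := by
            apply Finset.sum_le_sum
            intro v hv
            rw [hGd, Finset.mem_filter] at hv
            rw [Finset.card_product, Nat.cast_mul, pow_two]
            exact mul_le_mul (hcn v₁ hv₁'.1 v hv.1 hv.2.1) (hcn v₂ hv₂'.1 v hv.1 hv.2.2)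
              (by positivity) (by positivity)
    refine hSgcard.trans ?_
    have hinj : Sg.card ≤ (P.filter fun q => π q = v₁⁻¹ * v₂).card := by
      refine bsg_rep Gd D (fun v => cn v₁ v) (fun v => cn v₂ v) v₁ v₂ ?_ ?_
      · intro v _ w hw
        have h1' := (Finset.mem_filter.1 hw).2
        have e1 : w⁻¹ * v = (v⁻¹ * w)⁻¹ := by group
        exact ⟨h1'.1, e1 ▸ hD _ h1'.2⟩
      · intro v _ w hw
        have h1' := (Finset.mem_filter.1 hw).2
        have e1 : w⁻¹ * v₂ = (v₂⁻¹ * w)⁻¹ := by group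
        exact ⟨h1'.2, e1 ▸ hD _ h1'.1⟩
    exact_mod_cast hinj
  have hsumrep : ∑ u ∈ V⁻¹ * V, ((P.filter fun q => π q = u).card : ℝ) ≤ (D.card : ℝ) ^ 4 := by
    rw [← Nat.cast_sum]
    have h2 : ∑ u ∈ V⁻¹ * V, (P.filter fun q => π q = u).card ≤ P.card :=
      sum_card_fiber_le P π _
    have h3 : P.card = D.card ^ 4 := by
      rw [hP, Finset.card_product, Finset.card_product, Finset.card_product]
      ring
    rw [h3] at h2
    exact_mod_cast h2
  have hfin : ((V⁻¹ * V).card : ℝ) * (x / 2 * (κ * y) ^ 2) ≤ (D.card : ℝ) ^ 4 := by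
    refine le_trans ?_ hsumrep
    rw [← nsmul_eq_mul, ← Finset.sum_const]
    exact Finset.sum_le_sum hrep
  have hxy' : α / 2 * y ≤ x := by
    apply le_of_sq_le_sq _ hx0
    nlinarith [sq_nonneg (α * y)]
  have h1 : α ^ 5 * y ^ 3 ≤ 4096 * (x / 2 * (κ * y) ^ 2) := by
    have h2 : α / 2 * y * (κ * y) ^ 2 ≤ x * (κ * y) ^ 2 :=
      mul_le_mul_of_nonneg_right hxy' (by positivity)
    have h3 : α / 2 * y * (κ * y) ^ 2 = α ^ 5 * y ^ 3 / 2048 := by
      rw [hκ]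
      ring
    linarith
  calc ((V⁻¹ * V).card : ℝ) * (α ^ 5 * y ^ 3)
      ≤ ((V⁻¹ * V).card : ℝ) * (4096 * (x / 2 * (κ * y) ^ 2)) :=
        mul_le_mul_of_nonneg_left h1 (by positivity)
    _ = 4096 * (((V⁻¹ * V).card : ℝ) * (x / 2 * (κ * y) ^ 2)) := by ring
    _ ≤ 4096 * (D.card : ℝ) ^ 4 := by linarith

end Pool.Agent.Lib.MP_8dbdcc_co
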