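import Pool.Agent.Lib.MP_8dbdcc_co.Start

set_option autoImplicit false
set_option linter.unusedSectionVars false

/-!
# Many popular quotients
-/

namespace Pool.Agent.Lib.MP_8dbdcc_co

open Finset OnePoint
open scoped Pointwise

variable {p : ℕ} [Fact p.Prime]

theorem num_one {n s b W : ℝ} (hn : 0 < n) (hsn : s ≤ n) (hs : 8 * n ≤ s ^ 2) (hs3 : 3 ≤ s)
    (hb : 0 < b) (h : (b * (s - 2)) ^ 2 ≤ (n - s) * W) :
    s < n ∧ b ^ 2 * (s ^ 2 / n + s ^ 3 / (2 * n ^ 2)) ≤ W := by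
  have hpos : 0 < (b * (s - 2)) ^ 2 := by
    apply pow_pos
    exact mul_pos hb (by linarith)
  have hlt : s < n := by
    rcases hsn.lt_or_eq with h1 | h1
    · exact h1
    · rw [h1, sub_self, zero_mul] at h
      rw [h1] at hpos
      linarith
  refine ⟨hlt, ?_⟩
  have hns : 0 < n - s := by linarith
  have h1 : (n - s) * (s ^ 2 / n + s ^ 3 / (2 * n ^ 2)) ≤ (s - 2) ^ 2 := by
    have h2 : (n - s) * (s ^ 2 / n + s ^ 3 / (2 * n ^ 2)) =
        ((n - s) * (2 * n * s ^ 2 + s ^ 3)) / (2 * n ^ 2) := by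
      field_simp
    rw [h2, div_le_iff₀ (by positivity)]
    have h3 : 8 * n * (n * s) ≤ s ^ 2 * (n * s) :=
      mul_le_mul_of_nonneg_right hs (by positivity)
    have h4 : 0 ≤ s ^ 4 := by positivity
    have h5 : 0 ≤ n ^ 2 := by positivity
    nlinarith
  have h2 : (n - s) * (b ^ 2 * (s ^ 2 / n + s ^ 3 / (2 * n ^ 2))) ≤ (n - s) * W := by
    calc (n - s) * (b ^ 2 * (s ^ 2 / n + s ^ 3 / (2 * n ^ 2))) =
          b ^ 2 * ((n - s) * (s ^ 2 / n + s ^ 3 / (2 * n ^ 2))) := by ring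
      _ ≤ b ^ 2 * (s - 2) ^ 2 := mul_le_mul_of_nonneg_left h1 (by positivity)
      _ = (b * (s - 2)) ^ 2 := by ring
      _ ≤ (n - s) * W := h
  exact le_of_mul_le_mul_left h2 hns

theorem num_two {n s M W W' : ℝ} (hs : 0 < s) (hsn : s < n) (δ : ℝ) (hδ : 0 ≤ δ)
    (hW : M * s / n + δ ≤ W) (h : (n - s) * W ^ 2 + s * (M - W) ^ 2 ≤ s * (n - s) * W') :
    M ^ 2 / n + δ ^ 2 / s ≤ W' := by
  have hn : 0 < n := hs.trans hsn
  have hns : 0 < n - s := by linarith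
  have h1 : (n - s) * W ^ 2 + s * (M - W) ^ 2 =
      n * (W - M * s / n) ^ 2 + s * (n - s) * (M ^ 2 / n) := by
    field_simp
    ring
  have h2 : δ ^ 2 ≤ (W - M * s / n) ^ 2 := pow_le_pow_left₀ hδ (by linarith) 2
  have h3 : s * (n - s) * (M ^ 2 / n + δ ^ 2 / s) ≤ s * (n - s) * W' := by
    have h4 : s * (n - s) * (M ^ 2 / n + δ ^ 2 / s) =
        (n - s) * δ ^ 2 + s * (n - s) * (M ^ 2 / n) := by
      field_simp
      ring
    rw [h4]
    refine le_trans ?_ h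
    rw [h1]
    have h5 : (n - s) * δ ^ 2 ≤ n * (W - M * s / n) ^ 2 :=
      mul_le_mul (by linarith) h2 (sq_nonneg _) hn.le
    linarith
  exact le_of_mul_le_mul_left h3 (mul_pos hs hns)

/-- the quotient map -/
def quo (q : SL2 p × SL2 p) : SL2 p := q.2⁻¹ * q.1

/-- many pairs of quotients have many points of `S` in common -/
theorem corr_bound (A : Finset (SL2 p)) (S S' : Finset (P1 p)) (hSS : S'.card = S.card)
    (hdis : ∀ a ∈ A, (S.filter fun x => a • x ∈ S').card ≤ 2) (hA : A.Nonempty)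
    (hs3 : 3 ≤ S.card) (hs : 8 * ((p : ℝ) + 1) ≤ (S.card : ℝ) ^ 2) :
    (A.card : ℝ) ^ 4 * ((S.card : ℝ) ^ 2 / ((p : ℝ) + 1) +
      (S.card : ℝ) ^ 5 / (4 * ((p : ℝ) + 1) ^ 4)) ≤
      ∑ q ∈ (A ×ˢ A) ×ˢ (A ×ˢ A), (nn S ((quo q.2)⁻¹ * quo q.1) : ℝ) := by
  classical
  have hn : (0 : ℝ) < (p : ℝ) + 1 := by positivity
  have hb : (0 : ℝ) < A.card := by exact_mod_cast hA.card_pos
  have hs3' : (3 : ℝ) ≤ S.card := by exact_mod_cast hs3
  have hsn : (S.card : ℝ) ≤ (p : ℝ) + 1 := by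
    have := Finset.card_le_univ S
    rw [card_P1'] at this
    exact_mod_cast this
  have h1 := cs_one A S S' hSS hdis (by omega)
  obtain ⟨hlt, h2⟩ := num_one hn hsn hs hs3' hb h1
  have h3 := cs_two (A ×ˢ A) quo S _ rfl
  have hcard : ((A ×ˢ A).card : ℝ) = (A.card : ℝ) ^ 2 := by
    rw [Finset.card_product]
    push_cast
    ring
  rw [hcard] at h3
  have h4 := num_two (δ := (A.card : ℝ) ^ 2 * ((S.card : ℝ) ^ 3 / (2 * ((p : ℝ) + 1) ^ 2)))
    (by linarith) hlt (by positivity) (by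
      refine le_trans (le_of_eq ?_) h2
      ring) h3
  refine le_trans (le_of_eq ?_) h4
  have hs0 : (S.card : ℝ) ≠ 0 := by linarith
  field_simp
  ring

/-- the set of elements which preserve many points of `S` -/
noncomputable def DD (S : Finset (P1 p)) : Finset (SL2 p) :=
  Finset.univ.filter fun g => (S.card : ℝ) ^ 2 / ((p : ℝ) + 1) +
    (S.card : ℝ) ^ 5 / (8 * ((p : ℝ) + 1) ^ 4) ≤ (nn S g : ℝ)

theorem DD_inv (S : Finset (P1 p)) : ∀ g ∈ DD S, g⁻¹ ∈ DD S := by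
  intro g hg
  rw [DD, Finset.mem_filter] at hg ⊢
  rw [nn_inv]
  exact ⟨Finset.mem_univ _, hg.2⟩

theorem DD_card (S : Finset (P1 p)) (hS : S.Nonempty) :
    ((DD S).card : ℝ) * (S.card : ℝ) ^ 8 ≤ 64 * ((p : ℝ) + 1) ^ 10 := by
  classical
  have hn : (0 : ℝ) < (p : ℝ) + 1 := by positivity
  have hs : (0 : ℝ) < S.card := by exact_mod_cast hS.card_pos
  have h1 := variance S
  set n : ℝ := (p : ℝ) + 1 with hn'
  set s : ℝ := (S.card : ℝ) with hs'
  have h2 : ((DD S).card : ℝ) * (s ^ 5 / (8 * n ^ 4)) ^ 2 ≤ s ^ 2 * (p : ℝ) ^ 2 := by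
    refine le_trans ?_ h1
    calc ((DD S).card : ℝ) * (s ^ 5 / (8 * n ^ 4)) ^ 2 =
          ∑ g ∈ DD S, (s ^ 5 / (8 * n ^ 4)) ^ 2 := by rw [Finset.sum_const, nsmul_eq_mul]
      _ ≤ ∑ g ∈ DD S, ((nn S g : ℝ) - s ^ 2 / n) ^ 2 := by
          apply Finset.sum_le_sum
          intro g hg
          rw [DD, Finset.mem_filter] at hg
          apply pow_le_pow_left₀ (by positivity)
          linarith [hg.2]
      _ ≤ ∑ g : SL2 p, ((nn S g : ℝ) - s ^ 2 / n) ^ 2 :=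
          Finset.sum_le_sum_of_subset_of_nonneg (Finset.subset_univ _) fun _ _ _ => sq_nonneg _
  have h3 : s ^ 2 * (p : ℝ) ^ 2 ≤ s ^ 2 * n ^ 2 := by
    apply mul_le_mul_of_nonneg_left _ (by positivity)
    apply pow_le_pow_left₀ (by positivity)
    linarith
  have h4 : ((DD S).card : ℝ) * (s ^ 5 / (8 * n ^ 4)) ^ 2 =
      ((DD S).card : ℝ) * s ^ 8 * (s ^ 2 / (64 * n ^ 8)) := by
    field_simp
    ring
  rw [h4] at h2
  have h5 : ((DD S).card : ℝ) * s ^ 8 * (s ^ 2 / (64 * n ^ 8)) ≤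
      64 * n ^ 10 * (s ^ 2 / (64 * n ^ 8)) := by
    refine (h2.trans h3).trans (le_of_eq ?_)
    field_simp
  exact le_of_mul_le_mul_right h5 (by positivity)

/-- many pairs of quotients have a popular quotient -/
theorem pairs_bound (A : Finset (SL2 p)) (S S' : Finset (P1 p)) (hSS : S'.card = S.card)
    (hdis : ∀ a ∈ A, (S.filter fun x => a • x ∈ S').card ≤ 2) (hA : A.Nonempty)
    (hs3 : 3 ≤ S.card) (hs : 8 * ((p : ℝ) + 1) ≤ (S.card : ℝ) ^ 2) :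
    (A.card : ℝ) ^ 4 * ((S.card : ℝ) ^ 4 / (8 * ((p : ℝ) + 1) ^ 4)) ≤
      ((((A ×ˢ A) ×ˢ (A ×ˢ A)).filter fun q => (quo q.2)⁻¹ * quo q.1 ∈ DD S).card : ℝ) := by
  classical
  have hn : (0 : ℝ) < (p : ℝ) + 1 := by positivity
  have hs0 : (0 : ℝ) < S.card := by exact_mod_cast (by omega : 0 < S.card)
  have h1 := corr_bound A S S' hSS hdis hA hs3 hs
  set n : ℝ := (p : ℝ) + 1 with hn'
  set s : ℝ := (S.card : ℝ) with hs'
  set b : ℝ := (A.card : ℝ) with hb'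
  set Q := (A ×ˢ A) ×ˢ (A ×ˢ A) with hQ
  set E := Q.filter fun q => (quo q.2)⁻¹ * quo q.1 ∈ DD S with hE
  have hQcard : (Q.card : ℝ) = b ^ 4 := by
    rw [hQ, Finset.card_product, Finset.card_product]
    push_cast
    ring
  have h2 : ∑ q ∈ Q, (nn S ((quo q.2)⁻¹ * quo q.1) : ℝ) ≤
      (E.card : ℝ) * s + b ^ 4 * (s ^ 2 / n + s ^ 5 / (8 * n ^ 4)) := by
    have h3 : ∀ q ∈ Q, (nn S ((quo q.2)⁻¹ * quo q.1) : ℝ) ≤
        (if (quo q.2)⁻¹ * quo q.1 ∈ DD S then s else 0) +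
          (s ^ 2 / n + s ^ 5 / (8 * n ^ 4)) := by
      intro q _
      split_ifs with h4
      · have h5 : (nn S ((quo q.2)⁻¹ * quo q.1) : ℝ) ≤ s := by
          rw [hs']
          exact_mod_cast nn_le S _
        have h6 : 0 ≤ s ^ 2 / n + s ^ 5 / (8 * n ^ 4) := by positivity
        linarith
      · rw [zero_add]
        by_contra hcon
        apply h4
        rw [DD, Finset.mem_filter]
        exact ⟨Finset.mem_univ _, (not_le.1 hcon).le⟩
    refine (Finset.sum_le_sum h3).trans (le_of_eq ?_)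
    rw [Finset.sum_add_distrib, ← Finset.sum_filter, Finset.sum_const, Finset.sum_const,
      nsmul_eq_mul, nsmul_eq_mul, hQcard]
  have h3 : b ^ 4 * (s ^ 2 / n + s ^ 5 / (4 * n ^ 4)) ≤
      (E.card : ℝ) * s + b ^ 4 * (s ^ 2 / n + s ^ 5 / (8 * n ^ 4)) := h1.trans h2
  have h4 : b ^ 4 * (s ^ 4 / (8 * n ^ 4)) * s ≤ (E.card : ℝ) * s := by
    have h5 : b ^ 4 * (s ^ 2 / n + s ^ 5 / (4 * n ^ 4)) =
        b ^ 4 * (s ^ 4 / (8 * n ^ 4)) * s + b ^ 4 * (s ^ 2 / n + s ^ 5 / (8 * n ^ 4)) := by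
      field_simp
      ring
    linarith
  exact le_of_mul_le_mul_right h4 hs0

end Pool.Agent.Lib.MP_8dbdcc_co
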