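import Pool.Agent.Lib.MP_8dbdcc_co.Model

set_option autoImplicit false
set_option linter.unusedSectionVars false

/-!
# From a parametrised conic to the model
-/

namespace Pool.Agent.Lib.MP_8dbdcc_co

open Finset OnePoint
open scoped Pointwise

variable {p : ℕ} [Fact p.Prime]

/-- there is no dense set with many points on the conic and many points off it -/
theorem no_abstract (A C : Finset (ZMod p × ZMod p)) (hCA : C ⊆ A)
    (T : ZMod p × ZMod p → Tr p)
    (hT : ∀ l m n : ZMod p, (l ≠ 0 ∨ m ≠ 0 ∨ n ≠ 0) →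
      (A.filter fun q => l * (T q).1 + m * (T q).2.1 + n * (T q).2.2 = 0).card ≤ 2)
    (hinj : ∀ q q', ∀ r : ZMod p, (T q').1 = r * (T q).1 → (T q').2.1 = r * (T q).2.1 →
      (T q').2.2 = r * (T q).2.2 → q = q')
    (hC : ∀ q ∈ C, (T q).1 * (T q).2.2 - (T q).2.1 ^ 2 = 0)
    (hB : ∀ q ∈ A \ C, (T q).1 * (T q).2.2 - (T q).2.1 ^ 2 ≠ 0)
    (K : ℝ) (hK : 2 ≤ K) (hp : K ^ 20000 ≤ (p : ℝ)) (hs : (p : ℝ) + 1 ≤ K * ((C.card : ℝ) - 2))
    (hb : 2 * ((p : ℝ) + 1) ≤ K * (A \ C).card) (hb2 : ((A \ C).card : ℝ) ≤ 2 * ((p : ℝ) + 1)) :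
    False := by
  classical
  have hK0 : 0 < K := by linarith
  -- `p` is odd
  have hp2 : (2 : ZMod p) ≠ 0 := by
    intro h5
    have h6 : p ∣ 2 := by
      rw [← ZMod.natCast_eq_zero_iff]
      exact_mod_cast h5
    have h7 : p ≤ 2 := Nat.le_of_dvd (by norm_num) h6
    have h8 : (p : ℝ) ≤ 2 := by exact_mod_cast h7
    have h9 : K ^ 2 ≤ K ^ 20000 := pow_le_pow_right₀ (by linarith) (by norm_num)
    nlinarith
  -- the parameters
  set C₀ := C.filter fun q => (T q).1 ≠ 0 with hC₀
  have hC₀card : (C.card : ℝ) - 2 ≤ C₀.card := by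
    have h1 : C.card ≤ C₀.card + (A.filter fun q =>
        (1 : ZMod p) * (T q).1 + 0 * (T q).2.1 + 0 * (T q).2.2 = 0).card := by
      rw [← Finset.card_filter_add_card_filter_not (s := C) (fun q => (T q).1 ≠ 0)]
      apply Nat.add_le_add_left
      apply Finset.card_le_card
      intro q hq
      rw [Finset.mem_filter, not_not] at hq
      rw [Finset.mem_filter]
      refine ⟨hCA hq.1, ?_⟩
      rw [hq.2]
      ring
    have h2 := hT 1 0 0 (Or.inl one_ne_zero)
    have h3 : C.card ≤ C₀.card + 2 := h1.trans (Nat.add_le_add_left h2 _)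
    have h4 : (C.card : ℝ) ≤ C₀.card + 2 := by exact_mod_cast h3
    linarith
  set t : ZMod p × ZMod p → ZMod p := fun q => (T q).2.1 / (T q).1 with ht
  have htY : ∀ q ∈ C₀, (T q).2.1 = (T q).1 * t q := by
    intro q hq
    have := (Finset.mem_filter.1 hq).2
    rw [ht]
    field_simp
  have htZ : ∀ q ∈ C₀, (T q).2.2 = (T q).1 * t q ^ 2 := by
    intro q hq
    have h1 := (Finset.mem_filter.1 hq).2
    have h2 := hC q (Finset.mem_filter.1 hq).1
    apply mul_left_cancel₀ h1
    have h3 := htY q hq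
    rw [h3] at h2
    linear_combination h2
  have htinj : Set.InjOn t (C₀ : Set (ZMod p × ZMod p)) := by
    intro q hq q' hq' h
    have h1 := (Finset.mem_filter.1 (Finset.mem_coe.1 hq)).2
    refine hinj q q' ((T q').1 / (T q).1) ?_ ?_ ?_
    · field_simp
    · rw [htY q hq, htY q' hq', h]
      field_simp
    · rw [htZ q hq, htZ q' hq', h]
      field_simp
  have hScard : (C₀.image t).card = C₀.card := Finset.card_image_of_injOn htinj
  -- the square classes
  obtain ⟨ν, hν0, hν⟩ : ∃ ν : ZMod p, ν ≠ 0 ∧ ∀ x : ZMod p, x ≠ 0 →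
      (∃ r, r ≠ 0 ∧ r ^ 2 * x = 1) ∨ (∃ r, r ≠ 0 ∧ r ^ 2 * x = ν) := by
    by_cases hex : ∃ ν : ZMod p, ¬ IsSquare ν
    · obtain ⟨ν, hν⟩ := hex
      have hν0 : ν ≠ 0 := by
        rintro rfl
        exact hν ⟨0, by ring⟩
      refine ⟨ν, hν0, fun x hx => ?_⟩
      by_cases hsq : IsSquare x
      · obtain ⟨y, rfl⟩ := hsq
        have hy : y ≠ 0 := by
          rintro rfl
          exact hx (by ring)
        left
        refine ⟨y⁻¹, inv_ne_zero hy, ?_⟩
        field_simp
      · right
        have h1 : IsSquare (x * ν) := by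
          have e1 : quadraticChar (ZMod p) x = -1 :=
            quadraticChar_neg_one_iff_not_isSquare.2 hsq
          have e2 : quadraticChar (ZMod p) ν = -1 :=
            quadraticChar_neg_one_iff_not_isSquare.2 hν
          have e3 : quadraticChar (ZMod p) (x * ν) = 1 := by
            rw [map_mul, e1, e2]
            norm_num
          exact (quadraticChar_one_iff_isSquare (mul_ne_zero hx hν0)).1 e3
        obtain ⟨y, hy⟩ := h1
        have hy0 : y ≠ 0 := by
          rintro rfl
          rw [mul_zero] at hy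
          exact (mul_ne_zero hx hν0) hy
        refine ⟨y / x, div_ne_zero hy0 hx, ?_⟩
        field_simp
        rw [pow_two, ← hy]
    · push Not at hex
      refine ⟨1, one_ne_zero, fun x hx => Or.inl ?_⟩
      obtain ⟨y, rfl⟩ := hex x
      have hy : y ≠ 0 := by
        rintro rfl
        exact hx (by ring)
      refine ⟨y⁻¹, inv_ne_zero hy, ?_⟩
      field_simp
  -- choose the class
  set G := A \ C with hG
  set P : ZMod p → ZMod p × ZMod p → Prop := fun D q =>
    ∃ r, r ≠ 0 ∧ r ^ 2 * ((T q).1 * (T q).2.2 - (T q).2.1 ^ 2) = D with hP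
  have hcls : ∃ D : ZMod p, D ≠ 0 ∧ G.card ≤ 2 * (G.filter (P D)).card := by
    have h1 : G ⊆ (G.filter (P 1)) ∪ (G.filter (P ν)) := by
      intro q hq
      rw [Finset.mem_union, Finset.mem_filter, Finset.mem_filter]
      rcases hν _ (hB q hq) with h | h
      · exact Or.inl ⟨hq, h⟩
      · exact Or.inr ⟨hq, h⟩
    have h2 := (Finset.card_le_card h1).trans (Finset.card_union_le _ _)
    by_cases h3 : (G.filter (P ν)).card ≤ (G.filter (P 1)).card
    · exact ⟨1, one_ne_zero, by omega⟩
    · exact ⟨ν, hν0, by omega⟩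
  obtain ⟨D, hD, hGD⟩ := hcls
  set G' := G.filter (P D) with hG'
  have hex : ∀ q, ∃ r : ZMod p, q ∈ G' → r ≠ 0 ∧
      r ^ 2 * ((T q).1 * (T q).2.2 - (T q).2.1 ^ 2) = D := by
    intro q
    by_cases hq : q ∈ G'
    · obtain ⟨r, hr⟩ := (Finset.mem_filter.1 hq).2
      exact ⟨r, fun _ => hr⟩
    · exact ⟨0, fun h => absurd h hq⟩
  choose r hr using hex
  set R : ZMod p × ZMod p → Tr p := fun q => (r q * (T q).1, r q * (T q).2.1, r q * (T q).2.2)
    with hR
  have hRinj : ∀ q ∈ G', ∀ q' ∈ G', ∀ e : ZMod p, (R q').1 = e * (R q).1 →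
      (R q').2.1 = e * (R q).2.1 → (R q').2.2 = e * (R q).2.2 → q = q' := by
    intro q hq q' hq' e h1 h2 h3
    have h4 := (hr q' hq').1
    refine hinj q q' (e * r q / r q') ?_ ?_ ?_
    · have h5 : r q' * (T q').1 = e * (r q * (T q).1) := h1
      field_simp
      linear_combination h5
    · have h5 : r q' * (T q').2.1 = e * (r q * (T q).2.1) := h2
      field_simp
      linear_combination h5
    · have h5 : r q' * (T q').2.2 = e * (r q * (T q).2.2) := h3
      field_simp
      linear_combination h5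
  have hRinj' : Set.InjOn R (G' : Set (ZMod p × ZMod p)) := by
    intro q hq q' hq' h
    refine hRinj q hq q' hq' 1 ?_ ?_ ?_
    · rw [h, one_mul]
    · rw [h, one_mul]
    · rw [h, one_mul]
  have hRcard : (G'.image R).card = G'.card := Finset.card_image_of_injOn hRinj'
  have hG'le : (G'.card : ℝ) ≤ 2 * ((p : ℝ) + 1) := by
    have h1 : G'.card ≤ G.card := Finset.card_le_card (Finset.filter_subset _ _)
    have h2 : (G'.card : ℝ) ≤ G.card := by exact_mod_cast h1
    linarith
  refine no_model D hD (G'.image R) (C₀.image t) K hK hp ?_ ?_ ?_ ?_ ?_ ?_ ?_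
  · rw [hScard]
    exact hs.trans (mul_le_mul_of_nonneg_left hC₀card hK0.le)
  · rw [hRcard]
    have h1 : (G.card : ℝ) ≤ 2 * G'.card := by exact_mod_cast hGD
    have h2 : K * (G.card : ℝ) ≤ K * (2 * G'.card) := mul_le_mul_of_nonneg_left h1 hK0.le
    linarith
  · rw [hRcard]
    exact hG'le
  · intro Q hQ
    obtain ⟨q, hq, rfl⟩ := Finset.mem_image.1 hQ
    have h1 := (hr q hq).2
    change r q * (T q).1 * (r q * (T q).2.2) - (r q * (T q).2.1) ^ 2 = D
    linear_combination h1
  · intro Q hQ hQ'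
    obtain ⟨q, hq, rfl⟩ := Finset.mem_image.1 hQ
    obtain ⟨q', hq', h1⟩ := Finset.mem_image.1 hQ'
    have h2 : q = q' := by
      refine hRinj q hq q' hq' (-1) ?_ ?_ ?_
      · rw [h1]
        change -(R q).1 = _
        ring
      · rw [h1]
        change -(R q).2.1 = _
        ring
      · rw [h1]
        change -(R q).2.2 = _
        ring
    rw [← h2] at h1
    have e1 : (R q).1 = 0 := by
      have h3 : (R q).1 = -(R q).1 := congrArg Prod.fst h1
      have h4 : (2 : ZMod p) * (R q).1 = 0 := by linear_combination h3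
      rcases mul_eq_zero.1 h4 with h | h
      · exact absurd h hp2
      · exact h
    have e2 : (R q).2.1 = 0 := by
      have h3 : (R q).2.1 = -(R q).2.1 := congrArg (fun x => x.2.1) h1
      have h4 : (2 : ZMod p) * (R q).2.1 = 0 := by linear_combination h3
      rcases mul_eq_zero.1 h4 with h | h
      · exact absurd h hp2
      · exact h
    apply hD
    rw [← (hr q hq).2]
    have e3 : r q * (T q).1 = 0 := e1
    have e4 : r q * (T q).2.1 = 0 := e2
    linear_combination (r q * (T q).2.2) * e3 - (r q * (T q).2.1) * e4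
  · intro Q hQ z hz w hw hzw h
    obtain ⟨q, hq, rfl⟩ := Finset.mem_image.1 hQ
    obtain ⟨s, hs, rfl⟩ := Finset.mem_image.1 hz
    obtain ⟨s', hs', rfl⟩ := Finset.mem_image.1 hw
    have h1 := hT (t s * t s') (-(t s + t s')) 1 (Or.inr (Or.inr one_ne_zero))
    have hqG := Finset.mem_filter.1 hq
    rw [hG, Finset.mem_sdiff] at hqG
    have hsC := (Finset.mem_filter.1 hs).1
    have hsC' := (Finset.mem_filter.1 hs').1
    have hsub : ({q, s, s'} : Finset (ZMod p × ZMod p)) ⊆ A.filter fun q =>
        (t s * t s') * (T q).1 + (-(t s + t s')) * (T q).2.1 + 1 * (T q).2.2 = 0 := by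
      intro x hx
      rw [Finset.mem_insert, Finset.mem_insert, Finset.mem_singleton] at hx
      rw [Finset.mem_filter]
      rcases hx with rfl | rfl | rfl
      · refine ⟨hqG.1.1, ?_⟩
        have h2 := (hr x hq).1
        apply mul_left_cancel₀ h2
        have h3 : r x * (T x).1 * t s * t s' - r x * (T x).2.1 * (t s + t s') +
          r x * (T x).2.2 = 0 := h
        linear_combination h3
      · refine ⟨hCA hsC, ?_⟩
        rw [htY x hs, htZ x hs]
        ring
      · refine ⟨hCA hsC', ?_⟩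
        rw [htY x hs', htZ x hs']
        ring
    have hcard : ({q, s, s'} : Finset (ZMod p × ZMod p)).card = 3 := by
      apply Finset.card_eq_three.2
      refine ⟨q, s, s', ?_, ?_, ?_, rfl⟩
      · rintro rfl
        exact hqG.1.2 hsC
      · rintro rfl
        exact hqG.1.2 hsC'
      · rintro rfl
        exact hzw rfl
    have := (Finset.card_le_card hsub).trans h1
    omega
  · intro α β γ hne
    have h1 := hT α β γ hne
    refine le_trans (Finset.card_le_card (t := (A.filter fun q =>
      α * (T q).1 + β * (T q).2.1 + γ * (T q).2.2 = 0).image R) ?_)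
      (Finset.card_image_le.trans h1)
    intro Q hQ
    rw [Finset.mem_filter] at hQ
    obtain ⟨q, hq, rfl⟩ := Finset.mem_image.1 hQ.1
    rw [Finset.mem_image]
    refine ⟨q, ?_, rfl⟩
    have hqG := Finset.mem_filter.1 hq
    rw [hG, Finset.mem_sdiff] at hqG
    rw [Finset.mem_filter]
    refine ⟨hqG.1.1, ?_⟩
    have h2 := (hr q hq).1
    apply mul_left_cancel₀ h2
    have h3 : α * (r q * (T q).1) + β * (r q * (T q).2.1) + γ * (r q * (T q).2.2) = 0 := hQ.2
    linear_combination h3

end Pool.Agent.Lib.MP_8dbdcc_co
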