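import Pool.Agent.Lib.MP_8dbdcc_co.Geom

set_option autoImplicit false
set_option linter.unusedSectionVars false

/-!
# The statement for one conic
-/

namespace Pool.Agent.Lib.MP_8dbdcc_co

open Finset

variable {p : ℕ} [Fact p.Prime]

/-- the exponent vector -/
noncomputable def ex (ij : ℕ × ℕ) : Fin 2 →₀ ℕ := Finsupp.equivFunOnFinite.symm ![ij.1, ij.2]

theorem ex_zero (ij : ℕ × ℕ) : ex ij 0 = ij.1 := rfl
theorem ex_one (ij : ℕ × ℕ) : ex ij 1 = ij.2 := rfl

theorem ex_inj : Function.Injective ex := by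
  intro x y h
  refine Prod.ext ?_ ?_
  · rw [← ex_zero, ← ex_zero, h]
  · rw [← ex_one, ← ex_one, h]

/-- the exponents of degree at most two -/
def T0 : Finset (ℕ × ℕ) := {(0, 0), (1, 0), (0, 1), (2, 0), (1, 1), (0, 2)}

theorem supp_T0 (f : MvPolynomial (Fin 2) (ZMod p)) (hf : f.totalDegree ≤ 2) :
    f.support ⊆ T0.image ex := by
  classical
  intro m hm
  have h1 : m.sum (fun _ e => e) ≤ 2 := (MvPolynomial.le_totalDegree hm).trans hf
  have h2 : m 0 + m 1 ≤ 2 := by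
    rw [Finsupp.sum_fintype _ _ (fun _ => rfl), Fin.sum_univ_two] at h1
    exact h1
  rw [Finset.mem_image]
  refine ⟨(m 0, m 1), ?_, ?_⟩
  · have h3 : m 0 ≤ 2 := by omega
    have h4 : m 1 ≤ 2 := by omega
    unfold T0
    generalize m 0 = i at *
    generalize m 1 = j at *
    interval_cases i <;> interval_cases j <;> first | omega | decide
  · ext i
    fin_cases i
    · exact ex_zero _
    · exact ex_one _

theorem eval_qf (f : MvPolynomial (Fin 2) (ZMod p)) (hf : f.totalDegree ≤ 2) :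
    ∃ a b c d e g : ZMod p, (∀ q : ZMod p × ZMod p, MvPolynomial.eval ![q.1, q.2] f =
      qf a b c d e g q) ∧ (f ≠ 0 → ¬ (a = 0 ∧ b = 0 ∧ c = 0 ∧ d = 0 ∧ e = 0 ∧ g = 0)) := by
  classical
  refine ⟨f.coeff (ex (2, 0)), f.coeff (ex (1, 1)), f.coeff (ex (0, 2)), f.coeff (ex (1, 0)),
    f.coeff (ex (0, 1)), f.coeff (ex (0, 0)), ?_, ?_⟩
  · intro q
    rw [MvPolynomial.eval_eq', Finset.sum_subset (supp_T0 f hf)
      (fun m _ hm => by rw [MvPolynomial.notMem_support_iff.1 hm, zero_mul]),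
      Finset.sum_image (fun x _ y _ h => ex_inj h)]
    have h1 : ∀ ij : ℕ × ℕ, f.coeff (ex ij) * ∏ i, (![q.1, q.2] : Fin 2 → ZMod p) i ^ (ex ij) i =
        f.coeff (ex ij) * (q.1 ^ ij.1 * q.2 ^ ij.2) := by
      intro ij
      rw [Fin.prod_univ_two]
      rfl
    rw [Finset.sum_congr rfl (fun ij _ => h1 ij)]
    unfold T0 qf
    rw [Finset.sum_insert (by decide), Finset.sum_insert (by decide),
      Finset.sum_insert (by decide), Finset.sum_insert (by decide), Finset.sum_insert (by decide),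
      Finset.sum_singleton]
    ring
  · rintro hf0 ⟨h1, h2, h3, h4, h5, h6⟩
    apply hf0
    rw [← MvPolynomial.support_eq_empty, Finset.eq_empty_iff_forall_notMem]
    intro m hm
    obtain ⟨ij, hij, rfl⟩ := Finset.mem_image.1 (supp_T0 f hf hm)
    rw [MvPolynomial.mem_support_iff] at hm
    apply hm
    unfold T0 at hij
    simp only [Finset.mem_insert, Finset.mem_singleton] at hij
    rcases hij with rfl | rfl | rfl | rfl | rfl | rfl
    · exact h6
    · exact h4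
    · exact h5
    · exact h1
    · exact h2
    · exact h3

/-- one conic -/
theorem one_conic : ∃ N : ℕ, ∀ p : ℕ, p.Prime → N ≤ p →
    ∀ A : Finset (ZMod p × ZMod p),
      (∀ a b c : ZMod p, (a, b) ≠ (0, 0) →
        (A.filter (fun q => a * q.1 + b * q.2 = c)).card ≤ 2) →
      ∀ f : MvPolynomial (Fin 2) (ZMod p), f ≠ 0 → f.totalDegree ≤ 2 →
        ((A.filter (fun q => MvPolynomial.eval ![q.1, q.2] f = 0)).card : ℝ) ≤
          (p : ℝ) ^ (1 - 1 / 30000 : ℝ) ∨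
        ((A.filter (fun q => MvPolynomial.eval ![q.1, q.2] f ≠ 0)).card : ℝ) ≤
          (p : ℝ) ^ (1 - 1 / 30000 : ℝ) := by
  have h1 : Filter.Tendsto (fun n : ℕ => (n : ℝ) ^ (1 / 60000 : ℝ)) Filter.atTop Filter.atTop :=
    (tendsto_rpow_atTop (by norm_num)).comp tendsto_natCast_atTop_atTop
  obtain ⟨N, hN⟩ := Filter.eventually_atTop.1 (h1.eventually_ge_atTop 4)
  refine ⟨N, fun p hp hNp A hA f hf0 hf => ?_⟩
  have : Fact p.Prime := ⟨hp⟩
  have h4 := hN p hNp
  by_contra hcon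
  push Not at hcon
  obtain ⟨hc1, hc2⟩ := hcon
  obtain ⟨a, b, c, d, e, g, hev, hne⟩ := eval_qf f hf
  have hp1 : (1 : ℝ) ≤ p := by exact_mod_cast hp.one_lt.le
  have hp0 : (0 : ℝ) < p := by linarith
  have hθ : (p : ℝ) ^ (1 / 60000 : ℝ) ≤ (p : ℝ) ^ (1 / 20000 : ℝ) :=
    Real.rpow_le_rpow_of_exponent_le hp1 (by norm_num)
  have hK : (2 : ℝ) ≤ (p : ℝ) ^ (1 / 20000 : ℝ) := by linarith
  have hKp : ((p : ℝ) ^ (1 / 20000 : ℝ)) ^ 20000 ≤ (p : ℝ) := by
    rw [← Real.rpow_natCast, ← Real.rpow_mul hp0.le]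
    have : (1 / 20000 : ℝ) * ((20000 : ℕ) : ℝ) = 1 := by norm_num
    rw [this, Real.rpow_one]
  have hprod : (p : ℝ) ^ (1 / 20000 : ℝ) * (p : ℝ) ^ (1 - 1 / 30000 : ℝ) =
      (p : ℝ) ^ (1 / 60000 : ℝ) * p := by
    rw [← Real.rpow_add hp0]
    have : (1 / 20000 : ℝ) + (1 - 1 / 30000) = 1 / 60000 + 1 := by norm_num
    rw [this, Real.rpow_add hp0, Real.rpow_one]
  have hKle : (p : ℝ) ^ (1 / 20000 : ℝ) ≤ p := by
    calc (p : ℝ) ^ (1 / 20000 : ℝ) ≤ (p : ℝ) ^ (1 : ℝ) :=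
          Real.rpow_le_rpow_of_exponent_le hp1 (by norm_num)
      _ = p := Real.rpow_one _
  have h4p : 4 * (p : ℝ) ≤ (p : ℝ) ^ (1 / 60000 : ℝ) * p := mul_le_mul_of_nonneg_right h4 hp0.le
  have hK0 : (0 : ℝ) ≤ (p : ℝ) ^ (1 / 20000 : ℝ) := by linarith
  have hcongr1 : (A.filter fun q => MvPolynomial.eval ![q.1, q.2] f = 0) =
      A.filter fun q => qf a b c d e g q = 0 := by
    apply Finset.filter_congr
    intro q _
    rw [hev q]
  have hcongr2 : (A.filter fun q => MvPolynomial.eval ![q.1, q.2] f ≠ 0) =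
      A.filter fun q => qf a b c d e g q ≠ 0 := by
    apply Finset.filter_congr
    intro q _
    rw [hev q]
  rw [hcongr1] at hc1
  rw [hcongr2] at hc2
  refine no_conic A hA a b c d e g (hne hf0) ((p : ℝ) ^ (1 / 20000 : ℝ)) hK hKp ?_ ?_
  · have e1 := mul_le_mul_of_nonneg_left hc1.le hK0
    rw [hprod] at e1
    have e2 : (p : ℝ) ^ (1 / 20000 : ℝ) *
        (((A.filter fun q => qf a b c d e g q = 0).card : ℝ) - 2) =
        (p : ℝ) ^ (1 / 20000 : ℝ) * ((A.filter fun q => qf a b c d e g q = 0).card : ℝ) -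
          2 * (p : ℝ) ^ (1 / 20000 : ℝ) := by ring
    rw [e2]
    linarith
  · have e1 := mul_le_mul_of_nonneg_left hc2.le hK0
    rw [hprod] at e1
    linarith

end Pool.Agent.Lib.MP_8dbdcc_co
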