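import Pool.Agent.Lib.MP_8dbdcc_co.Conic

set_option autoImplicit false
set_option linter.unusedSectionVars false

/-!
# Arcs and conics in coordinates
-/

namespace Pool.Agent.Lib.MP_8dbdcc_co

open Finset OnePoint
open scoped Pointwise

variable {p : ℕ} [Fact p.Prime]

/-- at most two points on every line -/
def Arc (A : Finset (ZMod p × ZMod p)) : Prop :=
  ∀ a b c : ZMod p, (a, b) ≠ (0, 0) → (A.filter (fun q => a * q.1 + b * q.2 = c)).card ≤ 2

theorem arc_card {A : Finset (ZMod p × ZMod p)} (h : Arc A) : A.card ≤ 2 * p := by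
  classical
  have h1 : A.card = ∑ c : ZMod p, (A.filter fun q => q.1 = c).card :=
    Finset.card_eq_sum_card_fiberwise (f := fun q : ZMod p × ZMod p => q.1)
      (t := (Finset.univ : Finset (ZMod p))) (fun _ _ => Finset.mem_coe.2 (Finset.mem_univ _))
  rw [h1]
  calc ∑ c : ZMod p, (A.filter fun q => q.1 = c).card ≤ ∑ _c : ZMod p, 2 := by
        apply Finset.sum_le_sum
        intro c _
        refine le_trans (Finset.card_le_card ?_) (h 1 0 c (by simp))
        intro q hq
        rw [Finset.mem_filter] at hq ⊢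
        refine ⟨hq.1, ?_⟩
        rw [hq.2]
        ring
    _ = 2 * p := by
        rw [Finset.sum_const, smul_eq_mul, mul_comm, Finset.card_univ, ZMod.card]

theorem arc_det {A : Finset (ZMod p × ZMod p)} (h : Arc A) {s0 s1 s2 : ZMod p × ZMod p}
    (h0 : s0 ∈ A) (h1 : s1 ∈ A) (h2 : s2 ∈ A) (h01 : s0 ≠ s1) (h02 : s0 ≠ s2) (h12 : s1 ≠ s2) :
    (s1.1 - s0.1) * (s2.2 - s0.2) - (s2.1 - s0.1) * (s1.2 - s0.2) ≠ 0 := by
  classical
  intro hd
  have hne : (s1.2 - s0.2, -(s1.1 - s0.1)) ≠ ((0 : ZMod p), (0 : ZMod p)) := by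
    intro h3
    rw [Prod.mk.injEq] at h3
    apply h01
    refine Prod.ext ?_ ?_
    · linear_combination h3.2
    · linear_combination -h3.1
  have h3 := h _ _ ((s1.2 - s0.2) * s0.1 + -(s1.1 - s0.1) * s0.2) hne
  have hsub : ({s0, s1, s2} : Finset (ZMod p × ZMod p)) ⊆ A.filter fun q =>
      (s1.2 - s0.2) * q.1 + -(s1.1 - s0.1) * q.2 =
        (s1.2 - s0.2) * s0.1 + -(s1.1 - s0.1) * s0.2 := by
    intro x hx
    rw [Finset.mem_insert, Finset.mem_insert, Finset.mem_singleton] at hx
    rw [Finset.mem_filter]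
    rcases hx with rfl | rfl | rfl
    · exact ⟨h0, rfl⟩
    · refine ⟨h1, ?_⟩
      ring
    · refine ⟨h2, ?_⟩
      linear_combination -hd
  have hcard : ({s0, s1, s2} : Finset (ZMod p × ZMod p)).card = 3 :=
    Finset.card_eq_three.2 ⟨s0, s1, s2, h01, h02, h12, rfl⟩
  have := (Finset.card_le_card hsub).trans h3
  omega

/-- barycentric coordinates -/
theorem bary (x0 y0 x1 y1 x2 y2 : ZMod p)
    (hd : (x1 - x0) * (y2 - y0) - (x2 - x0) * (y1 - y0) ≠ 0) :
    ∃ u v w : ZMod p × ZMod p → ZMod p,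
      (∀ q, u q + v q + w q = 1) ∧
      (∀ q, u q * x0 + v q * x1 + w q * x2 = q.1) ∧
      (∀ q, u q * y0 + v q * y1 + w q * y2 = q.2) ∧
      ∀ A : Finset (ZMod p × ZMod p), Arc A → ∀ l m n : ZMod p, (l ≠ 0 ∨ m ≠ 0 ∨ n ≠ 0) →
        (A.filter fun q => l * u q + m * v q + n * w q = 0).card ≤ 2 := by
  classical
  set Δ := (x1 - x0) * (y2 - y0) - (x2 - x0) * (y1 - y0) with hΔ
  refine ⟨fun q => ((x1 * y2 - y1 * x2) + (y1 - y2) * q.1 + (x2 - x1) * q.2) / Δ,
    fun q => ((x2 * y0 - y2 * x0) + (y2 - y0) * q.1 + (x0 - x2) * q.2) / Δ,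
    fun q => ((x0 * y1 - y0 * x1) + (y0 - y1) * q.1 + (x1 - x0) * q.2) / Δ, ?_, ?_, ?_, ?_⟩
  · intro q
    change _ / Δ + _ / Δ + _ / Δ = 1
    rw [← add_div, ← add_div, div_eq_one_iff_eq hd, hΔ]
    ring
  · intro q
    change _ / Δ * x0 + _ / Δ * x1 + _ / Δ * x2 = q.1
    rw [div_mul_eq_mul_div, div_mul_eq_mul_div, div_mul_eq_mul_div, ← add_div, ← add_div,
      div_eq_iff hd, hΔ]
    ring
  · intro q
    change _ / Δ * y0 + _ / Δ * y1 + _ / Δ * y2 = q.2
    rw [div_mul_eq_mul_div, div_mul_eq_mul_div, div_mul_eq_mul_div, ← add_div, ← add_div,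
      div_eq_iff hd, hΔ]
    ring
  · intro A hA l m n hne
    set a := l * (y1 - y2) + m * (y2 - y0) + n * (y0 - y1) with ha
    set b := l * (x2 - x1) + m * (x0 - x2) + n * (x1 - x0) with hb
    set c := l * (x1 * y2 - y1 * x2) + m * (x2 * y0 - y2 * x0) + n * (x0 * y1 - y0 * x1) with hc
    have hsub : (A.filter fun q : ZMod p × ZMod p =>
        l * (((x1 * y2 - y1 * x2) + (y1 - y2) * q.1 + (x2 - x1) * q.2) / Δ) +
        m * (((x2 * y0 - y2 * x0) + (y2 - y0) * q.1 + (x0 - x2) * q.2) / Δ) +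
        n * (((x0 * y1 - y0 * x1) + (y0 - y1) * q.1 + (x1 - x0) * q.2) / Δ) = 0) ⊆
        A.filter fun q => a * q.1 + b * q.2 = -c := by
      intro q hq
      rw [Finset.mem_filter] at hq ⊢
      refine ⟨hq.1, ?_⟩
      have h1 := hq.2
      rw [mul_div_assoc', mul_div_assoc', mul_div_assoc', ← add_div, ← add_div,
        div_eq_zero_iff] at h1
      rcases h1 with h1 | h1
      · rw [ha, hb, hc]
        linear_combination h1
      · exact absurd h1 hd
    by_cases hab : (a, b) = (0, 0)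
    · rw [Prod.mk.injEq] at hab
      have h0 : c = Δ * l := by
        have e1 : a * x0 + b * y0 + c = Δ * l := by
          rw [ha, hb, hc, hΔ]
          ring
        rw [hab.1, hab.2] at e1
        linear_combination e1
      have h1 : c = Δ * m := by
        have e1 : a * x1 + b * y1 + c = Δ * m := by
          rw [ha, hb, hc, hΔ]
          ring
        rw [hab.1, hab.2] at e1
        linear_combination e1
      have h2 : c = Δ * n := by
        have e1 : a * x2 + b * y2 + c = Δ * n := by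
          rw [ha, hb, hc, hΔ]
          ring
        rw [hab.1, hab.2] at e1
        linear_combination e1
      have hc0 : c ≠ 0 := by
        rcases hne with h | h | h
        · rw [h0]; exact mul_ne_zero hd h
        · rw [h1]; exact mul_ne_zero hd h
        · rw [h2]; exact mul_ne_zero hd h
      have h3 : (A.filter fun q => a * q.1 + b * q.2 = -c) = ∅ := by
        rw [Finset.filter_eq_empty_iff]
        intro q _ h4
        rw [hab.1, hab.2] at h4
        apply hc0
        linear_combination h4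
      refine (Finset.card_le_card hsub).trans ?_
      rw [h3, Finset.card_empty]
      exact Nat.zero_le _
    · exact (Finset.card_le_card hsub).trans (hA a b (-c) hab)

/-- a quadratic polynomial in coordinates -/
def qf (a b c d e g : ZMod p) (q : ZMod p × ZMod p) : ZMod p :=
  a * q.1 ^ 2 + b * (q.1 * q.2) + c * q.2 ^ 2 + d * q.1 + e * q.2 + g

theorem no_conic (A : Finset (ZMod p × ZMod p)) (hA : Arc A) (a b c d e g : ZMod p)
    (hne : ¬ (a = 0 ∧ b = 0 ∧ c = 0 ∧ d = 0 ∧ e = 0 ∧ g = 0))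
    (K : ℝ) (hK : 2 ≤ K) (hp : K ^ 20000 ≤ (p : ℝ))
    (hs : (p : ℝ) + 1 ≤ K * (((A.filter fun q => qf a b c d e g q = 0).card : ℝ) - 2))
    (hb : 2 * ((p : ℝ) + 1) ≤ K * (A.filter fun q => qf a b c d e g q ≠ 0).card) : False := by
  classical
  have hK0 : 0 < K := by linarith
  set C := A.filter fun q => qf a b c d e g q = 0 with hC
  have hAC : A \ C = A.filter fun q => qf a b c d e g q ≠ 0 := by
    rw [hC]
    exact (Finset.filter_not (fun q => qf a b c d e g q = 0) A).symm
  -- `p` is odd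
  have hp2 : (2 : ZMod p) ≠ 0 := by
    intro h5
    have h6 : p ∣ 2 := by
      rw [← ZMod.natCast_eq_zero_iff]
      exact_mod_cast h5
    have h7 : p ≤ 2 := Nat.le_of_dvd (by norm_num) h6
    have h8 : (p : ℝ) ≤ 2 := by exact_mod_cast h7
    have h9 : K ^ 2 ≤ K ^ 20000 := pow_le_pow_right₀ (by linarith) (by norm_num)
    nlinarith
  have hC5 : 4 < C.card := by
    by_contra hcon
    push Not at hcon
    have h1 : (C.card : ℝ) ≤ 4 := by exact_mod_cast hcon
    have h2 : K * ((C.card : ℝ) - 2) ≤ K * 2 := mul_le_mul_of_nonneg_left (by linarith) hK0.le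
    have h9 : K ^ 2 ≤ K ^ 20000 := pow_le_pow_right₀ (by linarith) (by norm_num)
    nlinarith
  obtain ⟨s0, hs0, s1, hs1, s2, hs2, h01, h02, h12⟩ := Finset.two_lt_card.1 (by omega : 2 < C.card)
  have hs0' := Finset.mem_filter.1 hs0
  have hs1' := Finset.mem_filter.1 hs1
  have hs2' := Finset.mem_filter.1 hs2
  have hdet := arc_det hA hs0'.1 hs1'.1 hs2'.1 h01 h02 h12
  obtain ⟨u, v, w, huvw, hx, hy, hlin⟩ := bary s0.1 s0.2 s1.1 s1.2 s2.1 s2.2 hdet
  have hlin' := hlin A hA
  obtain ⟨x0, y0⟩ := s0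
  obtain ⟨x1, y1⟩ := s1
  obtain ⟨x2, y2⟩ := s2
  simp only at hx hy
  obtain ⟨γ, hγ⟩ : ∃ γ, γ = 2 * a * x0 * x1 + b * (x0 * y1 + x1 * y0) + 2 * c * y0 * y1 +
    d * (x0 + x1) + e * (y0 + y1) + 2 * g := ⟨_, rfl⟩
  obtain ⟨β, hβ⟩ : ∃ β, β = 2 * a * x0 * x2 + b * (x0 * y2 + x2 * y0) + 2 * c * y0 * y2 +
    d * (x0 + x2) + e * (y0 + y2) + 2 * g := ⟨_, rfl⟩
  obtain ⟨α, hα⟩ : ∃ α, α = 2 * a * x1 * x2 + b * (x1 * y2 + x2 * y1) + 2 * c * y1 * y2 +
    d * (x1 + x2) + e * (y1 + y2) + 2 * g := ⟨_, rfl⟩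
  have hf : ∀ q, qf a b c d e g q = γ * (u q * v q) + β * (u q * w q) + α * (v q * w q) := by
    intro q
    have e0 := hs0'.2
    have e1 := hs1'.2
    have e2 := hs2'.2
    unfold qf at e0 e1 e2 ⊢
    simp only at e0 e1 e2
    have e3 := huvw q
    have e4 : u q = 1 - v q - w q := by linear_combination e3
    rw [← hx q, ← hy q, hγ, hβ, hα, e4]
    linear_combination (1 - v q - w q) ^ 2 * e0 + v q ^ 2 * e1 + w q ^ 2 * e2
  -- the degenerate cases
  have hdeg : ∀ l m n l' m' n' : ZMod p, (l ≠ 0 ∨ m ≠ 0 ∨ n ≠ 0) → (l' ≠ 0 ∨ m' ≠ 0 ∨ n' ≠ 0) →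
      (∀ q, qf a b c d e g q = (l * u q + m * v q + n * w q) * (l' * u q + m' * v q + n' * w q)) →
      False := by
    intro l m n l' m' n' h1 h2 h3
    have h4 : C ⊆ (A.filter fun q => l * u q + m * v q + n * w q = 0) ∪
        (A.filter fun q => l' * u q + m' * v q + n' * w q = 0) := by
      intro q hq
      rw [hC, Finset.mem_filter, h3 q] at hq
      rw [Finset.mem_union, Finset.mem_filter, Finset.mem_filter]
      rcases mul_eq_zero.1 hq.2 with h | h
      · exact Or.inl ⟨hq.1, h⟩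
      · exact Or.inr ⟨hq.1, h⟩
    have h5 := (Finset.card_le_card h4).trans (Finset.card_union_le _ _)
    have h6 := hlin' l m n h1
    have h7 := hlin' l' m' n' h2
    omega
  have hnz : ¬ (α = 0 ∧ β = 0 ∧ γ = 0) := by
    rintro ⟨h1, h2, h3⟩
    have h4 : ∀ q, qf a b c d e g q = 0 := by
      intro q
      rw [hf q, h1, h2, h3]
      ring
    apply hne
    have z1 := h4 (0, 0)
    have z2 := h4 (1, 0)
    have z3 := h4 (-1, 0)
    have z4 := h4 (0, 1)
    have z5 := h4 (0, -1)
    have z6 := h4 (1, 1)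
    unfold qf at z1 z2 z3 z4 z5 z6
    simp only at z1 z2 z3 z4 z5 z6
    have g0 : g = 0 := by linear_combination z1
    have a0 : a = 0 := by
      apply mul_left_cancel₀ hp2
      linear_combination z2 + z3 - 2 * g0
    have d0 : d = 0 := by linear_combination z2 - a0 - g0
    have c0 : c = 0 := by
      apply mul_left_cancel₀ hp2
      linear_combination z4 + z5 - 2 * g0
    have e0 : e = 0 := by linear_combination z4 - c0 - g0
    have b0 : b = 0 := by linear_combination z6 - a0 - c0 - d0 - e0 - g0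
    exact ⟨a0, b0, c0, d0, e0, g0⟩
  have hα0 : α ≠ 0 := by
    intro h
    refine hdeg 1 0 0 0 γ β (Or.inl one_ne_zero) ?_ ?_
    · by_contra hcon
      push Not at hcon
      exact hnz ⟨h, hcon.2.2, hcon.2.1⟩
    · intro q
      rw [hf q, h]
      ring
  have hβ0 : β ≠ 0 := by
    intro h
    refine hdeg 0 1 0 γ 0 α (Or.inr (Or.inl one_ne_zero)) ?_ ?_
    · by_contra hcon
      push Not at hcon
      exact hnz ⟨hcon.2.2, h, hcon.1⟩
    · intro q
      rw [hf q, h]
      ring
  have hγ0 : γ ≠ 0 := by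
    intro h
    refine hdeg 0 0 1 β α 0 (Or.inr (Or.inr one_ne_zero)) ?_ ?_
    · by_contra hcon
      push Not at hcon
      exact hnz ⟨hcon.2.1, hcon.1, h⟩
    · intro q
      rw [hf q, h]
      ring
  have hdisc : ∀ q, (-(w q) / γ - v q / β) * (-(w q) / γ - u q / α) - (-(w q) / γ) ^ 2 =
      qf a b c d e g q / (α * β * γ) := by
    intro q
    rw [hf q]
    field_simp
    ring
  refine no_abstract A C (Finset.filter_subset _ _)
    (fun q => (-(w q) / γ - v q / β, -(w q) / γ, -(w q) / γ - u q / α)) ?_ ?_ ?_ ?_ K hK hp hs ?_ ?_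
  · intro l m n h
    have h1 : (n / α ≠ 0 ∨ l / β ≠ 0 ∨ (l + m + n) / γ ≠ 0) := by
      by_contra hcon
      push Not at hcon
      obtain ⟨h2, h3, h4⟩ := hcon
      have h5 : n = 0 := by
        rcases div_eq_zero_iff.1 h2 with h | h
        · exact h
        · exact absurd h hα0
      have h6 : l = 0 := by
        rcases div_eq_zero_iff.1 h3 with h | h
        · exact h
        · exact absurd h hβ0
      have h7 : m = 0 := by
        rcases div_eq_zero_iff.1 h4 with h | h
        · rw [h5, h6] at h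
          linear_combination h
        · exact absurd h hγ0
      rcases h with h | h | h
      · exact h h6
      · exact h h7
      · exact h h5
    refine le_trans (Finset.card_le_card ?_) (hlin' _ _ _ h1)
    intro q hq
    rw [Finset.mem_filter] at hq ⊢
    refine ⟨hq.1, ?_⟩
    have h2 : l * (-(w q) / γ - v q / β) + m * (-(w q) / γ) + n * (-(w q) / γ - u q / α) = 0 :=
      hq.2
    have h3 : n / α * u q + l / β * v q + (l + m + n) / γ * w q =
        -(l * (-(w q) / γ - v q / β) + m * (-(w q) / γ) + n * (-(w q) / γ - u q / α)) := by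
      field_simp
      ring
    rw [h3, h2, neg_zero]
  · intro q q' r h1 h2 h3
    simp only at h1 h2 h3
    have hw : w q' = r * w q := by
      field_simp at h2
      linear_combination -h2
    have hv : v q' = r * v q := by
      have h4 : v q' / β = r * (v q / β) := by linear_combination h2 - h1
      field_simp at h4
      exact h4
    have hu : u q' = r * u q := by
      have h4 : u q' / α = r * (u q / α) := by linear_combination h2 - h3
      field_simp at h4
      exact h4
    have hr : r = 1 := by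
      have e1 := huvw q
      have e2 := huvw q'
      rw [hu, hv, hw] at e2
      linear_combination e2 - r * e1
    refine Prod.ext ?_ ?_
    · rw [← hx q, ← hx q', hu, hv, hw, hr]
      ring
    · rw [← hy q, ← hy q', hu, hv, hw, hr]
      ring
  · intro q hq
    rw [hC, Finset.mem_filter] at hq
    change (-(w q) / γ - v q / β) * (-(w q) / γ - u q / α) - (-(w q) / γ) ^ 2 = 0
    rw [hdisc q, hq.2, zero_div]
  · intro q hq
    rw [hAC, Finset.mem_filter] at hq
    change (-(w q) / γ - v q / β) * (-(w q) / γ - u q / α) - (-(w q) / γ) ^ 2 ≠ 0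
    rw [hdisc q]
    exact div_ne_zero hq.2 (mul_ne_zero (mul_ne_zero hα0 hβ0) hγ0)
  · rw [hAC]
    exact hb
  · have h1 : (A \ C).card ≤ 2 * p := (Finset.card_le_card Finset.sdiff_subset).trans (arc_card hA)
    have h2 : ((A \ C).card : ℝ) ≤ 2 * (p : ℝ) := by exact_mod_cast h1
    linarith

end Pool.Agent.Lib.MP_8dbdcc_co
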