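import Pool.Agent.Lib.MP_8dbdcc_co.NoConfig

set_option autoImplicit false
set_option linter.unusedSectionVars false

/-!
# The model: triples and parameters
-/

namespace Pool.Agent.Lib.MP_8dbdcc_co

open Finset OnePoint
open scoped Pointwise

variable {p : ℕ} [Fact p.Prime]

/-- triples -/
abbrev Tr (p : ℕ) := ZMod p × ZMod p × ZMod p

/-- the group element of a triple of discriminant `D` -/
noncomputable def el (D : ZMod p) (R : Tr p) : SL2 p :=
  if h : (R.2.1 / D) * (-R.2.1) - (-R.2.2) * (R.1 / D) = 1 then
    mk2 (R.2.1 / D) (-R.2.2) (R.1 / D) (-R.2.1) h else 1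

theorem el_eq {D : ZMod p} (hD : D ≠ 0) {R : Tr p} (hR : R.1 * R.2.2 - R.2.1 ^ 2 = D) :
    el D R 0 0 = R.2.1 / D ∧ el D R 0 1 = -R.2.2 ∧ el D R 1 0 = R.1 / D ∧
      el D R 1 1 = -R.2.1 := by
  have h : (R.2.1 / D) * (-R.2.1) - (-R.2.2) * (R.1 / D) = 1 := by
    field_simp
    linear_combination hR
  unfold el
  rw [dif_pos h]
  exact ⟨rfl, rfl, rfl, rfl⟩

theorem el_inj {D : ZMod p} (hD : D ≠ 0) {R R' : Tr p} (hR : R.1 * R.2.2 - R.2.1 ^ 2 = D)
    (hR' : R'.1 * R'.2.2 - R'.2.1 ^ 2 = D) (h : el D R = el D R') : R = R' := by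
  obtain ⟨a1, a2, a3, a4⟩ := el_eq hD hR
  obtain ⟨b1, b2, b3, b4⟩ := el_eq hD hR'
  rw [h] at a2 a3 a4
  have h1 : R.2.1 = R'.2.1 := by
    rw [a4] at b4
    exact neg_injective b4
  have h2 : R.2.2 = R'.2.2 := by
    rw [a2] at b2
    exact neg_injective b2
  have h3 : R.1 = R'.1 := by
    rw [a3] at b3
    field_simp at b3
    exact b3
  exact Prod.ext h3 (Prod.ext h1 h2)

/-- there is no dense configuration in the model -/
theorem no_model (D : ZMod p) (hD : D ≠ 0) (B : Finset (Tr p)) (S : Finset (ZMod p)) (K : ℝ)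
    (hK : 2 ≤ K) (hp : K ^ 20000 ≤ (p : ℝ)) (hs : (p : ℝ) + 1 ≤ K * S.card)
    (hb : (p : ℝ) + 1 ≤ K * B.card) (hb2 : (B.card : ℝ) ≤ 2 * ((p : ℝ) + 1))
    (hdet : ∀ R ∈ B, R.1 * R.2.2 - R.2.1 ^ 2 = D) (h0 : ∀ R ∈ B, -R ∉ B)
    (h1 : ∀ R ∈ B, ∀ z ∈ S, ∀ w ∈ S, z ≠ w → R.1 * z * w - R.2.1 * (z + w) + R.2.2 ≠ 0)
    (h2 : ∀ α β γ : ZMod p, (α ≠ 0 ∨ β ≠ 0 ∨ γ ≠ 0) →
      (B.filter fun R => α * R.1 + β * R.2.1 + γ * R.2.2 = 0).card ≤ 2) : False := by
  classical
  have hinj : Set.InjOn (el D) (B : Set (Tr p)) := by
    intro R hR R' hR' h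
    exact el_inj hD (hdet R hR) (hdet R' hR') h
  have hAc : (B.image (el D)).card = B.card := Finset.card_image_of_injOn hinj
  have hcoe : Function.Injective (fun z : ZMod p => (z : P1 p)) := OnePoint.coe_injective
  have hmulD : Function.Injective (fun z : ZMod p => ((D * z : ZMod p) : P1 p)) := by
    intro z w h
    exact mul_left_cancel₀ hD (OnePoint.coe_injective h)
  have hSc : (S.image fun z : ZMod p => ((D * z : ZMod p) : P1 p)).card = S.card :=
    Finset.card_image_of_injective _ hmulD
  have hSc' : (S.image fun z : ZMod p => (z : P1 p)).card = S.card :=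
    Finset.card_image_of_injective _ hcoe
  refine no_config (B.image (el D)) (S.image fun z : ZMod p => ((D * z : ZMod p) : P1 p))
    (S.image fun z : ZMod p => (z : P1 p)) K hK hp (by rw [hSc]; exact hs) (by rw [hAc]; exact hb)
    (by rw [hAc]; exact hb2) (by rw [hSc, hSc']) ?_ ?_ ?_
  · -- few incidences
    intro a ha
    obtain ⟨R, hR, rfl⟩ := Finset.mem_image.1 ha
    obtain ⟨a1, a2, a3, a4⟩ := el_eq hD (hdet R hR)
    have hsub : ((S.image fun z : ZMod p => ((D * z : ZMod p) : P1 p)).filter
        fun x => el D R • x ∈ S.image fun z : ZMod p => (z : P1 p)) ⊆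
        (Finset.univ.filter fun c : ZMod p => R.1 * c ^ 2 + (-2 * R.2.1) * c + R.2.2 = 0).image
          (fun z : ZMod p => ((D * z : ZMod p) : P1 p)) := by
      intro x hx
      rw [Finset.mem_filter] at hx
      obtain ⟨hx1, hx2⟩ := hx
      obtain ⟨z, hz, rfl⟩ := Finset.mem_image.1 hx1
      obtain ⟨w, hw, hw2⟩ := Finset.mem_image.1 hx2
      rw [Finset.mem_image]
      refine ⟨z, ?_, rfl⟩
      rw [Finset.mem_filter]
      refine ⟨Finset.mem_univ _, ?_⟩
      have h3 := (rel_fin (el D R) (D * z) w).1 hw2.symm
      rw [a1, a2, a3, a4] at h3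
      have h4 : R.1 * z * w - R.2.1 * (z + w) + R.2.2 = 0 := by
        field_simp at h3
        linear_combination -h3
      by_cases hzw : z = w
      · subst hzw
        linear_combination h4
      · exact absurd h4 (h1 R hR z hz w hw hzw)
    refine (Finset.card_le_card hsub).trans (Finset.card_image_le.trans (quad_card _ _ _ ?_))
    rintro ⟨e1, e2, e3⟩
    have := hdet R hR
    rw [e1, e3] at this
    have h4 : R.2.1 ≠ 0 := by
      intro h5
      rw [h5] at this
      apply hD
      rw [← this]
      ring
    have h5 : (2 : ZMod p) = 0 := by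
      rcases mul_eq_zero.1 e2 with h | h
      · linear_combination -h
      · exact absurd h h4
    -- `p = 2` is impossible
    have h6 : p ∣ 2 := by
      rw [← ZMod.natCast_eq_zero_iff]
      exact_mod_cast h5
    have h7 : p ≤ 2 := Nat.le_of_dvd (by norm_num) h6
    have h8 : (p : ℝ) ≤ 2 := by exact_mod_cast h7
    have h9 : K ^ 2 ≤ K ^ 20000 := pow_le_pow_right₀ (by linarith) (by norm_num)
    nlinarith
  · -- few representations
    intro g
    have hsub : ((B.image (el D)).offDiag.filter fun q => quo q = g) ⊆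
        ((B.image (el D)).filter fun a => a * g ∈ B.image (el D) ∧ a * g ≠ a).image
          (fun a => (a * g, a)) := by
      rintro ⟨a, a'⟩ hq
      rw [Finset.mem_filter, Finset.mem_offDiag] at hq
      obtain ⟨⟨ha, ha', hne⟩, hg⟩ := hq
      have h3 : a' * g = a := by
        rw [← hg]
        unfold quo
        rw [mul_inv_cancel_left]
      rw [Finset.mem_image]
      refine ⟨a', ?_, by rw [h3]⟩
      rw [Finset.mem_filter, h3]
      exact ⟨ha', ha, hne⟩
    refine (Finset.card_le_card hsub).trans (Finset.card_image_le.trans ?_)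
    by_cases hg : Sc g
    · rcases sc_cases hg with rfl | rfl
      · rw [Finset.card_eq_zero.2]
        · norm_num
        · rw [Finset.filter_eq_empty_iff]
          rintro a _ ⟨_, h⟩
          exact h (mul_one a)
      · rw [Finset.card_eq_zero.2]
        · norm_num
        · rw [Finset.filter_eq_empty_iff]
          rintro a ha ⟨h3, _⟩
          obtain ⟨R, hR, rfl⟩ := Finset.mem_image.1 ha
          obtain ⟨R', hR', h4⟩ := Finset.mem_image.1 h3
          obtain ⟨a1, a2, a3, a4⟩ := el_eq hD (hdet R hR)
          obtain ⟨b1, b2, b3, b4⟩ := el_eq hD (hdet R' hR')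
          rw [h4] at b1 b2 b3 b4
          rw [mul00, mk2_00, mk2_10, a1] at b1
          rw [mul01, mk2_01, mk2_11, a2] at b2
          rw [mul10, mk2_00, mk2_10, a3] at b3
          apply h0 R hR
          have h5 : -R = R' := by
            refine Prod.ext ?_ (Prod.ext ?_ ?_)
            · change -R.1 = R'.1
              field_simp at b3
              linear_combination b3
            · change -R.2.1 = R'.2.1
              field_simp at b1
              linear_combination b1
            · change -R.2.2 = R'.2.2
              linear_combination -b2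
          rw [h5]
          exact hR'
    · have hsub2 : ((B.image (el D)).filter fun a => a * g ∈ B.image (el D) ∧ a * g ≠ a) ⊆
          (B.filter fun R => (g 0 1 / D) * R.1 + (g 0 0 - g 1 1) * R.2.1 +
            (- D * g 1 0) * R.2.2 = 0).image (el D) := by
        intro a ha
        rw [Finset.mem_filter] at ha
        obtain ⟨ha1, ha2, _⟩ := ha
        obtain ⟨R, hR, rfl⟩ := Finset.mem_image.1 ha1
        obtain ⟨R', hR', h4⟩ := Finset.mem_image.1 ha2
        obtain ⟨a1, a2, a3, a4⟩ := el_eq hD (hdet R hR)
        obtain ⟨b1, b2, b3, b4⟩ := el_eq hD (hdet R' hR')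
        rw [h4] at b1 b2 b3 b4
        rw [mul00, a1, a2] at b1
        rw [mul11, a3, a4] at b4
        rw [Finset.mem_image]
        refine ⟨R, ?_, rfl⟩
        rw [Finset.mem_filter]
        refine ⟨hR, ?_⟩
        have h5 : D * (R.2.1 / D * g 0 0 + -R.2.2 * g 1 0) = R'.2.1 := by
          rw [b1]
          field_simp
        have h6 : D * (R.2.1 / D * g 0 0 + -R.2.2 * g 1 0) = R.2.1 * g 0 0 - D * R.2.2 * g 1 0 := by
          field_simp
          ring
        rw [h6] at h5
        linear_combination h5 + b4
      refine (Finset.card_le_card hsub2).trans (Finset.card_image_le.trans (h2 _ _ _ ?_))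
      by_contra hcon
      push Not at hcon
      obtain ⟨e1, e2, e3⟩ := hcon
      apply hg
      refine ⟨?_, ?_, sub_eq_zero.1 e2⟩
      · rcases div_eq_zero_iff.1 e1 with h | h
        · exact h
        · exact absurd h hD
      · rcases mul_eq_zero.1 e3 with h | h
        · exact absurd (neg_eq_zero.1 h) hD
        · exact h
  · -- concentration
    intro w z
    have key : ∀ u : P1 p, ((B.image (el D)).filter fun a => a • z = u).card ≤ 2 := by
      intro u
      have hsub : ∀ α β γ : ZMod p, (α ≠ 0 ∨ β ≠ 0 ∨ γ ≠ 0) →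
          (∀ R ∈ B, el D R • z = u → α * R.1 + β * R.2.1 + γ * R.2.2 = 0) →
          ((B.image (el D)).filter fun a => a • z = u).card ≤ 2 := by
        intro α β γ h3 h4
        refine le_trans (Finset.card_le_card (t := (B.filter fun R =>
          α * R.1 + β * R.2.1 + γ * R.2.2 = 0).image (el D)) ?_)
          (Finset.card_image_le.trans (h2 α β γ h3))
        intro a ha
        rw [Finset.mem_filter] at ha
        obtain ⟨R, hR, rfl⟩ := Finset.mem_image.1 ha.1
        rw [Finset.mem_image]
        exact ⟨R, Finset.mem_filter.2 ⟨hR, h4 R hR ha.2⟩, rfl⟩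
      induction z using OnePoint.rec with
      | infty =>
        induction u using OnePoint.rec with
        | infty =>
          refine hsub 1 0 0 (Or.inl one_ne_zero) ?_
          intro R hR h
          obtain ⟨a1, a2, a3, a4⟩ := el_eq hD (hdet R hR)
          rw [rel_inf_inf, a3] at h
          rcases div_eq_zero_iff.1 h with h | h
          · linear_combination h
          · exact absurd h hD
        | coe u =>
          refine hsub (-u) 1 0 (Or.inr (Or.inl one_ne_zero)) ?_
          intro R hR h
          obtain ⟨a1, a2, a3, a4⟩ := el_eq hD (hdet R hR)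
          rw [rel_inf_fin, a1, a3] at h
          field_simp at h
          linear_combination h
      | coe z =>
        induction u using OnePoint.rec with
        | infty =>
          refine hsub z (-D) 0 (Or.inr (Or.inl (neg_ne_zero.2 hD))) ?_
          intro R hR h
          obtain ⟨a1, a2, a3, a4⟩ := el_eq hD (hdet R hR)
          rw [rel_fin_inf, a3, a4] at h
          field_simp at h
          linear_combination h
        | coe u =>
          refine hsub (-u * z) (z + D * u) (-D) (Or.inr (Or.inr (neg_ne_zero.2 hD))) ?_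
          intro R hR h
          obtain ⟨a1, a2, a3, a4⟩ := el_eq hD (hdet R hR)
          rw [rel_fin, a1, a2, a3, a4] at h
          field_simp at h
          linear_combination h
    have h3 : ((B.image (el D) ×ˢ B.image (el D)).filter fun q => quo q • w = z).card =
        ∑ a ∈ B.image (el D), ((B.image (el D)).filter fun a' => a' • z = a • w).card := by
      rw [Finset.card_filter, Finset.sum_product]
      apply Finset.sum_congr rfl
      intro a _
      rw [Finset.card_filter]
      apply Finset.sum_congr rfl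
      intro a' _
      congr 1
      unfold quo
      change ((a'⁻¹ * a) • w = z) = (a' • z = a • w)
      rw [mul_smul, inv_smul_eq_iff]
      exact propext ⟨fun h => h.symm, fun h => h.symm⟩
    rw [h3]
    calc ∑ a ∈ B.image (el D), ((B.image (el D)).filter fun a' => a' • z = a • w).card
        ≤ ∑ a ∈ B.image (el D), 2 := Finset.sum_le_sum fun a _ => key _
      _ = 2 * (B.image (el D)).card := by rw [Finset.sum_const, smul_eq_mul, mul_comm]

end Pool.Agent.Lib.MP_8dbdcc_co
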