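import Pool.Agent.Lib.MP_8dbdcc_co.Pivot2

set_option autoImplicit false
set_option linter.unusedSectionVars false

/-!
# The pivot argument: the case of a perfect matching
-/

namespace Pool.Agent.Lib.MP_8dbdcc_co

open Finset OnePoint
open scoped Pointwise

variable {p : ℕ} [Fact p.Prime]

/-- A fixed point free involution which commutes with many elements of all point stabilizers. -/
theorem matching_bound (S : Finset (SL2 p)) (P : P1 p → P1 p) (hPP : ∀ x, P (P x) = x)
    (hPne : ∀ x, P x ≠ x) (hPS : ∀ t ∈ S, ∀ x, P (t • x) = t • P x)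
    (hPinf : P ∞ = ((0 : ZMod p) : P1 p)) (T : ℝ) (hT4 : 4 ≤ T)
    (hT : ∀ x : P1 p, T ≤ ((S.filter fun t => t • x = x).card : ℝ)) :
    (T - 4) * T ≤ 8 * p := by
  classical
  have hP0 : P ((0 : ZMod p) : P1 p) = ∞ := by rw [← hPinf, hPP]
  have hfin : ∀ w : ZMod p, w ≠ 0 → ∃ q : ZMod p, q ≠ 0 ∧ P (w : P1 p) = (q : P1 p) := by
    intro w hw
    have h1 : P (w : P1 p) ≠ ∞ := by
      intro h
      have := hPP (w : P1 p)
      rw [h, hPinf, OnePoint.coe_eq_coe] at this
      exact hw this.symm
    obtain ⟨q, hq⟩ := OnePoint.ne_infty_iff_exists.1 h1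
    refine ⟨q, ?_, hq.symm⟩
    intro hq0
    have := hPP (w : P1 p)
    rw [← hq, hq0, hP0] at this
    exact OnePoint.infty_ne_coe w this
  choose! q hq0 hq using hfin
  set κ : ZMod p → ZMod p := fun w => q w / w with hκ
  set U : Finset (ZMod p) := Finset.univ.filter fun w => w ≠ 0 with hU
  set K : Finset (ZMod p) := U.image κ with hK
  have hUcard : U.card ≤ p := by
    have : U.card ≤ Fintype.card (ZMod p) := Finset.card_le_univ _
    rwa [ZMod.card] at this
  -- the stabilizer of infinity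
  set T₁ := S.filter fun t => t • (∞ : P1 p) = ∞ with hT₁
  have hT₁d : ∀ t ∈ T₁, t 1 0 = 0 ∧ t 0 1 = 0 ∧ t 0 0 * t 1 1 = 1 := by
    intro t ht
    rw [hT₁, Finset.mem_filter] at ht
    have h1 := (rel_inf_inf t).1 ht.2
    have h2 : t • ((0 : ZMod p) : P1 p) = ((0 : ZMod p) : P1 p) := by
      rw [← hPinf, ← hPS t ht.1, ht.2]
    have h3 := (fix_zero t).1 h2
    refine ⟨h1, h3, ?_⟩
    have hd := det_eq t
    rw [h1, mul_zero, sub_zero] at hd
    exact hd
  have hT₁s : ∀ t ∈ T₁, ∀ w : ZMod p, t • (w : P1 p) = ((t 0 0 * t 0 0 * w : ZMod p) : P1 p) := by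
    intro t ht w
    obtain ⟨h1, h2, h3⟩ := hT₁d t ht
    rw [rel_fin, h1, h2]
    linear_combination (-(t 0 0) * w) * h3
  have hκinv : ∀ t ∈ T₁, ∀ w : ZMod p, w ≠ 0 → κ (t 0 0 * t 0 0 * w) = κ w := by
    intro t ht w hw
    obtain ⟨h1, h2, h3⟩ := hT₁d t ht
    have ha : t 0 0 ≠ 0 := by
      intro h
      rw [h, zero_mul] at h3
      exact zero_ne_one h3
    have h4 : t 0 0 * t 0 0 * w ≠ 0 := mul_ne_zero (mul_ne_zero ha ha) hw
    have h5 := hPS t (Finset.mem_filter.1 ht).1 (w : P1 p)
    rw [hT₁s t ht w, hq _ h4, hq w hw, hT₁s t ht (q w), OnePoint.coe_eq_coe] at h5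
    simp only [hκ]
    rw [h5]
    field_simp
  have hclaim1 : K.card * T₁.card ≤ 2 * p := by
    have h1 : ∀ k ∈ K, T₁.card ≤ 2 * (U.filter fun w => κ w = k).card := by
      intro k hk
      obtain ⟨w₀, hw₀, rfl⟩ := Finset.mem_image.1 hk
      have hw₀' : w₀ ≠ 0 := (Finset.mem_filter.1 hw₀).2
      have h2 : T₁.card ≤ 2 * (T₁.image fun t => t 0 0 * t 0 0 * w₀).card := by
        apply Finset.card_le_mul_card_image
        intro r _
        refine le_trans ?_ (quad_card (p := p) w₀ 0 (-r) (fun h => hw₀' h.1))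
        apply Finset.card_le_card_of_injOn (fun t => t 0 0)
        · intro t ht
          have ht' := (Finset.mem_filter.1 (Finset.mem_coe.1 ht)).2
          rw [Finset.mem_coe, Finset.mem_filter]
          refine ⟨Finset.mem_univ _, ?_⟩
          linear_combination ht'
        · intro t ht s hs hts
          have ht' := hT₁d t (Finset.mem_filter.1 (Finset.mem_coe.1 ht)).1
          have hs' := hT₁d s (Finset.mem_filter.1 (Finset.mem_coe.1 hs)).1
          simp only at hts
          refine ext2 hts (ht'.2.1.trans hs'.2.1.symm) (ht'.1.trans hs'.1.symm) ?_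
          have ha : t 0 0 ≠ 0 := by
            intro h
            rw [h, zero_mul] at ht'
            exact zero_ne_one ht'.2.2
          apply mul_left_cancel₀ ha
          rw [ht'.2.2, hts, hs'.2.2]
      refine h2.trans (Nat.mul_le_mul_left _ (Finset.card_le_card ?_))
      intro r hr
      obtain ⟨t, ht, rfl⟩ := Finset.mem_image.1 hr
      rw [Finset.mem_filter, hU, Finset.mem_filter]
      obtain ⟨h3, h4, h5⟩ := hT₁d t ht
      have ha : t 0 0 ≠ 0 := by
        intro h
        rw [h, zero_mul] at h5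
        exact zero_ne_one h5
      exact ⟨⟨Finset.mem_univ _, mul_ne_zero (mul_ne_zero ha ha) hw₀'⟩, hκinv t ht w₀ hw₀'⟩
    calc K.card * T₁.card = ∑ k ∈ K, T₁.card := by rw [Finset.sum_const, smul_eq_mul]
      _ ≤ ∑ k ∈ K, 2 * (U.filter fun w => κ w = k).card := Finset.sum_le_sum h1
      _ = 2 * ∑ k ∈ K, (U.filter fun w => κ w = k).card := by rw [Finset.mul_sum]
      _ ≤ 2 * U.card := Nat.mul_le_mul_left _ (sum_card_fiber_le U κ K)
      _ ≤ 2 * p := Nat.mul_le_mul_left _ hUcard
  -- the stabilizer of one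
  obtain ⟨v, hv⟩ : ∃ v, v = q 1 := ⟨_, rfl⟩
  have hv0 : v ≠ 0 := by
    rw [hv]
    exact hq0 1 one_ne_zero
  have hP1 : P ((1 : ZMod p) : P1 p) = (v : P1 p) := by
    rw [hv]
    exact hq 1 one_ne_zero
  have hv1 : v ≠ 1 := by
    intro h
    apply hPne ((1 : ZMod p) : P1 p)
    rw [hP1, h]
  set T₂ := S.filter fun t => t • ((1 : ZMod p) : P1 p) = ((1 : ZMod p) : P1 p) with hT₂
  have hT₂d : ∀ t ∈ T₂, t 0 1 = - (t 1 0 * v) ∧ t 1 1 = t 0 0 - t 1 0 * (1 + v) := by
    intro t ht
    rw [hT₂, Finset.mem_filter] at ht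
    have h1 := (rel_fin t 1 1).1 ht.2
    have h2 : t • (v : P1 p) = (v : P1 p) := by
      rw [← hP1, ← hPS t ht.1, ht.2]
    rw [rel_fin] at h2
    have h3 : t 0 1 = - (t 1 0 * v) := by
      have h4 : (1 - v) * (t 1 0 * v + t 0 1) = 0 := by
        linear_combination h2 - v * h1
      rcases mul_eq_zero.1 h4 with h5 | h5
      · exact absurd (sub_eq_zero.1 h5).symm hv1
      · linear_combination h5
    refine ⟨h3, ?_⟩
    linear_combination h3 - h1
  have hdet2 : ∀ t ∈ T₂, t 0 0 * (t 0 0 - t 1 0 * (1 + v)) + t 1 0 * v * t 1 0 = 1 := by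
    intro t ht
    have h1 := hT₂d t ht
    have hd := det_eq t
    rw [h1.1, h1.2] at hd
    linear_combination hd
  have hT₂ext : ∀ t ∈ T₂, ∀ s ∈ T₂, t 0 0 = s 0 0 → t 1 0 = s 1 0 → t = s := by
    intro t ht s hs h0 h1
    have h2 := hT₂d t ht
    have h3 := hT₂d s hs
    exact ext2 h0 (by rw [h2.1, h3.1, h1]) h1 (by rw [h2.2, h3.2, h0, h1])
  set A := T₂.filter fun t => Sc t with hA
  set B := T₂.filter fun t => t 0 0 = 0 with hB
  set C := T₂.filter fun t => ¬ Sc t ∧ t 0 0 ≠ 0 with hC
  have hsplit : T₂.card ≤ A.card + (B.card + C.card) := by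
    have h1 : T₂ ⊆ A ∪ (B ∪ C) := by
      intro t ht
      simp only [hA, hB, hC, Finset.mem_union, Finset.mem_filter]
      tauto
    exact (Finset.card_le_card h1).trans ((Finset.card_union_le _ _).trans
      (Nat.add_le_add_left (Finset.card_union_le _ _) _))
  have hAc : A.card ≤ 2 := card_sc _ fun t ht => (Finset.mem_filter.1 ht).2
  have hBc : B.card ≤ 2 := by
    refine le_trans ?_ (quad_card (p := p) v 0 (-1) (fun h => hv0 h.1))
    apply Finset.card_le_card_of_injOn (fun t => t 1 0)
    · intro t ht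
      have ht' := Finset.mem_filter.1 (Finset.mem_coe.1 ht)
      have h1 := hdet2 t ht'.1
      rw [Finset.mem_coe, Finset.mem_filter]
      refine ⟨Finset.mem_univ _, ?_⟩
      rw [ht'.2] at h1
      linear_combination h1
    · intro t ht s hs hts
      have ht' := Finset.mem_filter.1 (Finset.mem_coe.1 ht)
      have hs' := Finset.mem_filter.1 (Finset.mem_coe.1 hs)
      exact hT₂ext t ht'.1 s hs'.1 (ht'.2.trans hs'.2.symm) hts
  have hCc : C.card ≤ 4 * K.card := by
    have h1 : C.card ≤ 4 * (C.image fun t => t 0 1 * t 1 0 / (t 0 0 * t 1 1)).card := by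
      apply Finset.card_le_mul_card_image
      intro k _
      set D := C.filter fun t => t 0 1 * t 1 0 / (t 0 0 * t 1 1) = k with hD
      have hDd : ∀ t ∈ D, t ∈ T₂ ∧ t 1 0 ≠ 0 ∧ t 1 1 ≠ 0 ∧
          t 0 1 * t 1 0 = k * (t 0 0 * t 1 1) := by
        intro t ht
        have ht' := Finset.mem_filter.1 ht
        have ht2 := Finset.mem_filter.1 ht'.1
        have h3 := hT₂d t ht2.1
        have hc0 : t 1 0 ≠ 0 := by
          intro h
          apply ht2.2.1
          refine ⟨?_, h, ?_⟩
          · rw [h3.1, h]; ring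
          · rw [h3.2, h]; ring
        have hd0 : t 1 1 ≠ 0 := by
          intro h
          have h4 := hPS t (Finset.mem_filter.1 ht2.1).1 ∞
          have h5 : t • (∞ : P1 p) = ((t 0 0 / t 1 0 : ZMod p) : P1 p) := by
            rw [rel_inf_fin]
            field_simp
          have h6 : t • ((0 : ZMod p) : P1 p) = ∞ := by
            rw [rel_fin_inf, h]
            ring
          rw [hPinf, h6, h5, hq _ (div_ne_zero ht2.2.2 hc0)] at h4
          exact OnePoint.coe_ne_infty _ h4
        refine ⟨ht2.1, hc0, hd0, ?_⟩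
        have h7 := ht'.2
        rw [div_eq_iff (mul_ne_zero ht2.2.2 hd0)] at h7
        exact h7
      have h2 : D.card ≤ 2 * (D.image fun t => t 1 0).card := by
        apply Finset.card_le_mul_card_image
        intro c _
        refine le_trans ?_ (quad_card (p := p) (1 - k) (-((1 - k) * (c * (1 + v)))) (-1)
          (fun h => one_ne_zero (neg_eq_zero.1 h.2.2)))
        apply Finset.card_le_card_of_injOn (fun t => t 0 0)
        · intro t ht
          have ht' := Finset.mem_filter.1 (Finset.mem_coe.1 ht)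
          obtain ⟨h3, h4, h5, h6⟩ := hDd t ht'.1
          have h7 := hT₂d t h3
          have hd := det_eq t
          rw [Finset.mem_coe, Finset.mem_filter]
          refine ⟨Finset.mem_univ _, ?_⟩
          rw [← ht'.2]
          have h8 : t 0 0 * t 1 1 * (1 - k) = 1 := by linear_combination hd + h6
          rw [h7.2] at h8
          linear_combination h8
        · intro t ht s hs hts
          have ht' := Finset.mem_filter.1 (Finset.mem_coe.1 ht)
          have hs' := Finset.mem_filter.1 (Finset.mem_coe.1 hs)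
          exact hT₂ext t (hDd t ht'.1).1 s (hDd s hs'.1).1 hts (ht'.2.trans hs'.2.symm)
      have h3 : (D.image fun t => t 1 0).card ≤ 2 := by
        refine le_trans (Finset.card_le_card ?_)
          (quad_card (p := p) ((1 - k) * v) 0 k (fun h => ?_))
        · intro c hc
          obtain ⟨t, ht, rfl⟩ := Finset.mem_image.1 hc
          obtain ⟨h3, h4, h5, h6⟩ := hDd t ht
          have h7 := hT₂d t h3
          have hd := det_eq t
          rw [Finset.mem_filter]
          refine ⟨Finset.mem_univ _, ?_⟩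
          have h8 : t 0 0 * t 1 1 * (1 - k) = 1 := by linear_combination hd + h6
          rw [h7.1] at h6
          linear_combination (-(1 - k)) * h6 - k * h8
        · rw [h.2.2, sub_zero, one_mul] at h
          exact hv0 h.1
      omega
    refine h1.trans (Nat.mul_le_mul_left _ (Finset.card_le_card ?_))
    intro k hk
    obtain ⟨t, ht, rfl⟩ := Finset.mem_image.1 hk
    have ht' := Finset.mem_filter.1 ht
    have h3 := hT₂d t ht'.1
    have hc0 : t 1 0 ≠ 0 := by
      intro h
      apply ht'.2.1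
      refine ⟨?_, h, ?_⟩
      · rw [h3.1, h]; ring
      · rw [h3.2, h]; ring
    have h5 : t • (∞ : P1 p) = ((t 0 0 / t 1 0 : ZMod p) : P1 p) := by
      rw [rel_inf_fin]
      field_simp
    have hw : t 0 0 / t 1 0 ≠ 0 := div_ne_zero ht'.2.2 hc0
    have h4 := hPS t (Finset.mem_filter.1 ht'.1).1 ∞
    rw [h5, hPinf, hq _ hw] at h4
    have h6 := (rel_fin t 0 _).1 h4.symm
    rw [mul_zero, zero_add, mul_zero, zero_add] at h6
    have hd0 : t 1 1 ≠ 0 := by
      intro h
      rw [h, mul_zero, h3.1] at h6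
      rcases mul_eq_zero.1 (neg_eq_zero.1 h6) with h7 | h7
      · exact hc0 h7
      · exact hv0 h7
    rw [hK, Finset.mem_image]
    refine ⟨t 0 0 / t 1 0, ?_, ?_⟩
    · rw [hU, Finset.mem_filter]
      exact ⟨Finset.mem_univ _, hw⟩
    · simp only [hκ]
      have h8 : q (t 0 0 / t 1 0) = t 0 1 / t 1 1 := by
        rw [eq_div_iff hd0]
        exact h6.symm
      rw [h8]
      have ha0 := ht'.2.2
      field_simp
  have h1 : (T₂.card : ℝ) ≤ 4 + 4 * K.card := by
    have : T₂.card ≤ 4 + 4 * K.card := by omega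
    exact_mod_cast this
  have h2 : (K.card : ℝ) * T₁.card ≤ 2 * p := by exact_mod_cast hclaim1
  have h3 := hT ∞
  have h4 := hT ((1 : ZMod p) : P1 p)
  have h5 : (T - 4) * T ≤ (4 * K.card) * T₁.card := by
    apply mul_le_mul _ h3 (by linarith) (by positivity)
    have h6 : T ≤ (T₂.card : ℝ) := h4
    linarith
  linarith

namespace PivotHyp

variable {H : Finset (SL2 p)} {L : ℝ}

/-- The graph is not a perfect matching. -/
theorem no_matching (h : PivotHyp H L)
    (hdeg : ∀ x y y' : P1 p, Edge H x y → Edge H x y' → y = y')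
    (hall : ∀ x : P1 p, ∃ y, Edge H x y) : False := by
  classical
  choose P hP using hall
  have huniq : ∀ x y, Edge H x y → P x = y := fun x y hxy => hdeg _ _ _ (hP x) hxy
  have hinv : ∀ x, P (P x) = x := fun x => huniq _ _ (hP x).symm
  have hne : ∀ x, P x ≠ x := fun x => (hP x).1.symm
  have hequiv : ∀ t ∈ H * H, ∀ x, P (t • x) = t • P x := fun t ht x =>
    huniq _ _ (h.edge_smul2 (hP x) ht)
  obtain ⟨g, hg, hg'⟩ := exists_inf_zero (hne ∞).symm
  have hL := h.L1
  have hp := h.p_pos
  have hlarge := h.large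
  have hL4 : (1 : ℝ) ≤ L ^ 4 := one_le_pow₀ hL
  have hL3 : (1 : ℝ) ≤ L ^ 3 := one_le_pow₀ hL
  have hginv : g⁻¹ • (∞ : P1 p) = ∞ := by
    nth_rewrite 1 [← hg]
    rw [inv_smul_smul]
  have key := matching_bound ((H * H).image fun t => g * t * g⁻¹)
    (fun x => g • P (g⁻¹ • x)) (by
      intro x
      rw [inv_smul_smul, hinv, smul_inv_smul]) (by
      intro x hx
      apply hne (g⁻¹ • x)
      apply smul_left_cancel g
      rw [hx, smul_inv_smul]) (by
      intro t ht x
      obtain ⟨s, hs, rfl⟩ := Finset.mem_image.1 ht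
      have e1 : g⁻¹ • (g * s * g⁻¹) • x = s • (g⁻¹ • x) := by
        rw [mul_smul, mul_smul, inv_smul_smul]
      rw [e1, hequiv s hs, mul_smul, mul_smul, inv_smul_smul]) (by
      rw [hginv, hg']) ((p : ℝ) / (2 * L)) (by
      rw [le_div_iff₀ (by positivity)]
      nlinarith) (by
      intro x
      have h1 := h.stab_big (g⁻¹ • x)
      rw [div_le_iff₀ (by positivity)]
      have h2 : ((H * H).filter fun t => t • (g⁻¹ • x) = g⁻¹ • x).card ≤
          (((H * H).image fun t => g * t * g⁻¹).filter fun t => t • x = x).card := by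
        apply Finset.card_le_card_of_injOn (fun t => g * t * g⁻¹)
        · intro t ht
          have ht' := Finset.mem_filter.1 (Finset.mem_coe.1 ht)
          rw [Finset.mem_coe, Finset.mem_filter]
          refine ⟨Finset.mem_image_of_mem _ ht'.1, ?_⟩
          rw [mul_smul, mul_smul, ht'.2, smul_inv_smul]
        · intro a _ b _ hab
          exact mul_left_cancel (mul_right_cancel hab)
      have h3 : (((H * H).filter fun t => t • (g⁻¹ • x) = g⁻¹ • x).card : ℝ) ≤
          ((((H * H).image fun t => g * t * g⁻¹).filter fun t => t • x = x).card : ℝ) := by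
        exact_mod_cast h2
      have h4 : (0 : ℝ) < 2 * L := by positivity
      nlinarith)
  -- `(p / 2L - 4) * p / 2L ≤ 8 p`
  have hLp : 0 < L := by linarith
  have h1 : ((p : ℝ) / (2 * L) - 4) * ((p : ℝ) / (2 * L)) =
      p * ((p - 8 * L) / (4 * L ^ 2)) := by
    field_simp
    ring
  rw [h1] at key
  have h2 : (p : ℝ) * ((p - 8 * L) / (4 * L ^ 2)) ≤ p * 8 := by linarith
  have h3 : ((p : ℝ) - 8 * L) / (4 * L ^ 2) ≤ 8 := le_of_mul_le_mul_left h2 (by linarith)
  rw [div_le_iff₀ (by positivity)] at h3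
  have h4 : L ^ 2 ≤ L ^ 5 := pow_le_pow_right₀ hL (by norm_num)
  have h5 : L ≤ L ^ 5 := by nlinarith
  nlinarith

/-- An approximate subgroup of size about `p²` fixes a point. -/
theorem false (h : PivotHyp H L) : False := by
  by_cases hdeg : ∀ x y y' : P1 p, Edge H x y → Edge H x y' → y = y'
  · by_cases hall : ∀ x : P1 p, ∃ y, Edge H x y
    · exact h.no_matching hdeg hall
    · push Not at hall
      obtain ⟨x, hx⟩ := hall
      by_cases he : ∃ z w, Edge H z w
      · obtain ⟨z, w, hzw⟩ := he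
        exact h.no_isolated hdeg x hx hzw
      · push Not at he
        exact h.exists_edge he
  · push Not at hdeg
    obtain ⟨x, y, y', h1, h2, h3⟩ := hdeg
    exact h.not_full x fun z hz => h.sum_trick h1 h2 h3 hz

end PivotHyp

end Pool.Agent.Lib.MP_8dbdcc_co
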