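import Pool.Agent.Lib.MP_8dbdcc_co.Config
import Pool.Agent.Lib.MP_8dbdcc_co.Pivot3

set_option autoImplicit false
set_option linter.unusedSectionVars false

/-!
# The contradiction in the group `SL₂(𝔽_p)`
-/

namespace Pool.Agent.Lib.MP_8dbdcc_co

open Finset OnePoint
open scoped Pointwise

theorem num_E {n s b K E E' e y : ℝ} (hn : 0 < n) (hK : 2 ≤ K) (hs0 : 0 < s) (hb0 : 0 < b)
    (hs : n ≤ K * s) (hb : n ≤ K * b) (hnK : 32 * K ^ 5 ≤ n) (hy0 : 0 ≤ y)
    (h1 : b ^ 4 * (s ^ 4 / (8 * n ^ 4)) ≤ E) (h2 : E ≤ E' + 2 * b ^ 3) (h3 : E' ≤ 4 * e)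
    (h4 : y ≤ b ^ 2) : 1 / (64 * K ^ 4) * y ^ 2 ≤ e := by
  have hK0 : 0 < K := by linarith
  have h5 : 1 / (8 * K ^ 4) ≤ s ^ 4 / (8 * n ^ 4) := by
    rw [div_le_div_iff₀ (by positivity) (by positivity)]
    have : n ^ 4 ≤ (K * s) ^ 4 := pow_le_pow_left₀ hn.le hs 4
    rw [mul_pow] at this
    linarith
  have h6 : b ^ 4 * (1 / (8 * K ^ 4)) ≤ E :=
    (mul_le_mul_of_nonneg_left h5 (by positivity)).trans h1
  have h7 : 32 * K ^ 4 ≤ b := by
    have : K * (32 * K ^ 4) ≤ K * b := by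
      refine le_trans (le_of_eq (by ring)) (hnK.trans hb)
    exact le_of_mul_le_mul_left this hK0
  have h8 : 2 * b ^ 3 ≤ b ^ 4 * (1 / (16 * K ^ 4)) := by
    rw [mul_one_div, le_div_iff₀ (by positivity)]
    have : b ^ 3 * (32 * K ^ 4) ≤ b ^ 3 * b := mul_le_mul_of_nonneg_left h7 (by positivity)
    nlinarith
  have h9 : b ^ 4 * (1 / (8 * K ^ 4)) = 2 * (b ^ 4 * (1 / (16 * K ^ 4))) := by
    field_simp
    norm_num
  have h10 : b ^ 4 * (1 / (16 * K ^ 4)) ≤ 4 * e := by linarith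
  have h11 : y ^ 2 ≤ b ^ 4 := by
    calc y ^ 2 ≤ (b ^ 2) ^ 2 := pow_le_pow_left₀ hy0 h4 2
      _ = b ^ 4 := by ring
  have h12 : 1 / (64 * K ^ 4) * y ^ 2 ≤ 1 / (64 * K ^ 4) * b ^ 4 :=
    mul_le_mul_of_nonneg_left h11 (by positivity)
  have h13 : b ^ 4 * (1 / (16 * K ^ 4)) = 4 * (1 / (64 * K ^ 4) * b ^ 4) := by
    field_simp
    norm_num
  linarith

theorem num_V {n b K y v : ℝ} (hn : 0 < n) (hK : 2 ≤ K) (hb0 : 0 < b)
    (hb : n ≤ K * b) (hy : b ^ 2 / 4 ≤ y) (hv : 1 / (64 * K ^ 4) / 2 * y ≤ v) :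
    n ^ 2 ≤ 512 * K ^ 6 * v := by
  have hK0 : 0 < K := by linarith
  have h1 : n ^ 2 ≤ (K * b) ^ 2 := pow_le_pow_left₀ hn.le hb 2
  have h2 : y ≤ 128 * K ^ 4 * v := by
    have : 1 / (64 * K ^ 4) / 2 * y = y / (128 * K ^ 4) := by
      field_simp
      ring
    rw [this, div_le_iff₀ (by positivity)] at hv
    linarith
  have h3 : b ^ 2 ≤ 512 * K ^ 4 * v := by linarith
  calc n ^ 2 ≤ (K * b) ^ 2 := h1
    _ = K ^ 2 * b ^ 2 := by ring
    _ ≤ K ^ 2 * (512 * K ^ 4 * v) := mul_le_mul_of_nonneg_left h3 (by positivity)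
    _ = 512 * K ^ 6 * v := by ring

theorem num_VV {n s b K y v x d : ℝ} (hn : 0 < n) (hK : 2 ≤ K) (hs0 : 0 < s) (hb0 : 0 < b)
    (hs : n ≤ K * s) (hb : n ≤ K * b) (hy : b ^ 2 / 4 ≤ y) (hx0 : 0 ≤ x) (hd0 : 0 ≤ d)
    (hnv : n ^ 2 ≤ 512 * K ^ 6 * v)
    (hd : d * s ^ 8 ≤ 64 * n ^ 10)
    (hx : x * ((1 / (64 * K ^ 4)) ^ 5 * y ^ 3) ≤ 4096 * d ^ 4) :
    x ≤ K ^ 145 * v := by
  have hK0 : 0 < K := by linarith
  have h1 : d ≤ 64 * K ^ 8 * n ^ 2 := by
    have h2 : n ^ 8 ≤ (K * s) ^ 8 := pow_le_pow_left₀ hn.le hs 8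
    have h3 : n ^ 8 * d ≤ n ^ 8 * (64 * K ^ 8 * n ^ 2) := by
      calc n ^ 8 * d ≤ (K * s) ^ 8 * d := mul_le_mul_of_nonneg_right h2 hd0
        _ = K ^ 8 * (d * s ^ 8) := by ring
        _ ≤ K ^ 8 * (64 * n ^ 10) := mul_le_mul_of_nonneg_left hd (by positivity)
        _ = n ^ 8 * (64 * K ^ 8 * n ^ 2) := by ring
    exact le_of_mul_le_mul_left h3 (by positivity)
  have h2 : n ^ 2 / (4 * K ^ 2) ≤ y := by
    refine le_trans ?_ hy
    rw [div_le_div_iff₀ (by positivity) (by norm_num)]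
    have : n ^ 2 ≤ (K * b) ^ 2 := pow_le_pow_left₀ hn.le hb 2
    nlinarith
  have h3 : (n ^ 2 / (4 * K ^ 2)) ^ 3 ≤ y ^ 3 := pow_le_pow_left₀ (by positivity) h2 3
  have h4 : x * ((1 / (64 * K ^ 4)) ^ 5 * (n ^ 2 / (4 * K ^ 2)) ^ 3) ≤
      4096 * (64 * K ^ 8 * n ^ 2) ^ 4 := by
    calc x * ((1 / (64 * K ^ 4)) ^ 5 * (n ^ 2 / (4 * K ^ 2)) ^ 3)
        ≤ x * ((1 / (64 * K ^ 4)) ^ 5 * y ^ 3) := by
          apply mul_le_mul_of_nonneg_left _ hx0
          exact mul_le_mul_of_nonneg_left h3 (by positivity)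
      _ ≤ 4096 * d ^ 4 := hx
      _ ≤ 4096 * (64 * K ^ 8 * n ^ 2) ^ 4 :=
          mul_le_mul_of_nonneg_left (pow_le_pow_left₀ hd0 h1 4) (by norm_num)
  have h5 : x ≤ 2 ^ 72 * K ^ 58 * n ^ 2 := by
    have h6 : x * ((1 / (64 * K ^ 4)) ^ 5 * (n ^ 2 / (4 * K ^ 2)) ^ 3) =
        x * n ^ 6 / (2 ^ 36 * K ^ 26) := by
      field_simp
      ring
    rw [h6, div_le_iff₀ (by positivity)] at h4
    have h7 : n ^ 6 * x ≤ n ^ 6 * (2 ^ 72 * K ^ 58 * n ^ 2) := by
      refine le_trans (le_of_eq (by ring)) (h4.trans (le_of_eq ?_))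
      ring
    exact le_of_mul_le_mul_left h7 (by positivity)
  have h6 : (2 : ℝ) ^ 81 ≤ K ^ 81 := pow_le_pow_left₀ (by norm_num) hK 81
  calc x ≤ 2 ^ 72 * K ^ 58 * n ^ 2 := h5
    _ ≤ 2 ^ 72 * K ^ 58 * (512 * K ^ 6 * v) := mul_le_mul_of_nonneg_left hnv (by positivity)
    _ = 2 ^ 81 * (K ^ 64 * v) := by ring
    _ ≤ K ^ 81 * (K ^ 64 * v) := by
        apply mul_le_mul_of_nonneg_right h6
        have : 0 < 512 * K ^ 6 * v := lt_of_lt_of_le (by positivity) hnv
        have hv0 : 0 < v := by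
          by_contra hcon
          push Not at hcon
          have : 512 * K ^ 6 * v ≤ 0 := mul_nonpos_of_nonneg_of_nonpos (by positivity) hcon
          linarith
        positivity
    _ = K ^ 145 * v := by ring

variable {p : ℕ} [Fact p.Prime]

/-- the main contradiction -/
theorem no_config (A : Finset (SL2 p)) (S S' : Finset (P1 p)) (K : ℝ) (hK : 2 ≤ K)
    (hp : K ^ 20000 ≤ (p : ℝ)) (hs : (p : ℝ) + 1 ≤ K * S.card) (hb : (p : ℝ) + 1 ≤ K * A.card)
    (hb2 : (A.card : ℝ) ≤ 2 * ((p : ℝ) + 1)) (hSS : S'.card = S.card)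
    (hdis : ∀ a ∈ A, (S.filter fun x => a • x ∈ S').card ≤ 2)
    (hmult : ∀ g, (A.offDiag.filter fun q => quo q = g).card ≤ 2)
    (hconc : ∀ w z : P1 p, ((A ×ˢ A).filter fun q => quo q • w = z).card ≤ 2 * A.card) :
    False := by
  classical
  have hK0 : 0 < K := by linarith
  have hK1 : 1 ≤ K := by linarith
  set n : ℝ := (p : ℝ) + 1 with hn'
  have hn : 0 < n := by positivity
  have hpow : ∀ a : ℕ, a ≤ 20000 → K ^ a ≤ n := by
    intro a ha
    have h1 : K ^ a ≤ K ^ 20000 := pow_le_pow_right₀ hK1 ha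
    linarith
  have h2K : ∀ a : ℕ, (2 : ℝ) ^ a ≤ K ^ a := fun a => pow_le_pow_left₀ (by norm_num) hK a
  have hs0 : (0 : ℝ) < S.card := by
    by_contra hcon
    push Not at hcon
    have := mul_nonpos_of_nonneg_of_nonpos hK0.le hcon
    linarith
  have hb0 : (0 : ℝ) < A.card := by
    by_contra hcon
    push Not at hcon
    have := mul_nonpos_of_nonneg_of_nonpos hK0.le hcon
    linarith
  have hSne : S.Nonempty := Finset.card_pos.1 (by exact_mod_cast hs0)
  have hAne : A.Nonempty := Finset.card_pos.1 (by exact_mod_cast hb0)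
  have h32 : 32 * K ^ 5 ≤ n := by
    calc 32 * K ^ 5 = 2 ^ 5 * K ^ 5 := by norm_num
      _ ≤ K ^ 5 * K ^ 5 := mul_le_mul_of_nonneg_right (h2K 5) (by positivity)
      _ = K ^ 10 := by ring
      _ ≤ n := hpow 10 (by norm_num)
  have hKs : K ^ 5 ≤ (S.card : ℝ) := by
    have h1 : K * K ^ 5 ≤ K * S.card := by
      refine le_trans ?_ hs
      calc K * K ^ 5 = K ^ 6 := by ring
        _ ≤ n := hpow 6 (by norm_num)
    exact le_of_mul_le_mul_left h1 hK0
  have hs3 : 3 ≤ S.card := by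
    have h1 : (3 : ℝ) ≤ S.card := by
      have := h2K 5
      norm_num at this
      linarith
    exact_mod_cast h1
  have hs8 : 8 * n ≤ (S.card : ℝ) ^ 2 := by
    have h1 : n ^ 2 ≤ (K * S.card) ^ 2 := pow_le_pow_left₀ hn.le hs 2
    have h2 : 8 * K ^ 2 ≤ n := by
      have h3 : K ^ 2 ≤ K ^ 5 := pow_le_pow_right₀ hK1 (by norm_num)
      nlinarith
    have h3 : K ^ 2 * (8 * n) ≤ K ^ 2 * (S.card : ℝ) ^ 2 := by
      calc K ^ 2 * (8 * n) = (8 * K ^ 2) * n := by ring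
        _ ≤ n * n := mul_le_mul_of_nonneg_right h2 hn.le
        _ = n ^ 2 := by ring
        _ ≤ (K * S.card) ^ 2 := h1
        _ = K ^ 2 * (S.card : ℝ) ^ 2 := by ring
    exact le_of_mul_le_mul_left h3 (by positivity)
  have hb2' : (2 : ℝ) ≤ A.card := by
    have h1 : K * 2 ≤ K * A.card := by
      refine le_trans ?_ hb
      have h3 : K ≤ K ^ 5 := le_self_pow₀ hK1 (by norm_num)
      nlinarith
    exact le_of_mul_le_mul_left h1 hK0
  -- pairs of pairs
  have hE := pairs_bound A S S' hSS hdis hAne hs3 hs8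
  set Q := (A ×ˢ A) ×ˢ (A ×ˢ A) with hQ
  set E := Q.filter fun q => (quo q.2)⁻¹ * quo q.1 ∈ DD S with hEdef
  set E' := (A.offDiag ×ˢ A.offDiag).filter fun q => (quo q.2)⁻¹ * quo q.1 ∈ DD S with hE'def
  set Y := A.offDiag.image quo with hY
  set e := (Y ×ˢ Y).filter fun q => q.1⁻¹ * q.2 ∈ DD S with hedef
  have hE1 : E.card ≤ E'.card + 2 * A.card ^ 3 := by
    have h1 : E ⊆ E' ∪ ((A.diag ×ˢ (A ×ˢ A)) ∪ ((A ×ˢ A) ×ˢ A.diag)) := by
      intro q hq
      simp only [hEdef, hQ, hE'def, Finset.mem_union, Finset.mem_filter, Finset.mem_product,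
        Finset.mem_offDiag, Finset.mem_diag] at hq ⊢
      tauto
    have h2 : ((A.diag ×ˢ (A ×ˢ A)) ∪ ((A ×ˢ A) ×ˢ A.diag)).card ≤ 2 * A.card ^ 3 := by
      refine (Finset.card_union_le _ _).trans ?_
      simp only [Finset.card_product, Finset.diag_card]
      apply le_of_eq
      ring
    exact (Finset.card_le_card h1).trans ((Finset.card_union_le _ _).trans
      (Nat.add_le_add_left h2 _))
  have hE2 : E'.card ≤ 4 * e.card := by
    have h1 : E'.card ≤ 4 * (E'.image fun q => (quo q.2, quo q.1)).card := by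
      apply Finset.card_le_mul_card_image
      rintro ⟨y, y'⟩ _
      have h2 : (E'.filter fun q => (quo q.2, quo q.1) = (y, y')) ⊆
          (A.offDiag.filter fun q => quo q = y') ×ˢ (A.offDiag.filter fun q => quo q = y) := by
        intro q hq
        simp only [hE'def, Finset.mem_filter, Finset.mem_product, Prod.mk.injEq] at hq ⊢
        tauto
      calc _ ≤ _ := Finset.card_le_card h2
        _ = _ := Finset.card_product _ _
        _ ≤ 2 * 2 := Nat.mul_le_mul (hmult y') (hmult y)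
        _ = 4 := by norm_num
    refine h1.trans (Nat.mul_le_mul_left _ (Finset.card_le_card ?_))
    intro r hr
    obtain ⟨q, hq, rfl⟩ := Finset.mem_image.1 hr
    have hq' := Finset.mem_filter.1 hq
    have hq1 := Finset.mem_product.1 hq'.1
    rw [hedef, Finset.mem_filter, Finset.mem_product]
    exact ⟨⟨Finset.mem_image_of_mem _ hq1.2, Finset.mem_image_of_mem _ hq1.1⟩, hq'.2⟩
  have hYle : Y.card ≤ A.card ^ 2 := by
    calc Y.card ≤ A.offDiag.card := Finset.card_image_le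
      _ ≤ A.card ^ 2 := by
          rw [Finset.offDiag_card, pow_two]
          omega
  have hYge : (A.card : ℝ) ^ 2 / 4 ≤ Y.card := by
    have h1 : A.offDiag.card ≤ 2 * Y.card := by
      apply Finset.card_le_mul_card_image
      intro g _
      exact hmult g
    rw [Finset.offDiag_card] at h1
    have h2 : A.card * A.card ≤ 2 * Y.card + A.card := by omega
    have h3 : (A.card : ℝ) * A.card ≤ 2 * Y.card + A.card := by exact_mod_cast h2
    nlinarith
  have hYne : Y.Nonempty := by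
    apply Finset.card_pos.1
    have h1 : (0 : ℝ) < Y.card := lt_of_lt_of_le (by positivity) hYge
    exact_mod_cast h1
  have hE1' : (E.card : ℝ) ≤ (E'.card : ℝ) + 2 * (A.card : ℝ) ^ 3 := by exact_mod_cast hE1
  have hE2' : (E'.card : ℝ) ≤ 4 * (e.card : ℝ) := by exact_mod_cast hE2
  have hYle' : (Y.card : ℝ) ≤ (A.card : ℝ) ^ 2 := by exact_mod_cast hYle
  have hα : 1 / (64 * K ^ 4) * (Y.card : ℝ) ^ 2 ≤ (e.card : ℝ) :=
    num_E (E := (E.card : ℝ)) (E' := (E'.card : ℝ)) hn hK hs0 hb0 hs hb h32 (by positivity) hE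
      hE1' hE2' hYle'
  obtain ⟨V, hVY, hV1, hV2⟩ := bsg Y (DD S) (DD_inv S) (1 / (64 * K ^ 4)) (by positivity) hYne hα
  have hnv := num_V hn hK hb0 hb hYge hV1
  have hVV := num_VV hn hK hs0 hb0 hs hb hYge (by positivity) (by positivity) hnv
    (DD_card S hSne) hV2
  have hv0 : (0 : ℝ) < V.card := by
    by_contra hcon
    push Not at hcon
    have h1 : 512 * K ^ 6 * (V.card : ℝ) ≤ 0 :=
      mul_nonpos_of_nonneg_of_nonpos (by positivity) hcon
    have h2 : 0 < n ^ 2 := by positivity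
    linarith
  have hVne : V.Nonempty := Finset.card_pos.1 (by exact_mod_cast hv0)
  obtain ⟨H, h1H, hHinv, hHV, hHr, hHk⟩ := apx V hVne (K ^ 145) hVV
  have hp1 : n ≤ 2 * p := by
    have h1 : (2 : ℝ) ^ 1 ≤ K ^ 1 := h2K 1
    have h2 : K ^ 1 ≤ K ^ 20000 := pow_le_pow_right₀ hK1 (by norm_num)
    rw [hn']
    linarith
  have hp0 : (0 : ℝ) < p := by
    have : 0 < K ^ 20000 := by positivity
    linarith
  have hVle : (V.card : ℝ) ≤ 16 * (p : ℝ) ^ 2 := by
    have h1 : (V.card : ℝ) ≤ (A.card : ℝ) ^ 2 := by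
      exact_mod_cast (Finset.card_le_card hVY).trans hYle
    have h2 : (A.card : ℝ) ^ 2 ≤ (2 * n) ^ 2 := pow_le_pow_left₀ hb0.le hb2 2
    have h3 : n ^ 2 ≤ (2 * (p : ℝ)) ^ 2 := pow_le_pow_left₀ hn.le hp1 2
    nlinarith
  have hn2 : (p : ℝ) ^ 2 ≤ n ^ 2 := by
    apply pow_le_pow_left₀ hp0.le
    rw [hn']
    linarith
  have hH0 : (0 : ℝ) < H.card := by exact_mod_cast Finset.card_pos.2 ⟨1, h1H⟩
  -- `H` moves every point
  have hmove : ∀ x : P1 p, ∃ h ∈ H, h • x ≠ x := by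
    intro x
    by_contra hcon
    push Not at hcon
    have h1 : ∑ h ∈ H, rp V h ≤ V.card * (2 * A.card) := by
      have h2 : ∑ h ∈ H, rp V h =
          ((V ×ˢ V).filter fun q => q.1 * q.2⁻¹ ∈ H).card := by
        rw [Finset.card_eq_sum_card_fiberwise (f := fun q : SL2 p × SL2 p => q.1 * q.2⁻¹)
          (t := H) (fun q hq => Finset.mem_coe.2 (Finset.mem_filter.1 (Finset.mem_coe.1 hq)).2)]
        apply Finset.sum_congr rfl
        intro h hh
        unfold rp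
        congr 1
        ext q
        simp only [Finset.mem_filter]
        constructor
        · rintro ⟨h1, h2⟩
          exact ⟨⟨h1, h2 ▸ hh⟩, h2⟩
        · rintro ⟨⟨h1, _⟩, h2⟩
          exact ⟨h1, h2⟩
      rw [h2]
      have h3 : ((V ×ˢ V).filter fun q => q.1 * q.2⁻¹ ∈ H) ⊆
          ((V ×ˢ V).filter fun q => q.1 • (q.2⁻¹ • x) = x) := by
        intro q hq
        rw [Finset.mem_filter] at hq ⊢
        refine ⟨hq.1, ?_⟩
        rw [← mul_smul]
        exact hcon _ hq.2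
      refine (Finset.card_le_card h3).trans ?_
      rw [Finset.card_filter, Finset.sum_product_right]
      rw [← smul_eq_mul, ← Finset.sum_const]
      apply Finset.sum_le_sum
      intro v _
      rw [← Finset.card_filter]
      refine le_trans ?_ (hconc (v⁻¹ • x) x)
      have h4 : (V.filter fun u => u • (v⁻¹ • x) = x) ⊆
          ((A ×ˢ A).filter fun q => quo q • (v⁻¹ • x) = x).image quo := by
        intro u hu
        rw [Finset.mem_filter] at hu
        have h5 := hVY hu.1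
        rw [hY, Finset.mem_image] at h5
        obtain ⟨q, hq, rfl⟩ := h5
        rw [Finset.mem_image]
        refine ⟨q, ?_, rfl⟩
        rw [Finset.mem_filter, Finset.mem_product]
        rw [Finset.mem_offDiag] at hq
        exact ⟨⟨hq.1, hq.2.1⟩, hu.2⟩
      exact (Finset.card_le_card h4).trans Finset.card_image_le
    have h2 : (H.card : ℝ) * V.card ≤ 2 * K ^ 145 * (V.card * (2 * A.card)) := by
      calc (H.card : ℝ) * V.card = ∑ h ∈ H, (V.card : ℝ) := by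
            rw [Finset.sum_const, nsmul_eq_mul]
        _ ≤ ∑ h ∈ H, 2 * K ^ 145 * (rp V h : ℝ) := Finset.sum_le_sum hHr
        _ = 2 * K ^ 145 * ∑ h ∈ H, (rp V h : ℝ) := by rw [Finset.mul_sum]
        _ ≤ 2 * K ^ 145 * (V.card * (2 * A.card)) := by
            apply mul_le_mul_of_nonneg_left _ (by positivity)
            exact_mod_cast h1
    have h3 : (H.card : ℝ) ≤ 4 * K ^ 145 * A.card := by
      have h4 : (V.card : ℝ) * H.card ≤ V.card * (4 * K ^ 145 * A.card) := by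
        refine le_trans (le_of_eq (by ring)) (h2.trans (le_of_eq (by ring)))
      exact le_of_mul_le_mul_left h4 hv0
    have h4 : (V.card : ℝ) ≤ 16 * K ^ 290 * n := by
      calc (V.card : ℝ) ≤ 2 * K ^ 145 * H.card := hHV
        _ ≤ 2 * K ^ 145 * (4 * K ^ 145 * A.card) := mul_le_mul_of_nonneg_left h3 (by positivity)
        _ ≤ 2 * K ^ 145 * (4 * K ^ 145 * (2 * n)) := by
            apply mul_le_mul_of_nonneg_left _ (by positivity)
            exact mul_le_mul_of_nonneg_left hb2 (by positivity)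
        _ = 16 * K ^ 290 * n := by ring
    have h5 : n ^ 2 ≤ 512 * K ^ 6 * (16 * K ^ 290 * n) :=
      hnv.trans (mul_le_mul_of_nonneg_left h4 (by positivity))
    have h6 : n * n ≤ (2 ^ 13 * K ^ 296) * n := by
      refine le_trans (le_of_eq (by ring)) (h5.trans (le_of_eq (by ring)))
    have h7 : n ≤ 2 ^ 13 * K ^ 296 := le_of_mul_le_mul_right h6 hn
    have h8 : 2 ^ 13 * K ^ 296 ≤ K ^ 309 := by
      calc 2 ^ 13 * K ^ 296 ≤ K ^ 13 * K ^ 296 :=
            mul_le_mul_of_nonneg_right (h2K 13) (by positivity)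
        _ = K ^ 309 := by ring
    have h9 : K ^ 309 ≤ K ^ 20000 := pow_le_pow_right₀ hK1 (by norm_num)
    rw [hn'] at h7
    linarith
  have hpiv : PivotHyp H (K ^ 3641) := by
    refine ⟨h1H, hHinv, one_le_pow₀ hK1, ?_, ?_, hmove, ?_⟩
    · calc (p : ℝ) ^ 2 ≤ n ^ 2 := hn2
        _ ≤ 512 * K ^ 6 * V.card := hnv
        _ ≤ 512 * K ^ 6 * (2 * K ^ 145 * H.card) := mul_le_mul_of_nonneg_left hHV (by positivity)
        _ = 2 ^ 10 * (K ^ 151 * H.card) := by ring
        _ ≤ K ^ 10 * (K ^ 151 * H.card) := mul_le_mul_of_nonneg_right (h2K 10) (by positivity)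
        _ = K ^ 161 * H.card := by ring
        _ ≤ K ^ 3641 * H.card := by
            apply mul_le_mul_of_nonneg_right _ hH0.le
            exact pow_le_pow_right₀ hK1 (by norm_num)
    · calc ((H ^ 12).card : ℝ) ≤ (2 * (K ^ 145) ^ 2) ^ 12 * K ^ 145 * V.card := hHk 12
        _ ≤ (2 * (K ^ 145) ^ 2) ^ 12 * K ^ 145 * (16 * (p : ℝ) ^ 2) :=
            mul_le_mul_of_nonneg_left hVle (by positivity)
        _ = 2 ^ 16 * (K ^ 3625 * (p : ℝ) ^ 2) := by ring
        _ ≤ K ^ 16 * (K ^ 3625 * (p : ℝ) ^ 2) :=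
            mul_le_mul_of_nonneg_right (h2K 16) (by positivity)
        _ = K ^ 3641 * (p : ℝ) ^ 2 := by ring
    · calc 10000 * (K ^ 3641) ^ 5 ≤ 2 ^ 14 * (K ^ 3641) ^ 5 :=
            mul_le_mul_of_nonneg_right (by norm_num) (by positivity)
        _ ≤ K ^ 14 * (K ^ 3641) ^ 5 := mul_le_mul_of_nonneg_right (h2K 14) (by positivity)
        _ = K ^ 18219 := by ring
        _ < K ^ 20000 := pow_lt_pow_right₀ (by linarith) (by norm_num)
        _ ≤ p := hp
  exact hpiv.false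

end Pool.Agent.Lib.MP_8dbdcc_co
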