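import Pool.Agent.Lib.MP_8dbdcc_co.Sl2b
import Pool.Agent.Lib.MP_8dbdcc_co.Apx

set_option autoImplicit false
set_option linter.unusedSectionVars false

/-!
# Approximate subgroups of `SL₂(𝔽_p)` of size about `p²` fix a point of the projective line
-/

namespace Pool.Agent.Lib.MP_8dbdcc_co

open Finset OnePoint
open scoped Pointwise

variable {p : ℕ} [Fact p.Prime]

/-- hypotheses of the pivot argument -/
structure PivotHyp (H : Finset (SL2 p)) (L : ℝ) : Prop where
  one : 1 ∈ H
  inv : ∀ g ∈ H, g⁻¹ ∈ H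
  L1 : 1 ≤ L
  big : (p : ℝ) ^ 2 ≤ L * H.card
  small : ((H ^ 12).card : ℝ) ≤ L * (p : ℝ) ^ 2
  move : ∀ x : P1 p, ∃ h ∈ H, h • x ≠ x
  large : 10000 * L ^ 5 < p

theorem card_P1 : Fintype.card (P1 p) = p + 1 := by
  have : Fintype.card (P1 p) = Fintype.card (Option (ZMod p)) := Fintype.card_congr (Equiv.refl _)
  rw [this, Fintype.card_option, ZMod.card]

namespace PivotHyp

variable {H : Finset (SL2 p)} {L : ℝ}

theorem p_pos (h : PivotHyp H L) : (1000 : ℝ) < p := by
  have h1 := h.L1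
  have : (1 : ℝ) ≤ L ^ 5 := one_le_pow₀ h1
  have := h.large
  linarith

theorem two_ne (h : PivotHyp H L) : (2 : ZMod p) ≠ 0 := by
  have h1 := h.p_pos
  have h2 : 1000 < p := by exact_mod_cast h1
  intro h3
  have h4 : ((2 : ℕ) : ZMod p) = 0 := by exact_mod_cast h3
  rw [ZMod.natCast_eq_zero_iff] at h4
  have := Nat.le_of_dvd (by norm_num) h4
  omega

theorem mul_sub (h : PivotHyp H L) : H * H ⊆ H ^ 4 := by
  rw [← pow_two]
  exact Finset.pow_subset_pow_right h.one (by norm_num)

theorem card_HH (h : PivotHyp H L) : ((H * H).card : ℝ) ≤ L * (p : ℝ) ^ 2 := by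
  refine le_trans ?_ h.small
  have : (H * H).card ≤ (H ^ 12).card := by
    rw [← pow_two]
    exact Finset.card_le_card (Finset.pow_subset_pow_right h.one (by norm_num))
  exact_mod_cast this

theorem inv_pow (h : PivotHyp H L) (k : ℕ) : ∀ g ∈ H ^ k, g⁻¹ ∈ H ^ k := by
  induction k with
  | zero =>
    intro g hg
    rw [pow_zero, Finset.mem_one] at hg ⊢
    rw [hg, inv_one]
  | succ k ih =>
    intro g hg
    rw [pow_succ] at hg
    obtain ⟨a, ha, b, hb, rfl⟩ := Finset.mem_mul.1 hg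
    rw [pow_succ', mul_inv_rev]
    exact Finset.mul_mem_mul (h.inv b hb) (ih a ha)

/-- few elements have a given trace -/
theorem trace_class (h : PivotHyp H L) (κ : ZMod p) :
    (((H ^ 6).filter fun g => tr g = κ).card : ℝ) ^ 2 ≤ 9 * L * (p : ℝ) ^ 3 := by
  classical
  set X := (H ^ 6).filter fun g => tr g = κ with hX
  have hp0 : (0 : ℝ) < p := by linarith [h.p_pos]
  have hsub : X⁻¹ * X ⊆ H ^ 12 := by
    intro w hw
    obtain ⟨a, ha, b, hb, rfl⟩ := Finset.mem_mul.1 hw
    obtain ⟨c, hc, rfl⟩ := Finset.mem_inv.1 ha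
    have e : H ^ 12 = H ^ 6 * H ^ 6 := by rw [← pow_add]
    rw [e]
    exact Finset.mul_mem_mul (h.inv_pow 6 c (Finset.mem_filter.1 hc).1) (Finset.mem_filter.1 hb).1
  have hfib : ∀ w ∈ X⁻¹ * X, ((X ×ˢ X).filter fun q => q.1⁻¹ * q.2 = w).card ≤
      4 * p + (if Sc w then X.card else 0) := by
    intro w _
    by_cases hw : Sc w
    · rw [if_pos hw]
      have : ((X ×ˢ X).filter fun q => q.1⁻¹ * q.2 = w).card ≤ X.card := by
        apply Finset.card_le_card_of_injOn (fun q => q.1)
        · intro q hq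
          exact (Finset.mem_product.1 (Finset.mem_filter.1 (Finset.mem_coe.1 hq)).1).1
        · rintro ⟨a, b⟩ h1 ⟨c, d⟩ h2 h3
          have h1' := (Finset.mem_filter.1 (Finset.mem_coe.1 h1)).2
          have h2' := (Finset.mem_filter.1 (Finset.mem_coe.1 h2)).2
          simp only at h3 h1' h2'
          subst h3
          rw [← h2'] at h1'
          rw [mul_left_cancel h1']
      omega
    · rw [if_neg hw, add_zero]
      refine le_trans ?_ (trace_fibre w κ hw)
      apply Finset.card_le_card_of_injOn (fun q => q.1)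
      · intro q hq
        have hq' := Finset.mem_filter.1 (Finset.mem_coe.1 hq)
        have hq1 := Finset.mem_product.1 hq'.1
        rw [Finset.mem_coe, Finset.mem_filter]
        refine ⟨Finset.mem_univ _, (Finset.mem_filter.1 hq1.1).2, ?_⟩
        have : q.1 * w = q.2 := by rw [← hq'.2]; group
        rw [this]
        exact (Finset.mem_filter.1 hq1.2).2
      · rintro ⟨a, b⟩ h1 ⟨c, d⟩ h2 h3
        have h1' := (Finset.mem_filter.1 (Finset.mem_coe.1 h1)).2
        have h2' := (Finset.mem_filter.1 (Finset.mem_coe.1 h2)).2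
        simp only at h3 h1' h2'
        subst h3
        rw [← h2'] at h1'
        rw [mul_left_cancel h1']
  have hcount : X.card ^ 2 ≤ 4 * p * (H ^ 12).card + 2 * X.card := by
    have h1 := Finset.card_eq_sum_card_fiberwise (f := fun q : SL2 p × SL2 p => q.1⁻¹ * q.2)
      (s := X ×ˢ X) (t := X⁻¹ * X) (by
        intro q hq
        have := Finset.mem_product.1 (Finset.mem_coe.1 hq)
        exact Finset.mem_coe.2 (Finset.mul_mem_mul (Finset.inv_mem_inv this.1) this.2))
    rw [Finset.card_product] at h1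
    rw [pow_two, h1]
    calc ∑ w ∈ X⁻¹ * X, ((X ×ˢ X).filter fun q => q.1⁻¹ * q.2 = w).card
        ≤ ∑ w ∈ X⁻¹ * X, (4 * p + (if Sc w then X.card else 0)) := Finset.sum_le_sum hfib
      _ = (X⁻¹ * X).card * (4 * p) + ((X⁻¹ * X).filter Sc).card * X.card := by
          rw [Finset.sum_add_distrib, Finset.sum_const, smul_eq_mul, ← Finset.sum_filter,
            Finset.sum_const, smul_eq_mul]
      _ ≤ (H ^ 12).card * (4 * p) + 2 * X.card := by
          apply Nat.add_le_add
          · exact Nat.mul_le_mul_right _ (Finset.card_le_card hsub)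
          · exact Nat.mul_le_mul_right _ (card_sc _ fun g hg => (Finset.mem_filter.1 hg).2)
      _ = 4 * p * (H ^ 12).card + 2 * X.card := by ring
  have h2 : (X.card : ℝ) ^ 2 ≤ 4 * p * ((H ^ 12).card : ℝ) + 2 * X.card := by
    exact_mod_cast hcount
  have h3 : 4 * (p : ℝ) * ((H ^ 12).card : ℝ) ≤ 4 * p * (L * (p : ℝ) ^ 2) :=
    mul_le_mul_of_nonneg_left h.small (by positivity)
  have h4 : (4 : ℝ) ≤ L * (p : ℝ) ^ 3 := by
    have h5 := h.L1
    have h6 := h.p_pos
    have h7 : (4 : ℝ) ^ 3 ≤ (p : ℝ) ^ 3 := pow_le_pow_left₀ (by norm_num) (by linarith) 3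
    nlinarith
  nlinarith [sq_nonneg ((X.card : ℝ) - 2)]

/-- elements commuting with a given element -/
theorem centralizer (h : PivotHyp H L) {t : SL2 p} (ht : t ∈ H ^ 4) :
    10 * L < (((H * H).filter fun c => c * t = t * c).card : ℝ) := by
  classical
  set θ := ((H * H).filter fun c => c * t = t * c).card with hθ
  set X := (H ^ 6).filter fun g => tr g = tr t with hX
  have hp0 : (0 : ℝ) < p := by linarith [h.p_pos]
  have hL := h.L1
  have h1 : H.card ≤ θ * (H.image fun g => g * t * g⁻¹).card := by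
    apply Finset.card_le_mul_card_image
    intro w hw
    obtain ⟨g₀, hg₀, rfl⟩ := Finset.mem_image.1 hw
    apply Finset.card_le_card_of_injOn (fun g => g₀⁻¹ * g)
    · intro g hg
      have hg' := Finset.mem_filter.1 (Finset.mem_coe.1 hg)
      rw [Finset.mem_coe, Finset.mem_filter]
      refine ⟨Finset.mul_mem_mul (h.inv _ hg₀) hg'.1, ?_⟩
      have e := hg'.2
      calc g₀⁻¹ * g * t = g₀⁻¹ * (g * t * g⁻¹) * g := by group
        _ = g₀⁻¹ * (g₀ * t * g₀⁻¹) * g := by rw [e]
        _ = t * (g₀⁻¹ * g) := by group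
    · intro a _ b _ hab
      exact mul_left_cancel hab
  have h2 : (H.image fun g => g * t * g⁻¹).card ≤ X.card := by
    apply Finset.card_le_card
    intro w hw
    obtain ⟨g, hg, rfl⟩ := Finset.mem_image.1 hw
    rw [hX, Finset.mem_filter]
    refine ⟨?_, tr_conj g t⟩
    have e : H ^ 6 = H * H ^ 4 * H := by
      rw [← pow_succ', ← pow_succ]
    rw [e]
    exact Finset.mul_mem_mul (Finset.mul_mem_mul hg ht) (h.inv g hg)
  have h3 : (H.card : ℝ) ≤ θ * X.card := by
    exact_mod_cast h1.trans (Nat.mul_le_mul_left _ h2)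
  have h4 := h.trace_class (tr t)
  have h5 : (p : ℝ) ^ 2 ≤ L * (θ * X.card) :=
    h.big.trans (mul_le_mul_of_nonneg_left h3 (by linarith))
  have h6 : ((p : ℝ) ^ 2) ^ 2 ≤ (L * (θ * X.card)) ^ 2 :=
    pow_le_pow_left₀ (by positivity) h5 2
  have h7 : (L * (θ * (X.card : ℝ))) ^ 2 ≤ L ^ 2 * (θ : ℝ) ^ 2 * (9 * L * (p : ℝ) ^ 3) := by
    calc (L * (θ * (X.card : ℝ))) ^ 2 = L ^ 2 * (θ : ℝ) ^ 2 * (X.card : ℝ) ^ 2 := by ring
      _ ≤ _ := mul_le_mul_of_nonneg_left h4 (by positivity)
  have h8 : (p : ℝ) ^ 3 * p ≤ (p : ℝ) ^ 3 * (9 * L ^ 3 * (θ : ℝ) ^ 2) := by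
    nlinarith
  have h9 : (p : ℝ) ≤ 9 * L ^ 3 * (θ : ℝ) ^ 2 := le_of_mul_le_mul_left h8 (by positivity)
  have h10 := h.large
  have h11 : L ^ 3 * (1000 * L ^ 2) < L ^ 3 * (9 * (θ : ℝ) ^ 2) := by nlinarith
  have h12 : 1000 * L ^ 2 < 9 * (θ : ℝ) ^ 2 := lt_of_mul_lt_mul_left h11 (by positivity)
  have h13 : (10 * L) ^ 2 < (θ : ℝ) ^ 2 := by nlinarith
  exact lt_of_pow_lt_pow_left₀ 2 (by positivity) h13

end PivotHyp

/-- the graph of involved pairs of points -/
def Edge (H : Finset (SL2 p)) (x y : P1 p) : Prop :=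
  x ≠ y ∧ ∃ t ∈ H * H, ¬ Sc t ∧ t • x = x ∧ t • y = y

theorem Edge.symm {H : Finset (SL2 p)} {x y : P1 p} (h : Edge H x y) : Edge H y x := by
  obtain ⟨h1, t, h2, h3, h4, h5⟩ := h
  exact ⟨h1.symm, t, h2, h3, h5, h4⟩

namespace PivotHyp

variable {H : Finset (SL2 p)} {L : ℝ}

/-- many elements of `H * H` fix both ends of an edge -/
theorem edge_many (h : PivotHyp H L) {x y : P1 p} {t : SL2 p} (hxy : x ≠ y) (ht : t ∈ H ^ 4)
    (hs : ¬ Sc t) (hx : t • x = x) (hy : t • y = y) :
    10 * L < (((H * H).filter fun c => c • x = x ∧ c • y = y).card : ℝ) := by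
  refine lt_of_lt_of_le (h.centralizer ht) ?_
  have : ((H * H).filter fun c => c * t = t * c).card ≤
      ((H * H).filter fun c => c • x = x ∧ c • y = y).card := by
    apply Finset.card_le_card
    intro c hc
    rw [Finset.mem_filter] at hc ⊢
    exact ⟨hc.1, commute_fix hxy hx hy hs hc.2⟩
  exact_mod_cast this

theorem exists_nsc {s : Finset (SL2 p)} (hs : 2 < s.card) : ∃ g ∈ s, ¬ Sc g := by
  by_contra hcon
  push Not at hcon
  have := card_sc s hcon
  omega

theorem edge_smul (h : PivotHyp H L) {x y : P1 p} (he : Edge H x y) {g : SL2 p} (hg : g ∈ H) :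
    Edge H (g • x) (g • y) := by
  obtain ⟨h1, t, h2, h3, h4, h5⟩ := he
  have hne : g • x ≠ g • y := fun h' => h1 (smul_left_cancel g h')
  have hmem : g * t * g⁻¹ ∈ H ^ 4 := by
    have e : H ^ 4 = H * (H * H) * H := by
      simp only [pow_succ, pow_zero, one_mul, mul_assoc]
    rw [e]
    exact Finset.mul_mem_mul (Finset.mul_mem_mul hg h2) (h.inv g hg)
  have h6 := h.edge_many hne hmem (fun hs => h3 (sc_conj g t hs)) (conj_fix h4) (conj_fix h5)
  have hL := h.L1
  have h7 : 2 < ((H * H).filter fun c => c • (g • x) = g • x ∧ c • (g • y) = g • y).card := by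
    have : (2 : ℝ) < (((H * H).filter fun c =>
      c • (g • x) = g • x ∧ c • (g • y) = g • y).card : ℝ) := by linarith
    exact_mod_cast this
  obtain ⟨c, hc, hcs⟩ := exists_nsc h7
  rw [Finset.mem_filter] at hc
  exact ⟨hne, c, hc.1, hcs, hc.2.1, hc.2.2⟩

theorem edge_smul2 (h : PivotHyp H L) {x y : P1 p} (he : Edge H x y) {g : SL2 p}
    (hg : g ∈ H * H) : Edge H (g • x) (g • y) := by
  obtain ⟨a, ha, b, hb, rfl⟩ := Finset.mem_mul.1 hg
  rw [mul_smul, mul_smul]
  exact h.edge_smul (h.edge_smul he hb) ha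

theorem edge_many' (h : PivotHyp H L) {x y : P1 p} (he : Edge H x y) :
    10 * L < (((H * H).filter fun c => c • x = x ∧ c • y = y).card : ℝ) := by
  obtain ⟨h1, t, h2, h3, h4, h5⟩ := he
  exact h.edge_many h1 (h.mul_sub h2) h3 h4 h5

/-- every point is fixed by many elements of `H * H` -/
theorem stab_many (h : PivotHyp H L) (x : P1 p) :
    H.card ≤ (p + 1) * ((H * H).filter fun t => t • x = x).card := by
  classical
  have h1 : H.card ≤ ((H * H).filter fun t => t • x = x).card * (H.image fun g => g • x).card := by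
    apply Finset.card_le_mul_card_image
    intro w hw
    obtain ⟨g₀, hg₀, rfl⟩ := Finset.mem_image.1 hw
    apply Finset.card_le_card_of_injOn (fun g => g₀⁻¹ * g)
    · intro g hg
      have hg' := Finset.mem_filter.1 (Finset.mem_coe.1 hg)
      rw [Finset.mem_coe, Finset.mem_filter]
      refine ⟨Finset.mul_mem_mul (h.inv _ hg₀) hg'.1, ?_⟩
      rw [mul_smul, hg'.2, inv_smul_smul]
    · intro a _ b _ hab
      exact mul_left_cancel hab
  have h2 : (H.image fun g => g • x).card ≤ p + 1 := by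
    rw [← card_P1 (p := p)]
    exact Finset.card_le_univ _
  calc H.card ≤ _ := h1
    _ ≤ ((H * H).filter fun t => t • x = x).card * (p + 1) := Nat.mul_le_mul_left _ h2
    _ = _ := by ring

theorem stab_big (h : PivotHyp H L) (x : P1 p) :
    (p : ℝ) ≤ 2 * L * (((H * H).filter fun t => t • x = x).card : ℝ) := by
  have h1 := h.stab_many x
  have h2 : (H.card : ℝ) ≤ ((p : ℝ) + 1) * (((H * H).filter fun t => t • x = x).card : ℝ) := by
    exact_mod_cast h1
  set T : ℝ := (((H * H).filter fun t => t • x = x).card : ℝ) with hT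
  have hT0 : 0 ≤ T := by rw [hT]; positivity
  have hL := h.L1
  have hp := h.p_pos
  have h3 : (p : ℝ) ^ 2 ≤ L * (((p : ℝ) + 1) * T) :=
    h.big.trans (mul_le_mul_of_nonneg_left h2 (by linarith))
  have h4 : (p : ℝ) * p ≤ p * (2 * L * T) := by
    have h5 : 0 ≤ L * T := by positivity
    nlinarith
  exact le_of_mul_le_mul_left h4 (by linarith)

end PivotHyp

end Pool.Agent.Lib.MP_8dbdcc_co
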