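import Pool.Agent.Lib.MP_8dbdcc_co.Pivot

set_option autoImplicit false
set_option linter.unusedSectionVars false

/-!
# The pivot argument: the graph of involved pairs
-/

namespace Pool.Agent.Lib.MP_8dbdcc_co

open Finset OnePoint
open scoped Pointwise

variable {p : ℕ} [Fact p.Prime]

theorem fix_card {t : SL2 p} (ht : ¬ Sc t) :
    (Finset.univ.filter fun x : P1 p => t • x = x).card ≤ 2 := by
  classical
  by_contra hcon
  push Not at hcon
  obtain ⟨x, hx, y, hy, z, hz, hxy, hxz, hyz⟩ := Finset.two_lt_card.1 hcon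
  exact ht (sc_of_three hxy hxz hyz (Finset.mem_filter.1 hx).2 (Finset.mem_filter.1 hy).2
    (Finset.mem_filter.1 hz).2)

namespace PivotHyp

variable {H : Finset (SL2 p)} {L : ℝ}

/-- A point with two neighbours is joined to all points. -/
theorem sum_trick (h : PivotHyp H L) {x y y' : P1 p} (hy : Edge H x y) (hy' : Edge H x y')
    (hne : y ≠ y') {z : P1 p} (hz : z ≠ x) : Edge H x z := by
  classical
  obtain ⟨c, hinj, hsurj, hc⟩ := affine_coord x
  set N := Finset.univ.filter fun z : P1 p => Edge H x z with hN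
  have key : ∀ y, Edge H x y → ∑ z ∈ N, c z = (N.card : ZMod p) * c y := by
    intro y hy
    obtain ⟨hxy, t, ht, hs, htx, hty⟩ := hy
    obtain ⟨a, b, hab, hsc, _⟩ := hc t htx
    have h1 : c y = a * c y + b := by
      rw [← hab y hxy.symm, hty]
    have ha : a ≠ 1 := by
      intro ha
      apply hs
      apply hsc ha
      rw [ha] at h1
      linear_combination -h1
    have himg : N.image (fun z => t • z) = N := by
      apply Finset.eq_of_subset_of_card_le
      · intro w hw
        obtain ⟨z, hz, rfl⟩ := Finset.mem_image.1 hw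
        rw [hN, Finset.mem_filter] at hz ⊢
        refine ⟨Finset.mem_univ _, ?_⟩
        have := h.edge_smul2 hz.2 ht
        rwa [htx] at this
      · rw [Finset.card_image_of_injective _ (MulAction.injective t)]
    have h2 : ∑ z ∈ N, c z = ∑ z ∈ N, (a * c z + b) := by
      conv_lhs => rw [← himg]
      rw [Finset.sum_image (fun z _ w _ hzw => MulAction.injective t hzw)]
      apply Finset.sum_congr rfl
      intro z hz
      rw [hN, Finset.mem_filter] at hz
      exact hab z hz.2.1.symm
    rw [Finset.sum_add_distrib, ← Finset.mul_sum, Finset.sum_const, nsmul_eq_mul] at h2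
    have h3 : (1 - a) * (∑ z ∈ N, c z) = (1 - a) * ((N.card : ZMod p) * c y) := by
      linear_combination h2 - (N.card : ZMod p) * h1
    exact mul_left_cancel₀ (sub_ne_zero.2 ha.symm) h3
  have h1 := key y hy
  have h2 := key y' hy'
  have hcne : c y ≠ c y' := fun h' => hne (hinj y y' hy.1.symm hy'.1.symm h')
  have h3 : (N.card : ZMod p) = 0 := by
    have : (N.card : ZMod p) * (c y - c y') = 0 := by linear_combination h2 - h1
    rcases mul_eq_zero.1 this with h4 | h4
    · exact h4
    · exact absurd (sub_eq_zero.1 h4) hcne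
  rw [ZMod.natCast_eq_zero_iff] at h3
  have hyN : y ∈ N := Finset.mem_filter.2 ⟨Finset.mem_univ _, hy⟩
  have h4 : p ≤ N.card := Nat.le_of_dvd (Finset.card_pos.2 ⟨y, hyN⟩) h3
  have h5 : N = Finset.univ.erase x := by
    apply Finset.eq_of_subset_of_card_le
    · intro w hw
      rw [hN, Finset.mem_filter] at hw
      exact Finset.mem_erase.2 ⟨hw.2.1.symm, Finset.mem_univ _⟩
    · rw [Finset.card_erase_of_mem (Finset.mem_univ _), Finset.card_univ, card_P1]
      omega
  have h6 : z ∈ N := by
    rw [h5]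
    exact Finset.mem_erase.2 ⟨hz, Finset.mem_univ _⟩
  exact (Finset.mem_filter.1 h6).2

/-- The graph is not complete. -/
theorem not_full (h : PivotHyp H L) (x : P1 p) (hx : ∀ z, z ≠ x → Edge H x z) : False := by
  classical
  obtain ⟨g, hg, hgx⟩ := h.move x
  have hx' : ∀ z, z ≠ g • x → Edge H (g • x) z := by
    intro z hz
    have h1 : g⁻¹ • z ≠ x := by
      intro h2
      apply hz
      rw [← h2, smul_inv_smul]
    have h3 := h.edge_smul (hx _ h1) hg
    rwa [smul_inv_smul] at h3
  have hall : ∀ z w : P1 p, z ≠ w → Edge H z w := by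
    intro z w hzw
    by_cases h1 : z = x
    · rw [h1] at hzw ⊢
      exact hx w hzw.symm
    by_cases h2 : z = g • x
    · rw [h2] at hzw ⊢
      exact hx' w hzw.symm
    exact h.sum_trick (hx z h1).symm (hx' z h2).symm hgx.symm hzw.symm
  set P := (H * H).filter fun t => ¬ Sc t with hP
  have hlow : ∀ q ∈ (Finset.univ : Finset (P1 p)).offDiag,
      8 * L ≤ ((P.filter fun t => t • q.1 = q.1 ∧ t • q.2 = q.2).card : ℝ) := by
    intro q hq
    rw [Finset.mem_offDiag] at hq
    have h1 := h.edge_many' (hall q.1 q.2 hq.2.2)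
    set A := (H * H).filter fun c => c • q.1 = q.1 ∧ c • q.2 = q.2 with hA
    have h2 : A.card ≤ (P.filter fun t => t • q.1 = q.1 ∧ t • q.2 = q.2).card + 2 := by
      have h3 := Finset.card_filter_add_card_filter_not (s := A) (fun t => Sc t)
      have h4 : (A.filter fun t => Sc t).card ≤ 2 :=
        card_sc _ fun t ht => (Finset.mem_filter.1 ht).2
      have h5 : A.filter (fun t => ¬ Sc t) =
          P.filter fun t => t • q.1 = q.1 ∧ t • q.2 = q.2 := by
        ext t
        simp only [hA, hP, Finset.mem_filter]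
        tauto
      rw [h5] at h3
      omega
    have h3 : (A.card : ℝ) ≤
        ((P.filter fun t => t • q.1 = q.1 ∧ t • q.2 = q.2).card : ℝ) + 2 := by
      exact_mod_cast h2
    have := h.L1
    linarith
  have hup : ∑ q ∈ (Finset.univ : Finset (P1 p)).offDiag,
      (P.filter fun t => t • q.1 = q.1 ∧ t • q.2 = q.2).card ≤ 2 * P.card := by
    simp only [Finset.card_filter]
    rw [Finset.sum_comm]
    calc ∑ t ∈ P, ∑ q ∈ (Finset.univ : Finset (P1 p)).offDiag,
          (if t • q.1 = q.1 ∧ t • q.2 = q.2 then 1 else 0) ≤ ∑ t ∈ P, 2 := by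
          apply Finset.sum_le_sum
          intro t ht
          rw [← Finset.card_filter]
          have h1 := fix_card (Finset.mem_filter.1 ht).2
          set Fx := Finset.univ.filter fun x : P1 p => t • x = x with hFx
          have h2 : ((Finset.univ : Finset (P1 p)).offDiag.filter fun q =>
              t • q.1 = q.1 ∧ t • q.2 = q.2) = Fx.offDiag := by
            ext q
            simp only [Finset.mem_filter, Finset.mem_offDiag, Finset.mem_univ, true_and, hFx]
            tauto
          rw [h2, Finset.offDiag_card]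
          interval_cases hh : Fx.card <;> omega
      _ = 2 * P.card := by rw [Finset.sum_const, smul_eq_mul, mul_comm]
  have hcardoff : (Finset.univ : Finset (P1 p)).offDiag.card = p * (p + 1) := by
    rw [Finset.offDiag_card, Finset.card_univ, card_P1]
    have : (p + 1) * (p + 1) = p * (p + 1) + (p + 1) := by ring
    omega
  have h1 : ((p : ℝ) * (p + 1)) * (8 * L) ≤ 2 * (P.card : ℝ) := by
    have h2 := Finset.sum_le_sum hlow
    rw [Finset.sum_const, nsmul_eq_mul, hcardoff, ← Nat.cast_sum] at h2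
    have h3 : ((∑ q ∈ (Finset.univ : Finset (P1 p)).offDiag,
      (P.filter fun t => t • q.1 = q.1 ∧ t • q.2 = q.2).card : ℕ) : ℝ) ≤ 2 * (P.card : ℝ) := by
      exact_mod_cast hup
    push_cast at h2 h3
    linarith
  have h2 : (P.card : ℝ) ≤ L * (p : ℝ) ^ 2 := by
    refine le_trans ?_ h.card_HH
    exact_mod_cast Finset.card_filter_le _ _
  have hL := h.L1
  have hp := h.p_pos
  have h3 : 0 < (p : ℝ) * L := by positivity
  nlinarith

/-- If there is an edge and all degrees are at most one, then there are no isolated points. -/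
theorem no_isolated (h : PivotHyp H L)
    (hdeg : ∀ x y y' : P1 p, Edge H x y → Edge H x y' → y = y') (x : P1 p)
    (hx : ∀ y, ¬ Edge H x y) {z₀ w₀ : P1 p} (he : Edge H z₀ w₀) : False := by
  classical
  have hz₀ : z₀ ≠ x := fun h' => hx w₀ (h' ▸ he)
  have hw₀ : w₀ ≠ x := fun h' => hx z₀ (h' ▸ he.symm)
  have hL := h.L1
  have hp := h.p_pos
  have hbig := h.stab_big x
  have hcard : 2 < ((H * H).filter fun t => t • x = x).card := by
    by_contra hcon
    push Not at hcon
    have h1 : (((H * H).filter fun t => t • x = x).card : ℝ) ≤ 2 := by exact_mod_cast hcon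
    have h2 := h.large
    have h3 : (1 : ℝ) ≤ L ^ 4 := one_le_pow₀ hL
    have h4 : L ≤ L ^ 5 := by nlinarith
    nlinarith
  obtain ⟨u, hu, hus⟩ := exists_nsc hcard
  rw [Finset.mem_filter] at hu
  obtain ⟨c, hinj, hsurj, hc⟩ := affine_coord x
  obtain ⟨a, b, hab, hsc, _⟩ := hc u hu.2
  have hux : ∀ y, y ≠ x → u • y ≠ x := by
    intro y hy h'
    rw [← hu.2] at h'
    exact hy (smul_left_cancel u h')
  have ha : a = 1 := by
    by_contra ha
    obtain ⟨y, hy, hcy⟩ := hsurj (b / (1 - a))
    apply hx y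
    refine ⟨hy.symm, u, hu.1, hus, hu.2, ?_⟩
    apply hinj _ _ (hux y hy) hy
    rw [hab y hy, hcy]
    have : (1 - a) ≠ 0 := sub_ne_zero.2 (Ne.symm ha)
    field_simp
    ring
  have hb : b ≠ 0 := fun hb => hus (hsc ha hb)
  have hpow : ∀ k : ℕ, ∀ y, y ≠ x → u ^ k • y ≠ x ∧ c (u ^ k • y) = c y + k * b := by
    intro k
    induction k with
    | zero =>
      intro y hy
      simp [hy]
    | succ k ih =>
      intro y hy
      obtain ⟨h1, h2⟩ := ih y hy
      rw [pow_succ', mul_smul]
      refine ⟨hux _ h1, ?_⟩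
      rw [hab _ h1, h2, ha]
      push_cast
      ring
  have hedge : ∀ k : ℕ, Edge H (u ^ k • z₀) (u ^ k • w₀) := by
    intro k
    induction k with
    | zero => simpa using he
    | succ k ih =>
      rw [pow_succ', mul_smul, mul_smul]
      exact h.edge_smul2 ih hu.1
  set k := ((c w₀ - c z₀) / b).val with hk
  have hkv : (k : ZMod p) = (c w₀ - c z₀) / b := by
    rw [hk, ZMod.natCast_zmod_val]
  have h1 : u ^ k • z₀ = w₀ := by
    apply hinj _ _ (hpow k z₀ hz₀).1 hw₀
    rw [(hpow k z₀ hz₀).2, hkv]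
    field_simp
    ring
  have h2 := hedge k
  rw [h1] at h2
  have h3 : u ^ k • w₀ = z₀ := hdeg _ _ _ h2 he.symm
  have h4 := (hpow k w₀ hw₀).2
  rw [h3, hkv] at h4
  have h5 : (2 : ZMod p) * (c w₀ - c z₀) = 0 := by
    field_simp at h4
    linear_combination -h4
  rcases mul_eq_zero.1 h5 with h6 | h6
  · exact h.two_ne h6
  · exact he.1 (hinj _ _ hz₀ hw₀ (sub_eq_zero.1 h6).symm)

/-- There is an edge. -/
theorem exists_edge (h : PivotHyp H L) (hno : ∀ x y : P1 p, ¬ Edge H x y) : False := by
  classical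
  have hL := h.L1
  have hp := h.p_pos
  set Q := (H * H).filter fun t => tr t = 2 ∨ tr t = -2 with hQ
  have htr : ∀ x : P1 p, ∀ t ∈ H * H, t • x = x → ¬ Sc t → t ∈ Q := by
    intro x t ht htx hts
    rw [hQ, Finset.mem_filter]
    refine ⟨ht, ?_⟩
    obtain ⟨c, hinj, hsurj, hc⟩ := affine_coord x
    obtain ⟨a, b, hab, hsc, htr⟩ := hc t htx
    apply htr
    by_contra ha
    obtain ⟨y, hy, hcy⟩ := hsurj (b / (1 - a))
    apply hno x y
    refine ⟨hy.symm, t, ht, hts, htx, ?_⟩
    have hty : t • y ≠ x := by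
      intro h'
      rw [← htx] at h'
      exact hy (smul_left_cancel t h')
    apply hinj _ _ hty hy
    rw [hab y hy, hcy]
    have : (1 - a) ≠ 0 := sub_ne_zero.2 (Ne.symm ha)
    field_simp
    ring
  -- double counting
  set P := (H * H).filter fun t => ¬ Sc t with hP
  have hup : ∑ x : P1 p, (P.filter fun t => t • x = x).card ≤ 2 * Q.card := by
    simp only [Finset.card_filter]
    rw [Finset.sum_comm]
    have h1 : ∀ t ∈ P, ∑ x : P1 p, (if t • x = x then 1 else 0) ≤ if t ∈ Q then 2 else 0 := by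
      intro t ht
      rw [← Finset.card_filter]
      have ht' := Finset.mem_filter.1 ht
      split_ifs with hq
      · exact fix_card ht'.2
      · rw [Nat.le_zero, Finset.card_eq_zero, Finset.filter_eq_empty_iff]
        intro x _ hx
        exact hq (htr x t ht'.1 hx ht'.2)
    calc ∑ t ∈ P, ∑ x : P1 p, (if t • x = x then 1 else 0)
        ≤ ∑ t ∈ P, (if t ∈ Q then 2 else 0) := Finset.sum_le_sum h1
      _ = (P.filter fun t => t ∈ Q).card * 2 := by
          rw [← Finset.sum_filter, Finset.sum_const, smul_eq_mul]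
      _ ≤ Q.card * 2 := by
          apply Nat.mul_le_mul_right
          apply Finset.card_le_card
          intro t ht
          exact (Finset.mem_filter.1 ht).2
      _ = 2 * Q.card := by ring
  have hlow : ∀ x ∈ (Finset.univ : Finset (P1 p)),
      (p : ℝ) / (4 * L) ≤ ((P.filter fun t => t • x = x).card : ℝ) := by
    intro x _
    have h1 := h.stab_big x
    set A := (H * H).filter fun t => t • x = x with hA
    have h2 : A.card ≤ (P.filter fun t => t • x = x).card + 2 := by
      have h3 := Finset.card_filter_add_card_filter_not (s := A) (fun t => Sc t)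
      have h4 : (A.filter fun t => Sc t).card ≤ 2 :=
        card_sc _ fun t ht => (Finset.mem_filter.1 ht).2
      have h5 : A.filter (fun t => ¬ Sc t) = P.filter fun t => t • x = x := by
        ext t
        simp only [hA, hP, Finset.mem_filter]
        tauto
      rw [h5] at h3
      omega
    have h3 : (A.card : ℝ) ≤ ((P.filter fun t => t • x = x).card : ℝ) + 2 := by
      exact_mod_cast h2
    rw [div_le_iff₀ (by positivity)]
    have h4 := h.large
    have h5 : (1 : ℝ) ≤ L ^ 4 := one_le_pow₀ hL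
    have h6 : L ≤ L ^ 5 := by nlinarith
    nlinarith
  have h1 : ((p : ℝ) + 1) * ((p : ℝ) / (4 * L)) ≤ 2 * (Q.card : ℝ) := by
    have h2 := Finset.sum_le_sum hlow
    rw [Finset.sum_const, nsmul_eq_mul, Finset.card_univ, card_P1, ← Nat.cast_sum] at h2
    have h3 : ((∑ x : P1 p, (P.filter fun t => t • x = x).card : ℕ) : ℝ) ≤
      2 * (Q.card : ℝ) := by exact_mod_cast hup
    push_cast at h2 h3
    linarith
  have h2 : (Q.card : ℝ) ≤ (((H ^ 6).filter fun g => tr g = 2).card : ℝ) +
      (((H ^ 6).filter fun g => tr g = -2).card : ℝ) := by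
    have h3 : Q ⊆ ((H ^ 6).filter fun g => tr g = 2) ∪ ((H ^ 6).filter fun g => tr g = -2) := by
      intro t ht
      rw [hQ, Finset.mem_filter] at ht
      have h4 : t ∈ H ^ 6 := by
        have : H * H ⊆ H ^ 6 := by
          rw [← pow_two]
          exact Finset.pow_subset_pow_right h.one (by norm_num)
        exact this ht.1
      rw [Finset.mem_union, Finset.mem_filter, Finset.mem_filter]
      rcases ht.2 with h5 | h5
      · exact Or.inl ⟨h4, h5⟩
      · exact Or.inr ⟨h4, h5⟩
    exact_mod_cast (Finset.card_le_card h3).trans (Finset.card_union_le _ _)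
  have h3 := h.trace_class 2
  have h4 := h.trace_class (-2)
  set m := (((H ^ 6).filter fun g => tr g = 2).card : ℝ) with hm
  set m' := (((H ^ 6).filter fun g => tr g = -2).card : ℝ) with hm'
  have h5 : (p : ℝ) ^ 2 / (4 * L) ≤ 2 * (m + m') := by
    have h6 : (p : ℝ) ^ 2 / (4 * L) ≤ ((p : ℝ) + 1) * ((p : ℝ) / (4 * L)) := by
      have : ((p : ℝ) + 1) * ((p : ℝ) / (4 * L)) = (p : ℝ) ^ 2 / (4 * L) + p / (4 * L) := by ring
      rw [this]
      have : 0 ≤ (p : ℝ) / (4 * L) := by positivity
      linarith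
    linarith
  have h6 : ((p : ℝ) ^ 2 / (4 * L)) ^ 2 ≤ (2 * (m + m')) ^ 2 :=
    pow_le_pow_left₀ (by positivity) h5 2
  have h7 : (2 * (m + m')) ^ 2 ≤ 144 * L * (p : ℝ) ^ 3 := by
    nlinarith [sq_nonneg (m - m')]
  have h8 : ((p : ℝ) ^ 2 / (4 * L)) ^ 2 = (p : ℝ) ^ 4 / (16 * L ^ 2) := by
    rw [div_pow]
    ring
  rw [h8] at h6
  have h9 : (p : ℝ) ^ 4 ≤ 144 * L * (p : ℝ) ^ 3 * (16 * L ^ 2) := by
    rw [← div_le_iff₀ (by positivity)]
    linarith
  have h10 : (p : ℝ) ^ 3 * p ≤ (p : ℝ) ^ 3 * (2304 * L ^ 3) := by nlinarith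
  have h11 : (p : ℝ) ≤ 2304 * L ^ 3 := le_of_mul_le_mul_left h10 (by positivity)
  have h12 := h.large
  have h13 : (1 : ℝ) ≤ L ^ 2 := one_le_pow₀ hL
  have h14 : 0 < L ^ 3 := by positivity
  nlinarith

end PivotHyp

end Pool.Agent.Lib.MP_8dbdcc_co
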