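import Mathlib

set_option autoImplicit false

/-!
# The group `SL₂(𝔽_p)` acting on the projective line
-/

namespace Pool.Agent.Lib.MP_8dbdcc_co

open Finset OnePoint

/-- the group -/
abbrev SL2 (p : ℕ) := Matrix.SpecialLinearGroup (Fin 2) (ZMod p)

/-- the projective line -/
abbrev P1 (p : ℕ) := OnePoint (ZMod p)

set_option linter.unusedSectionVars false

variable {p : ℕ} [Fact p.Prime]

noncomputable instance actSL2 : MulAction (SL2 p) (P1 p) :=
  MulAction.compHom (P1 p) (Matrix.SpecialLinearGroup.toGL (n := Fin 2) (R := ZMod p))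

noncomputable instance : DecidableEq (P1 p) := Classical.decEq _

theorem smul_inf (g : SL2 p) :
    g • (∞ : P1 p) = if g 1 0 = 0 then ∞ else ((g 0 0 / g 1 0 : ZMod p) : P1 p) := by
  have h : g • (∞ : P1 p) = (Matrix.SpecialLinearGroup.toGL g) • (∞ : P1 p) := rfl
  rw [h, OnePoint.smul_infty_eq_ite]
  rfl

theorem smul_fin (g : SL2 p) (z : ZMod p) :
    g • (z : P1 p) = if g 1 0 * z + g 1 1 = 0 then ∞ else
      (((g 0 0 * z + g 0 1) / (g 1 0 * z + g 1 1) : ZMod p) : P1 p) := by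
  have h : g • (z : P1 p) = (Matrix.SpecialLinearGroup.toGL g) • (z : P1 p) := rfl
  rw [h, OnePoint.smul_some_eq_ite]
  rfl

theorem det_eq (g : SL2 p) : g 0 0 * g 1 1 - g 0 1 * g 1 0 = 1 := by
  have := g.2
  rwa [Matrix.det_fin_two] at this

/-- scalar elements -/
def Sc (g : SL2 p) : Prop := g 0 1 = 0 ∧ g 1 0 = 0 ∧ g 0 0 = g 1 1

noncomputable instance : DecidablePred (Sc (p := p)) := Classical.decPred _

/-- constructor -/
def mk2 (a b c d : ZMod p) (h : a * d - b * c = 1) : SL2 p :=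
  ⟨!![a, b; c, d], by rw [Matrix.det_fin_two_of]; exact h⟩

@[simp] theorem mk2_00 (a b c d : ZMod p) (h : a * d - b * c = 1) : mk2 a b c d h 0 0 = a := rfl
@[simp] theorem mk2_01 (a b c d : ZMod p) (h : a * d - b * c = 1) : mk2 a b c d h 0 1 = b := rfl
@[simp] theorem mk2_10 (a b c d : ZMod p) (h : a * d - b * c = 1) : mk2 a b c d h 1 0 = c := rfl
@[simp] theorem mk2_11 (a b c d : ZMod p) (h : a * d - b * c = 1) : mk2 a b c d h 1 1 = d := rfl

theorem ext2 {g h : SL2 p} (h00 : g 0 0 = h 0 0) (h01 : g 0 1 = h 0 1) (h10 : g 1 0 = h 1 0)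
    (h11 : g 1 1 = h 1 1) : g = h := by
  rw [Matrix.SpecialLinearGroup.ext_iff]
  intro i j
  fin_cases i <;> fin_cases j
  · exact h00
  · exact h01
  · exact h10
  · exact h11

theorem mul00 (g h : SL2 p) : (g * h) 0 0 = g 0 0 * h 0 0 + g 0 1 * h 1 0 := by
  simp [Matrix.mul_apply, Fin.sum_univ_two]

theorem mul01 (g h : SL2 p) : (g * h) 0 1 = g 0 0 * h 0 1 + g 0 1 * h 1 1 := by
  simp [Matrix.mul_apply, Fin.sum_univ_two]

theorem mul10 (g h : SL2 p) : (g * h) 1 0 = g 1 0 * h 0 0 + g 1 1 * h 1 0 := by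
  simp [Matrix.mul_apply, Fin.sum_univ_two]

theorem mul11 (g h : SL2 p) : (g * h) 1 1 = g 1 0 * h 0 1 + g 1 1 * h 1 1 := by
  simp [Matrix.mul_apply, Fin.sum_univ_two]

theorem inv00 (g : SL2 p) : g⁻¹ 0 0 = g 1 1 := by
  rw [Matrix.SpecialLinearGroup.coe_inv, Matrix.adjugate_fin_two]; rfl

theorem inv01 (g : SL2 p) : g⁻¹ 0 1 = - g 0 1 := by
  rw [Matrix.SpecialLinearGroup.coe_inv, Matrix.adjugate_fin_two]; rfl

theorem inv10 (g : SL2 p) : g⁻¹ 1 0 = - g 1 0 := by
  rw [Matrix.SpecialLinearGroup.coe_inv, Matrix.adjugate_fin_two]; rfl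

theorem inv11 (g : SL2 p) : g⁻¹ 1 1 = g 0 0 := by
  rw [Matrix.SpecialLinearGroup.coe_inv, Matrix.adjugate_fin_two]; rfl

theorem one00 : (1 : SL2 p) 0 0 = 1 := rfl
theorem one01 : (1 : SL2 p) 0 1 = 0 := rfl
theorem one10 : (1 : SL2 p) 1 0 = 0 := rfl
theorem one11 : (1 : SL2 p) 1 1 = 1 := rfl

/-- the trace -/
def tr (g : SL2 p) : ZMod p := g 0 0 + g 1 1

theorem tr_conj (h g : SL2 p) : tr (h * g * h⁻¹) = tr g := by
  unfold tr
  rw [mul00, mul11, mul00, mul01, mul10, mul11, inv00, inv01, inv10, inv11]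
  have := det_eq h
  linear_combination (g 0 0 + g 1 1) * this

theorem sc_comm {k : SL2 p} (hk : Sc k) (h : SL2 p) : k * h = h * k := by
  obtain ⟨h1, h2, h3⟩ := hk
  apply ext2
  · rw [mul00, mul00, h1, h2]; ring
  · rw [mul01, mul01, h1, h3]; ring
  · rw [mul10, mul10, h2, h3]; ring
  · rw [mul11, mul11, h1, h2]; ring

theorem sc_conj (h g : SL2 p) (hs : Sc (h * g * h⁻¹)) : Sc g := by
  have h1 := sc_comm hs h
  have h2 : h * g = h * (h * g * h⁻¹) := by
    rw [← h1]
    group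
  have h3 : g = h * g * h⁻¹ := mul_left_cancel h2
  rw [h3]
  exact hs

theorem sc_conj' (h g : SL2 p) (hs : Sc g) : Sc (h * g * h⁻¹) := by
  rw [← sc_comm hs h, mul_assoc, mul_inv_cancel, mul_one]
  exact hs

theorem sc_cases {g : SL2 p} (h : Sc g) : g = 1 ∨ g = mk2 (-1) 0 0 (-1) (by ring) := by
  obtain ⟨h1, h2, h3⟩ := h
  have hd := det_eq g
  rw [h1, h2, ← h3, zero_mul, sub_zero] at hd
  rcases mul_self_eq_one_iff.1 hd with h4 | h4
  · left
    exact ext2 (by rw [h4, one00]) (by rw [h1, one01]) (by rw [h2, one10])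
      (by rw [← h3, h4, one11])
  · right
    exact ext2 (by rw [h4, mk2_00]) (by rw [h1, mk2_01]) (by rw [h2, mk2_10])
      (by rw [← h3, h4, mk2_11])

theorem card_sc (s : Finset (SL2 p)) (hs : ∀ g ∈ s, Sc g) : s.card ≤ 2 := by
  have : s ⊆ {1, mk2 (-1) 0 0 (-1) (by ring)} := by
    intro g hg
    rw [Finset.mem_insert, Finset.mem_singleton]
    exact sc_cases (hs g hg)
  exact (Finset.card_le_card this).trans Finset.card_le_two

theorem rel_fin (g : SL2 p) (z w : ZMod p) :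
    g • (z : P1 p) = (w : P1 p) ↔ g 0 0 * z + g 0 1 = w * (g 1 0 * z + g 1 1) := by
  have hd := det_eq g
  rw [smul_fin]
  split_ifs with h
  · constructor
    · intro h'
      exact absurd h' (OnePoint.infty_ne_coe w)
    · intro h'
      rw [h, mul_zero] at h'
      exfalso
      have : (1 : ZMod p) = 0 := by
        rw [← hd]
        linear_combination (g 0 0) * h - (g 1 0) * h'
      exact one_ne_zero this
  · rw [OnePoint.coe_eq_coe, div_eq_iff h]

theorem rel_fin_inf (g : SL2 p) (z : ZMod p) :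
    g • (z : P1 p) = ∞ ↔ g 1 0 * z + g 1 1 = 0 := by
  rw [smul_fin]
  split_ifs with h
  · exact ⟨fun _ => h, fun _ => rfl⟩
  · constructor
    · intro h'
      exact absurd h' (OnePoint.coe_ne_infty _)
    · intro h'
      exact absurd h' h

theorem rel_inf_fin (g : SL2 p) (w : ZMod p) :
    g • (∞ : P1 p) = (w : P1 p) ↔ g 0 0 = w * g 1 0 := by
  have hd := det_eq g
  rw [smul_inf]
  split_ifs with h
  · constructor
    · intro h'
      exact absurd h' (OnePoint.infty_ne_coe w)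
    · intro h'
      rw [h, mul_zero] at h'
      exfalso
      rw [h, h'] at hd
      simp at hd
  · rw [OnePoint.coe_eq_coe, div_eq_iff h]

theorem rel_inf_inf (g : SL2 p) : g • (∞ : P1 p) = ∞ ↔ g 1 0 = 0 := by
  rw [smul_inf]
  split_ifs with h
  · exact ⟨fun _ => h, fun _ => rfl⟩
  · constructor
    · intro h'
      exact absurd h' (OnePoint.coe_ne_infty _)
    · intro h'
      exact absurd h' h

theorem fix_zero (g : SL2 p) : g • ((0 : ZMod p) : P1 p) = ((0 : ZMod p) : P1 p) ↔ g 0 1 = 0 := by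
  rw [rel_fin]
  simp

theorem exists_inf (x : P1 p) : ∃ g : SL2 p, g • x = ∞ := by
  induction x using OnePoint.rec with
  | infty => exact ⟨1, one_smul _ _⟩
  | coe z =>
    refine ⟨mk2 0 (-1) 1 (-z) (by ring), ?_⟩
    rw [rel_fin_inf, mk2_10, mk2_11]
    ring

theorem exists_inf_zero {x y : P1 p} (h : x ≠ y) :
    ∃ g : SL2 p, g • x = ∞ ∧ g • y = ((0 : ZMod p) : P1 p) := by
  obtain ⟨g, hg⟩ := exists_inf x
  have h1 : g • y ≠ ∞ := by
    rw [← hg]
    intro h2
    exact h (smul_left_cancel g h2).symm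
  obtain ⟨w, hw⟩ := OnePoint.ne_infty_iff_exists.1 h1
  refine ⟨mk2 1 (-w) 0 1 (by ring) * g, ?_, ?_⟩
  · rw [mul_smul, hg, rel_inf_inf, mk2_10]
  · rw [mul_smul, ← hw, rel_fin, mk2_00, mk2_01]
    ring

theorem conj_fix {g t : SL2 p} {x : P1 p} (h : t • x = x) : (g * t * g⁻¹) • (g • x) = g • x := by
  rw [mul_smul, mul_smul, inv_smul_smul, h]

theorem sc_smul {t : SL2 p} (h : Sc t) (x : P1 p) : t • x = x := by
  obtain ⟨h1, h2, h3⟩ := h
  induction x using OnePoint.rec with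
  | infty => rw [rel_inf_inf]; exact h2
  | coe z => rw [rel_fin, h1, h2, h3]; ring

theorem sc_of_three {t : SL2 p} {x y z : P1 p} (hxy : x ≠ y) (hxz : x ≠ z) (hyz : y ≠ z)
    (hx : t • x = x) (hy : t • y = y) (hz : t • z = z) : Sc t := by
  obtain ⟨g, hgx, hgy⟩ := exists_inf_zero hxy
  apply sc_conj g t
  have h1 := conj_fix (g := g) hx
  have h2 := conj_fix (g := g) hy
  have h3 := conj_fix (g := g) hz
  have h4 : g • z ≠ ∞ := by
    rw [← hgx]
    intro h
    exact hxz (smul_left_cancel g h).symm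
  obtain ⟨w, hw⟩ := OnePoint.ne_infty_iff_exists.1 h4
  have h5 : w ≠ 0 := by
    intro h
    rw [h, ← hgy] at hw
    exact hyz (smul_left_cancel g hw)
  rw [hgx, rel_inf_inf] at h1
  rw [hgy, fix_zero] at h2
  rw [← hw, rel_fin, h1, h2] at h3
  refine ⟨h2, h1, ?_⟩
  apply mul_right_cancel₀ h5
  linear_combination h3

/-- an element commuting with a non-scalar element which fixes two points fixes these points -/
theorem commute_fix {t c : SL2 p} {x y : P1 p} (hxy : x ≠ y) (hx : t • x = x) (hy : t • y = y)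
    (ht : ¬ Sc t) (hc : c * t = t * c) : c • x = x ∧ c • y = y := by
  obtain ⟨g, hgx, hgy⟩ := exists_inf_zero hxy
  have h1 := conj_fix (g := g) hx
  have h2 := conj_fix (g := g) hy
  rw [hgx, rel_inf_inf] at h1
  rw [hgy, fix_zero] at h2
  obtain ⟨t', ht'⟩ : ∃ t', t' = g * t * g⁻¹ := ⟨_, rfl⟩
  obtain ⟨c', hc'⟩ : ∃ c', c' = g * c * g⁻¹ := ⟨_, rfl⟩
  rw [← ht'] at h1 h2
  have hcomm : c' * t' = t' * c' := by
    rw [ht', hc']
    calc g * c * g⁻¹ * (g * t * g⁻¹) = g * (c * t) * g⁻¹ := by group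
      _ = g * (t * c) * g⁻¹ := by rw [hc]
      _ = g * t * g⁻¹ * (g * c * g⁻¹) := by group
  have hne : t' 0 0 ≠ t' 1 1 := by
    intro h
    apply ht
    apply sc_conj g t
    rw [← ht']
    exact ⟨h2, h1, h⟩
  have e1 : (c' * t') 0 1 = (t' * c') 0 1 := by rw [hcomm]
  have e2 : (c' * t') 1 0 = (t' * c') 1 0 := by rw [hcomm]
  rw [mul01, mul01, h2] at e1
  rw [mul10, mul10, h1] at e2
  have e3 : c' 0 1 = 0 := by
    have : (t' 0 0 - t' 1 1) * c' 0 1 = 0 := by linear_combination -e1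
    rcases mul_eq_zero.1 this with h | h
    · exact absurd (sub_eq_zero.1 h) hne
    · exact h
  have e4 : c' 1 0 = 0 := by
    have : (t' 0 0 - t' 1 1) * c' 1 0 = 0 := by linear_combination e2
    rcases mul_eq_zero.1 this with h | h
    · exact absurd (sub_eq_zero.1 h) hne
    · exact h
  have f1 : c' • (g • x) = g • x := by rw [hgx, rel_inf_inf]; exact e4
  have f2 : c' • (g • y) = g • y := by rw [hgy, fix_zero]; exact e3
  constructor
  · apply smul_left_cancel g
    rw [hc', mul_smul, mul_smul, inv_smul_smul] at f1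
    exact f1
  · apply smul_left_cancel g
    rw [hc', mul_smul, mul_smul, inv_smul_smul] at f2
    exact f2

end Pool.Agent.Lib.MP_8dbdcc_co
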