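import Pool.Agent.Lib.MP_8dbdcc_co.Sl2

set_option autoImplicit false
set_option linter.unusedSectionVars false

/-!
# Counting in `SL₂(𝔽_p)`
-/

namespace Pool.Agent.Lib.MP_8dbdcc_co

open Finset OnePoint

variable {p : ℕ} [Fact p.Prime]

theorem quad_card (A B C : ZMod p) (h : ¬ (A = 0 ∧ B = 0 ∧ C = 0)) :
    (Finset.univ.filter fun c : ZMod p => A * c ^ 2 + B * c + C = 0).card ≤ 2 := by
  classical
  set P : Polynomial (ZMod p) := Polynomial.C A * Polynomial.X ^ 2 + Polynomial.C B * Polynomial.X
    + Polynomial.C C with hP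
  have hP0 : P ≠ 0 := by
    intro h0
    apply h
    refine ⟨?_, ?_, ?_⟩
    · have := congrArg (fun Q => Polynomial.coeff Q 2) h0
      simpa [hP, Polynomial.coeff_X, Polynomial.coeff_C] using this
    · have := congrArg (fun Q => Polynomial.coeff Q 1) h0
      simpa [hP, Polynomial.coeff_X, Polynomial.coeff_C] using this
    · have := congrArg (fun Q => Polynomial.coeff Q 0) h0
      simpa [hP, Polynomial.coeff_X, Polynomial.coeff_C] using this
  have hsub : (Finset.univ.filter fun c : ZMod p => A * c ^ 2 + B * c + C = 0) ⊆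
      P.roots.toFinset := by
    intro c hc
    rw [Multiset.mem_toFinset, Polynomial.mem_roots hP0, Polynomial.IsRoot.def]
    simpa [hP] using (Finset.mem_filter.1 hc).2
  calc _ ≤ P.roots.toFinset.card := Finset.card_le_card hsub
    _ ≤ P.roots.card := Multiset.toFinset_card_le _
    _ ≤ P.natDegree := P.card_roots'
    _ ≤ 2 := Polynomial.natDegree_quadratic_le

/-- affine coordinates on the complement of a point -/
theorem affine_coord (x : P1 p) : ∃ c : P1 p → ZMod p,
    (∀ y z, y ≠ x → z ≠ x → c y = c z → y = z) ∧ (∀ w, ∃ y, y ≠ x ∧ c y = w) ∧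
    ∀ t : SL2 p, t • x = x → ∃ a b, (∀ y, y ≠ x → c (t • y) = a * c y + b) ∧
      (a = 1 → b = 0 → Sc t) ∧ (a = 1 → tr t = 2 ∨ tr t = -2) := by
  classical
  obtain ⟨g, hg⟩ := exists_inf x
  have hex : ∀ y, y ≠ x → ∃ w : ZMod p, (w : P1 p) = g • y := by
    intro y hy
    apply OnePoint.ne_infty_iff_exists.1
    intro h
    rw [← hg] at h
    exact hy (smul_left_cancel g h)
  set c : P1 p → ZMod p := fun y => if h : ∃ w : ZMod p, (w : P1 p) = g • y then h.choose else 0
    with hc
  have hcy : ∀ y, y ≠ x → (c y : P1 p) = g • y := by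
    intro y hy
    have h := hex y hy
    simp only [hc, dif_pos h]
    exact h.choose_spec
  refine ⟨c, ?_, ?_, ?_⟩
  · intro y z hy hz h
    have h1 := hcy y hy
    have h2 := hcy z hz
    rw [h, h2] at h1
    exact (smul_left_cancel g h1).symm
  · intro w
    have h1 : g⁻¹ • (w : P1 p) ≠ x := by
      intro h
      have h2 : (w : P1 p) = g • x := by rw [← h, smul_inv_smul]
      rw [hg] at h2
      exact OnePoint.coe_ne_infty w h2
    refine ⟨g⁻¹ • (w : P1 p), h1, ?_⟩
    have := hcy _ h1
    rw [smul_inv_smul, OnePoint.coe_eq_coe] at this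
    exact this
  · intro t ht
    obtain ⟨t', ht'⟩ : ∃ t', t' = g * t * g⁻¹ := ⟨_, rfl⟩
    have h1 := conj_fix (g := g) ht
    rw [hg, rel_inf_inf, ← ht'] at h1
    have hd := det_eq t'
    rw [h1, mul_zero, sub_zero] at hd
    refine ⟨t' 0 0 * t' 0 0, t' 0 0 * t' 0 1, ?_, ?_, ?_⟩
    · intro y hy
      have hty : t • y ≠ x := by
        intro h
        rw [← ht] at h
        exact hy (smul_left_cancel t h)
      have h2 := hcy _ hty
      have h3 : t' • (g • y) = g • (t • y) := by
        rw [ht', mul_smul, mul_smul, inv_smul_smul]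
      rw [← h3, ← hcy y hy] at h2
      have h4 := (rel_fin t' (c y) (c (t • y))).1 h2.symm
      rw [h1, zero_mul, zero_add] at h4
      linear_combination (-(c (t • y))) * hd - (t' 0 0) * h4
    · intro ha hb
      have h0 : t' 0 0 ≠ 0 := by
        intro h
        rw [h] at ha
        simp at ha
      apply sc_conj g t
      rw [← ht']
      refine ⟨?_, h1, ?_⟩
      · rcases mul_eq_zero.1 hb with h | h
        · exact absurd h h0
        · exact h
      · apply mul_left_cancel₀ h0
        rw [ha, hd]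
    · intro ha
      have h0 : t' 0 0 ≠ 0 := by
        intro h
        rw [h] at ha
        simp at ha
      have h2 : t' 0 0 = t' 1 1 := by
        apply mul_left_cancel₀ h0
        rw [ha, hd]
      have h3 : tr t = t' 0 0 + t' 1 1 := by
        rw [← tr_conj g t, ← ht']
        rfl
      rw [h3, ← h2]
      rcases mul_self_eq_one_iff.1 ha with h | h
      · left
        rw [h]
        norm_num
      · right
        rw [h]
        norm_num

/-- diagonal elements -/
def dg (u : (ZMod p)ˣ) : SL2 p :=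
  mk2 (u : ZMod p) 0 0 ((u⁻¹ : (ZMod p)ˣ) : ZMod p) (by rw [Units.mul_inv, mul_zero, sub_zero])

/-- number of elements with prescribed values at two points -/
theorem count_two {x x' y y' : P1 p} (hx : x ≠ x') (hy : y ≠ y') :
    (Finset.univ.filter fun g : SL2 p => g • x = y ∧ g • x' = y').card = p - 1 := by
  classical
  obtain ⟨g₁, h₁, h₁'⟩ := exists_inf_zero hx
  obtain ⟨g₂, h₂, h₂'⟩ := exists_inf_zero hy
  have hinv1 : g₁⁻¹ • (∞ : P1 p) = x := by rw [← h₁, inv_smul_smul]
  have hinv1' : g₁⁻¹ • ((0 : ZMod p) : P1 p) = x' := by rw [← h₁', inv_smul_smul]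
  rw [← ZMod.card_units p, ← Finset.card_univ]
  symm
  apply Finset.card_bij (fun (u : (ZMod p)ˣ) _ =>
    g₂⁻¹ * dg u * g₁)
  · intro u _
    rw [Finset.mem_filter]
    refine ⟨Finset.mem_univ _, ?_, ?_⟩
    · rw [mul_smul, mul_smul, h₁, (rel_inf_inf _).2 (show (dg u) 1 0 = 0 from rfl), ← h₂,
        inv_smul_smul]
    · rw [mul_smul, mul_smul, h₁', (fix_zero _).2 (show (dg u) 0 1 = 0 from rfl), ← h₂',
        inv_smul_smul]
  · intro u _ v _ h
    have h1 := mul_left_cancel (mul_right_cancel h)
    have h2 : (dg u) 0 0 = (dg v) 0 0 := by rw [h1]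
    exact Units.ext h2
  · intro g hg
    have hg' := (Finset.mem_filter.1 hg).2
    obtain ⟨t, ht⟩ : ∃ t, t = g₂ * g * g₁⁻¹ := ⟨_, rfl⟩
    have h1 : t • (∞ : P1 p) = ∞ := by
      rw [ht, mul_smul, mul_smul, hinv1, hg'.1, h₂]
    have h2 : t • ((0 : ZMod p) : P1 p) = ((0 : ZMod p) : P1 p) := by
      rw [ht, mul_smul, mul_smul, hinv1', hg'.2, h₂']
    rw [rel_inf_inf] at h1
    rw [fix_zero] at h2
    have hd := det_eq t
    rw [h1, h2, mul_zero, sub_zero] at hd
    refine ⟨Units.mkOfMulEqOne (t 0 0) (t 1 1) hd, Finset.mem_univ _, ?_⟩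
    have h3 : dg (Units.mkOfMulEqOne (t 0 0) (t 1 1) hd) = t := by
      apply ext2
      · rfl
      · exact h2.symm
      · exact h1.symm
      · rfl
    rw [h3, ht]
    group

theorem trace_fibre_aux (g : SL2 p) (κ : ZMod p) (hγ : g 1 0 ≠ 0) :
    (Finset.univ.filter fun x : SL2 p => tr x = κ ∧ tr (x * g) = κ).card ≤ 4 * p := by
  classical
  set Z := Finset.univ.filter fun x : SL2 p => tr x = κ ∧ tr (x * g) = κ with hZ
  set R := Finset.univ.filter fun a : ZMod p => (1 : ZMod p) * a ^ 2 + (-κ) * a + 1 = 0 with hR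
  have hRc : R.card ≤ 2 := quad_card _ _ _ (fun h => one_ne_zero h.1)
  have hp : Fintype.card (ZMod p) = p := ZMod.card p
  -- on `Z` the entries `x 0 0` and `x 1 0` determine `x`
  have hinj : ∀ x ∈ Z, ∀ y ∈ Z, x 0 0 = y 0 0 → x 1 0 = y 1 0 → x = y := by
    intro x hx y hy h0 h1
    have hx' := (Finset.mem_filter.1 hx).2
    have hy' := (Finset.mem_filter.1 hy).2
    unfold tr at hx' hy'
    rw [mul00, mul11] at hx' hy'
    have h11 : x 1 1 = y 1 1 := by linear_combination hx'.1 - hy'.1 - h0
    refine ext2 h0 ?_ h1 h11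
    apply mul_right_cancel₀ hγ
    linear_combination hx'.2 - hy'.2 - (g 0 0) * h0 - (g 0 1) * h1 - (g 1 1) * h11
  have hfib : ∀ a : ZMod p, (Z.filter fun x => x 0 0 = a).card ≤
      2 + (if a ∈ R then p else 0) := by
    intro a
    by_cases ha : a ∈ R
    · rw [if_pos ha]
      have : (Z.filter fun x => x 0 0 = a).card ≤ (Finset.univ : Finset (ZMod p)).card := by
        apply Finset.card_le_card_of_injOn (fun x => x 1 0)
        · intro _ _
          exact Finset.mem_coe.2 (Finset.mem_univ _)
        · intro x hx y hy h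
          have hx' := Finset.mem_filter.1 (Finset.mem_coe.1 hx)
          have hy' := Finset.mem_filter.1 (Finset.mem_coe.1 hy)
          exact hinj x hx'.1 y hy'.1 (hx'.2.trans hy'.2.symm) h
      rw [Finset.card_univ, hp] at this
      omega
    · rw [if_neg ha, add_zero]
      have hne : a * (κ - a) - 1 ≠ 0 := by
        intro h
        apply ha
        rw [hR, Finset.mem_filter]
        refine ⟨Finset.mem_univ _, ?_⟩
        linear_combination -h
      refine le_trans ?_ (quad_card (g 0 1)
        (-(κ * (1 - g 1 1) - a * (g 0 0 - g 1 1))) (g 1 0 * (a * (κ - a) - 1)) ?_)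
      · apply Finset.card_le_card_of_injOn (fun x => x 1 0)
        · intro x hx
          have hx' := Finset.mem_filter.1 (Finset.mem_coe.1 hx)
          have hx1 := (Finset.mem_filter.1 hx'.1).2
          have ha1 := hx'.2
          unfold tr at hx1
          rw [mul00, mul11] at hx1
          have hd := det_eq x
          rw [Finset.mem_coe, Finset.mem_filter]
          refine ⟨Finset.mem_univ _, ?_⟩
          rw [← ha1]
          linear_combination (g 1 0) * hd + (x 1 0) * hx1.2
            - (x 1 0 * g 1 1 + g 1 0 * x 0 0) * hx1.1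
        · intro x hx y hy h
          have hx' := Finset.mem_filter.1 (Finset.mem_coe.1 hx)
          have hy' := Finset.mem_filter.1 (Finset.mem_coe.1 hy)
          exact hinj x hx'.1 y hy'.1 (hx'.2.trans hy'.2.symm) h
      · rintro ⟨_, _, h⟩
        rcases mul_eq_zero.1 h with h | h
        · exact hγ h
        · exact hne h
  have h1 : Z.card = ∑ a : ZMod p, (Z.filter fun x => x 0 0 = a).card :=
    Finset.card_eq_sum_card_fiberwise fun x _ => Finset.mem_coe.2 (Finset.mem_univ _)
  rw [h1]
  calc ∑ a : ZMod p, (Z.filter fun x => x 0 0 = a).card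
      ≤ ∑ a : ZMod p, (2 + (if a ∈ R then p else 0)) := Finset.sum_le_sum fun a _ => hfib a
    _ = 2 * p + R.card * p := by
        rw [Finset.sum_add_distrib, Finset.sum_const, Finset.card_univ, hp,
          Finset.sum_ite_mem, Finset.univ_inter, Finset.sum_const, smul_eq_mul, smul_eq_mul]
        ring
    _ ≤ 4 * p := by nlinarith

/-- elements with given trace whose product with `g` has the same trace -/
theorem trace_fibre (g : SL2 p) (κ : ZMod p) (hg : ¬ Sc g) :
    (Finset.univ.filter fun x : SL2 p => tr x = κ ∧ tr (x * g) = κ).card ≤ 4 * p := by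
  classical
  -- conjugation makes the entry `(1,0)` nonzero
  obtain ⟨h, hh⟩ : ∃ h : SL2 p, (h * g * h⁻¹) 1 0 ≠ 0 := by
    by_cases h1 : g 1 0 ≠ 0
    · exact ⟨1, by simpa using h1⟩
    push Not at h1
    by_cases h2 : g 0 1 ≠ 0
    · refine ⟨mk2 0 (-1) 1 0 (by ring), ?_⟩
      rw [mul10, mul10, mul11, inv00, inv10, mk2_10, mk2_11, h1]
      simpa using h2
    push Not at h2
    refine ⟨mk2 1 0 1 1 (by ring), ?_⟩
    rw [mul10, mul10, mul11, inv00, inv10, mk2_10, mk2_11, h1, h2]
    intro h3
    apply hg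
    refine ⟨h2, h1, ?_⟩
    linear_combination h3
  refine le_trans ?_ (trace_fibre_aux (h * g * h⁻¹) κ hh)
  apply Finset.card_le_card_of_injOn (fun x => h * x * h⁻¹)
  · intro x hx
    have hx' := (Finset.mem_filter.1 (Finset.mem_coe.1 hx)).2
    rw [Finset.mem_coe, Finset.mem_filter]
    refine ⟨Finset.mem_univ _, ?_, ?_⟩
    · rw [tr_conj]
      exact hx'.1
    · have : h * x * h⁻¹ * (h * g * h⁻¹) = h * (x * g) * h⁻¹ := by group
      rw [this, tr_conj]
      exact hx'.2
  · intro x _ y _ hxy
    exact mul_left_cancel (mul_right_cancel hxy)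

end Pool.Agent.Lib.MP_8dbdcc_co
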