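import Pool.Agent.Lib.MP_8dbdcc_co.Var
import Pool.Agent.Lib.MP_8dbdcc_co.Bsg

set_option autoImplicit false
set_option linter.unusedSectionVars false

/-!
# Two applications of the Cauchy–Schwarz inequality
-/

namespace Pool.Agent.Lib.MP_8dbdcc_co

open Finset OnePoint
open scoped Pointwise

variable {p : ℕ} [Fact p.Prime]

theorem corr_sum {ι : Type*} (I : Finset ι) (f : ι → SL2 p) (S : Finset (P1 p)) :
    ∑ w : P1 p, (I.filter fun i => (f i)⁻¹ • w ∈ S).card = I.card * S.card := by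
  classical
  simp only [Finset.card_filter]
  rw [Finset.sum_comm]
  have h1 : ∀ i ∈ I, ∑ w : P1 p, (if (f i)⁻¹ • w ∈ S then 1 else 0) = S.card := by
    intro i _
    rw [← Finset.card_filter]
    symm
    apply Finset.card_bij (fun x _ => f i • x)
    · intro x hx
      rw [Finset.mem_filter, inv_smul_smul]
      exact ⟨Finset.mem_univ _, hx⟩
    · intro x _ y _ h
      exact smul_left_cancel _ h
    · intro y hy
      exact ⟨(f i)⁻¹ • y, (Finset.mem_filter.1 hy).2, smul_inv_smul _ _⟩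
  rw [Finset.sum_congr rfl h1, Finset.sum_const, smul_eq_mul]

theorem corr_sq {ι : Type*} (I : Finset ι) (f : ι → SL2 p) (S : Finset (P1 p)) :
    ∑ w : P1 p, (I.filter fun i => (f i)⁻¹ • w ∈ S).card ^ 2 =
      ∑ q ∈ I ×ˢ I, nn S ((f q.2)⁻¹ * f q.1) := by
  classical
  have h1 : ∀ w : P1 p, (I.filter fun i => (f i)⁻¹ • w ∈ S).card ^ 2 =
      ∑ q ∈ I ×ˢ I, (if (f q.1)⁻¹ • w ∈ S ∧ (f q.2)⁻¹ • w ∈ S then 1 else 0) := by
    intro w
    rw [pow_two, ← Finset.card_product, ← Finset.card_filter]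
    congr 1
    ext q
    simp only [Finset.mem_product, Finset.mem_filter]
    tauto
  simp_rw [h1]
  rw [Finset.sum_comm]
  apply Finset.sum_congr rfl
  intro q _
  rw [← Finset.card_filter]
  unfold nn
  symm
  apply Finset.card_bij (fun x _ => f q.1 • x)
  · intro x hx
    rw [Finset.mem_filter] at hx ⊢
    refine ⟨Finset.mem_univ _, ?_, ?_⟩
    · rw [inv_smul_smul]
      exact hx.1
    · rw [← mul_smul]
      exact hx.2
  · intro x _ y _ h
    exact smul_left_cancel _ h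
  · intro y hy
    have hy' := (Finset.mem_filter.1 hy).2
    refine ⟨(f q.1)⁻¹ • y, ?_, smul_inv_smul _ _⟩
    rw [Finset.mem_filter, mul_smul, smul_inv_smul]
    exact hy'

theorem corr_in {ι : Type*} (I : Finset ι) (f : ι → SL2 p) (S T : Finset (P1 p)) :
    ∑ w ∈ T, (I.filter fun i => (f i)⁻¹ • w ∈ S).card =
      ∑ i ∈ I, (S.filter fun x => f i • x ∈ T).card := by
  classical
  simp only [Finset.card_filter]
  rw [Finset.sum_comm]
  apply Finset.sum_congr rfl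
  intro i _
  rw [← Finset.card_filter, ← Finset.card_filter]
  symm
  apply Finset.card_bij (fun x _ => f i • x)
  · intro x hx
    rw [Finset.mem_filter] at hx ⊢
    exact ⟨hx.2, by rw [inv_smul_smul]; exact hx.1⟩
  · intro x _ y _ h
    exact smul_left_cancel _ h
  · intro y hy
    rw [Finset.mem_filter] at hy
    refine ⟨(f i)⁻¹ • y, ?_, smul_inv_smul _ _⟩
    rw [Finset.mem_filter, smul_inv_smul]
    exact ⟨hy.2, hy.1⟩

/-- first application of the Cauchy–Schwarz inequality -/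
theorem cs_one (A : Finset (SL2 p)) (S S' : Finset (P1 p)) (hSS : S'.card = S.card)
    (hdis : ∀ a ∈ A, (S.filter fun x => a • x ∈ S').card ≤ 2) (hs2 : 2 ≤ S.card) :
    ((A.card : ℝ) * ((S.card : ℝ) - 2)) ^ 2 ≤ ((p : ℝ) + 1 - S.card) *
      ∑ q ∈ A ×ˢ A, (nn S (q.2⁻¹ * q.1) : ℝ) := by
  classical
  set F : P1 p → ℕ := fun w => (A.filter fun i => (id i)⁻¹ • w ∈ S).card with hF
  have h1 : ∑ w : P1 p, F w = A.card * S.card := corr_sum A id S
  have h2 : ∑ w : P1 p, F w ^ 2 = ∑ q ∈ A ×ˢ A, nn S (q.2⁻¹ * q.1) := corr_sq A id S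
  have h3 : ∑ w ∈ S', F w ≤ 2 * A.card := by
    have : ∑ w ∈ S', F w = ∑ i ∈ A, (S.filter fun x => id i • x ∈ S').card :=
      corr_in A id S S'
    rw [this]
    calc ∑ i ∈ A, (S.filter fun x => id i • x ∈ S').card ≤ ∑ i ∈ A, 2 :=
          Finset.sum_le_sum hdis
      _ = 2 * A.card := by rw [Finset.sum_const, smul_eq_mul, mul_comm]
  have h4 : ∑ w ∈ S'ᶜ, F w + ∑ w ∈ S', F w = ∑ w : P1 p, F w := by
    rw [add_comm]
    exact Finset.sum_add_sum_compl S' F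
  have h5 : (A.card : ℝ) * ((S.card : ℝ) - 2) ≤ ∑ w ∈ S'ᶜ, (F w : ℝ) := by
    have h6 : ∑ w ∈ S'ᶜ, (F w : ℝ) + ∑ w ∈ S', (F w : ℝ) = (A.card : ℝ) * S.card := by
      have : ((∑ w ∈ S'ᶜ, F w + ∑ w ∈ S', F w : ℕ) : ℝ) = ((A.card * S.card : ℕ) : ℝ) := by
        rw [h4, h1]
      push_cast at this
      exact this
    have h7 : ∑ w ∈ S', (F w : ℝ) ≤ 2 * A.card := by exact_mod_cast h3
    linarith
  have h6 := sq_sum_le_card_mul_sum_sq (s := S'ᶜ) (f := fun w => (F w : ℝ))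
  have h7 : (S'ᶜ.card : ℝ) = (p : ℝ) + 1 - S.card := by
    have h8 : S'.card + S'ᶜ.card = p + 1 := by
      rw [Finset.card_add_card_compl, card_P1']
    have h9 : (S'.card : ℝ) + (S'ᶜ.card : ℝ) = (p : ℝ) + 1 := by exact_mod_cast h8
    rw [← hSS]
    linarith
  have h8 : ∑ w ∈ S'ᶜ, (F w : ℝ) ^ 2 ≤ ∑ w : P1 p, (F w : ℝ) ^ 2 :=
    Finset.sum_le_sum_of_subset_of_nonneg (Finset.subset_univ _) fun _ _ _ => sq_nonneg _
  have h9 : ∑ w : P1 p, (F w : ℝ) ^ 2 = ∑ q ∈ A ×ˢ A, (nn S (q.2⁻¹ * q.1) : ℝ) := by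
    exact_mod_cast h2
  have h10 : 0 ≤ (A.card : ℝ) * ((S.card : ℝ) - 2) := by
    have : (2 : ℝ) ≤ S.card := by exact_mod_cast hs2
    exact mul_nonneg (by positivity) (by linarith)
  calc ((A.card : ℝ) * ((S.card : ℝ) - 2)) ^ 2 ≤ (∑ w ∈ S'ᶜ, (F w : ℝ)) ^ 2 :=
        pow_le_pow_left₀ h10 h5 2
    _ ≤ (S'ᶜ.card : ℝ) * ∑ w ∈ S'ᶜ, (F w : ℝ) ^ 2 := h6
    _ ≤ (S'ᶜ.card : ℝ) * ∑ w : P1 p, (F w : ℝ) ^ 2 :=
        mul_le_mul_of_nonneg_left h8 (by positivity)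
    _ = _ := by rw [h7, h9]

/-- second application of the Cauchy–Schwarz inequality -/
theorem cs_two {ι : Type*} (I : Finset ι) (f : ι → SL2 p) (S : Finset (P1 p)) (W : ℝ)
    (hW : W = ∑ i ∈ I, (nn S (f i) : ℝ)) :
    ((p : ℝ) + 1 - S.card) * W ^ 2 + (S.card : ℝ) * ((I.card : ℝ) * S.card - W) ^ 2 ≤
      (S.card : ℝ) * ((p : ℝ) + 1 - S.card) *
        ∑ q ∈ I ×ˢ I, (nn S ((f q.2)⁻¹ * f q.1) : ℝ) := by
  classical
  set F : P1 p → ℕ := fun w => (I.filter fun i => (f i)⁻¹ • w ∈ S).card with hF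
  have h1 : ∑ w : P1 p, F w = I.card * S.card := corr_sum I f S
  have h2 : ∑ w : P1 p, F w ^ 2 = ∑ q ∈ I ×ˢ I, nn S ((f q.2)⁻¹ * f q.1) := corr_sq I f S
  have h3 : ∑ w ∈ S, F w = ∑ i ∈ I, nn S (f i) := corr_in I f S S
  have h3' : ∑ w ∈ S, (F w : ℝ) = W := by
    rw [hW]
    exact_mod_cast h3
  have h4 : ∑ w ∈ S, (F w : ℝ) + ∑ w ∈ Sᶜ, (F w : ℝ) = (I.card : ℝ) * S.card := by
    rw [Finset.sum_add_sum_compl]
    exact_mod_cast h1
  have h4' : ∑ w ∈ Sᶜ, (F w : ℝ) = (I.card : ℝ) * S.card - W := by linarith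
  have h5 : ∑ w ∈ S, (F w : ℝ) ^ 2 + ∑ w ∈ Sᶜ, (F w : ℝ) ^ 2 =
      ∑ q ∈ I ×ˢ I, (nn S ((f q.2)⁻¹ * f q.1) : ℝ) := by
    rw [Finset.sum_add_sum_compl]
    exact_mod_cast h2
  have h6 := sq_sum_le_card_mul_sum_sq (s := S) (f := fun w => (F w : ℝ))
  have h7 := sq_sum_le_card_mul_sum_sq (s := Sᶜ) (f := fun w => (F w : ℝ))
  have h8 : (Sᶜ.card : ℝ) = (p : ℝ) + 1 - S.card := by
    have h8 : S.card + Sᶜ.card = p + 1 := by
      rw [Finset.card_add_card_compl, card_P1']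
    have h9 : (S.card : ℝ) + (Sᶜ.card : ℝ) = (p : ℝ) + 1 := by exact_mod_cast h8
    linarith
  rw [h3'] at h6
  rw [h4', h8] at h7
  have h9 : 0 ≤ (p : ℝ) + 1 - S.card := by
    rw [← h8]
    positivity
  have h10 := mul_le_mul_of_nonneg_left h6 h9
  have h11 := mul_le_mul_of_nonneg_left h7 (by positivity : (0 : ℝ) ≤ (S.card : ℝ))
  rw [← h5]
  nlinarith

end Pool.Agent.Lib.MP_8dbdcc_co
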