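import Pool.Agent.Lib.MP_8dbdcc_co.Sl2b

set_option autoImplicit false
set_option linter.unusedSectionVars false

/-!
# The variance of the number of points of a set which are mapped into the set
-/

namespace Pool.Agent.Lib.MP_8dbdcc_co

open Finset OnePoint

variable {p : ℕ} [Fact p.Prime]

theorem exists_ne' (x : P1 p) : ∃ y : P1 p, x ≠ y := by
  induction x using OnePoint.rec with
  | infty => exact ⟨((0 : ZMod p) : P1 p), OnePoint.infty_ne_coe _⟩
  | coe z => exact ⟨∞, OnePoint.coe_ne_infty _⟩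

theorem card_P1' : Fintype.card (P1 p) = p + 1 := by
  have : Fintype.card (P1 p) = Fintype.card (Option (ZMod p)) := Fintype.card_congr (Equiv.refl _)
  rw [this, Fintype.card_option, ZMod.card]

/-- number of elements with prescribed value at one point -/
theorem count_one (x y : P1 p) :
    (Finset.univ.filter fun g : SL2 p => g • x = y).card = p * (p - 1) := by
  classical
  obtain ⟨x', hx'⟩ := exists_ne' x
  have h1 := Finset.card_eq_sum_card_fiberwise (f := fun g : SL2 p => g • x')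
    (s := Finset.univ.filter fun g : SL2 p => g • x = y) (t := Finset.univ.erase y) (by
      intro g hg
      have hg' := (Finset.mem_filter.1 (Finset.mem_coe.1 hg)).2
      rw [Finset.mem_coe, Finset.mem_erase]
      refine ⟨?_, Finset.mem_univ _⟩
      intro h
      rw [← hg'] at h
      exact hx' (smul_left_cancel g h).symm)
  rw [h1]
  have h2 : ∀ y' ∈ (Finset.univ.erase y : Finset (P1 p)),
      ((Finset.univ.filter fun g : SL2 p => g • x = y).filter fun g => g • x' = y').card =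
        p - 1 := by
    intro y' hy'
    rw [Finset.filter_filter]
    exact count_two hx' (Finset.ne_of_mem_erase hy').symm
  rw [Finset.sum_congr rfl h2, Finset.sum_const, smul_eq_mul,
    Finset.card_erase_of_mem (Finset.mem_univ _), Finset.card_univ, card_P1', Nat.add_sub_cancel]

theorem card_SL2 : Fintype.card (SL2 p) = (p + 1) * (p * (p - 1)) := by
  classical
  rw [← Finset.card_univ]
  have h1 := Finset.card_eq_sum_card_fiberwise (f := fun g : SL2 p => g • (∞ : P1 p))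
    (s := (Finset.univ : Finset (SL2 p))) (t := Finset.univ)
    (fun _ _ => Finset.mem_coe.2 (Finset.mem_univ _))
  rw [h1, Finset.sum_congr rfl fun y _ => count_one (∞ : P1 p) y, Finset.sum_const, smul_eq_mul,
    Finset.card_univ, card_P1']

/-- number of points of `S` which are mapped into `S` -/
noncomputable def nn (S : Finset (P1 p)) (g : SL2 p) : ℕ := (S.filter fun x => g • x ∈ S).card

theorem nn_le (S : Finset (P1 p)) (g : SL2 p) : nn S g ≤ S.card := Finset.card_filter_le _ _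

theorem nn_inv (S : Finset (P1 p)) (g : SL2 p) : nn S g⁻¹ = nn S g := by
  unfold nn
  symm
  apply Finset.card_bij (fun x _ => g • x)
  · intro x hx
    rw [Finset.mem_filter] at hx ⊢
    exact ⟨hx.2, by rw [inv_smul_smul]; exact hx.1⟩
  · intro x _ y _ h
    exact smul_left_cancel g h
  · intro y hy
    rw [Finset.mem_filter] at hy
    refine ⟨g⁻¹ • y, ?_, by rw [smul_inv_smul]⟩
    rw [Finset.mem_filter, smul_inv_smul]
    exact ⟨hy.2, hy.1⟩

theorem nn_eq (S : Finset (P1 p)) (g : SL2 p) :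
    nn S g = ∑ x ∈ S, ∑ y ∈ S, (if g • x = y then 1 else 0) := by
  unfold nn
  rw [Finset.card_filter]
  apply Finset.sum_congr rfl
  intro x _
  rw [Finset.sum_ite_eq]

theorem sum_nn (S : Finset (P1 p)) :
    ∑ g : SL2 p, nn S g = S.card ^ 2 * (p * (p - 1)) := by
  classical
  simp_rw [nn_eq]
  rw [Finset.sum_comm]
  have h1 : ∀ x ∈ S, ∑ g : SL2 p, ∑ y ∈ S, (if g • x = y then 1 else 0) =
      S.card * (p * (p - 1)) := by
    intro x _
    rw [Finset.sum_comm]
    have h2 : ∀ y ∈ S, ∑ g : SL2 p, (if g • x = y then 1 else 0) = p * (p - 1) := by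
      intro y _
      rw [← Finset.card_filter, count_one]
    rw [Finset.sum_congr rfl h2, Finset.sum_const, smul_eq_mul]
  rw [Finset.sum_congr rfl h1, Finset.sum_const, smul_eq_mul]
  ring

theorem sum_nn_sq (S : Finset (P1 p)) :
    ∑ g : SL2 p, (nn S g) ^ 2 = S.card ^ 2 * (p * (p - 1)) +
      (S.card * S.card - S.card) * (S.card * S.card - S.card) * (p - 1) := by
  classical
  -- `nn S g ^ 2` counts pairs
  have h1 : ∀ g : SL2 p, (nn S g) ^ 2 = nn S g +
      ∑ q ∈ S.offDiag, ∑ r ∈ S.offDiag, (if g • q.1 = r.1 ∧ g • q.2 = r.2 then 1 else 0) := by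
    intro g
    set A := S.filter fun x => g • x ∈ S with hA
    have hnn : nn S g = A.card := rfl
    have h2 : A.offDiag.card = ∑ q ∈ S.offDiag, ∑ r ∈ S.offDiag,
        (if g • q.1 = r.1 ∧ g • q.2 = r.2 then 1 else 0) := by
      have h3 : A.offDiag = S.offDiag.filter fun q => (g • q.1, g • q.2) ∈ S.offDiag := by
        ext q
        simp only [hA, Finset.mem_offDiag, Finset.mem_filter]
        constructor
        · rintro ⟨⟨h1, h2⟩, ⟨h3, h4⟩, h5⟩
          exact ⟨⟨h1, h3, h5⟩, h2, h4, fun h => h5 (smul_left_cancel g h)⟩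
        · rintro ⟨⟨h1, h3, h5⟩, h2, h4, _⟩
          exact ⟨⟨h1, h2⟩, ⟨h3, h4⟩, h5⟩
      rw [h3, Finset.card_filter]
      apply Finset.sum_congr rfl
      intro q _
      have h4 : ∀ r : P1 p × P1 p, (g • q.1 = r.1 ∧ g • q.2 = r.2) ↔
          (g • q.1, g • q.2) = r := by
        intro r
        rw [Prod.ext_iff]
      simp_rw [h4]
      rw [Finset.sum_ite_eq]
    rw [← h2, hnn, Finset.offDiag_card, pow_two]
    have : A.card ≤ A.card * A.card := Nat.le_mul_self _
    omega
  simp_rw [h1]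
  rw [Finset.sum_add_distrib, sum_nn]
  congr 1
  rw [Finset.sum_comm]
  have h5 : ∀ q ∈ S.offDiag, ∑ g : SL2 p, ∑ r ∈ S.offDiag,
      (if g • q.1 = r.1 ∧ g • q.2 = r.2 then 1 else 0) =
      (S.card * S.card - S.card) * (p - 1) := by
    intro q hq
    rw [Finset.sum_comm]
    have h2 : ∀ r ∈ S.offDiag, ∑ g : SL2 p,
        (if g • q.1 = r.1 ∧ g • q.2 = r.2 then 1 else 0) = p - 1 := by
      intro r hr
      rw [← Finset.card_filter, count_two (Finset.mem_offDiag.1 hq).2.2
        (Finset.mem_offDiag.1 hr).2.2]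
    rw [Finset.sum_congr rfl h2, Finset.sum_const, smul_eq_mul, Finset.offDiag_card]
  rw [Finset.sum_congr rfl h5, Finset.sum_const, smul_eq_mul, Finset.offDiag_card]
  ring

/-- the variance bound -/
theorem variance (S : Finset (P1 p)) :
    ∑ g : SL2 p, ((nn S g : ℝ) - (S.card : ℝ) ^ 2 / ((p : ℝ) + 1)) ^ 2 ≤
      (S.card : ℝ) ^ 2 * (p : ℝ) ^ 2 := by
  classical
  have hp2 : 2 ≤ p := (Fact.out : p.Prime).two_le
  obtain ⟨m, hm⟩ : ∃ m, p = m + 1 := ⟨p - 1, by omega⟩
  have hs := Finset.card_le_univ S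
  rw [card_P1'] at hs
  set s : ℝ := (S.card : ℝ) with hsdef
  have hs0 : 0 ≤ s := by rw [hsdef]; positivity
  have hs1 : s ≤ (p : ℝ) + 1 := by rw [hsdef]; exact_mod_cast hs
  have hm' : ((p - 1 : ℕ) : ℝ) = (p : ℝ) - 1 := by
    rw [hm]
    push_cast
    ring
  have e1 : ∑ g : SL2 p, (nn S g : ℝ) = s ^ 2 * (p * (p - 1)) := by
    have := sum_nn S
    have h2 : ((∑ g : SL2 p, nn S g : ℕ) : ℝ) = ((S.card ^ 2 * (p * (p - 1)) : ℕ) : ℝ) := by
      rw [this]
    push_cast at h2
    rw [h2, hm']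
  have e2 : ∑ g : SL2 p, (nn S g : ℝ) ^ 2 = s ^ 2 * (p * (p - 1)) +
      (s * s - s) * (s * s - s) * (p - 1) := by
    have := sum_nn_sq S
    have h2 : ((∑ g : SL2 p, (nn S g) ^ 2 : ℕ) : ℝ) = ((S.card ^ 2 * (p * (p - 1)) +
      (S.card * S.card - S.card) * (S.card * S.card - S.card) * (p - 1) : ℕ) : ℝ) := by
      rw [this]
    have h3 : ((S.card * S.card - S.card : ℕ) : ℝ) = s * s - s := by
      rw [Nat.cast_sub (Nat.le_mul_self _)]
      push_cast
      rfl
    rw [Nat.cast_sum] at h2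
    simp only [Nat.cast_pow] at h2
    rw [h2]
    rw [Nat.cast_add, Nat.cast_mul, Nat.cast_mul, Nat.cast_mul, Nat.cast_mul, h3, hm']
    push_cast
    rfl
  have e3 : ((Finset.univ : Finset (SL2 p)).card : ℝ) = (p + 1) * (p * (p - 1)) := by
    rw [Finset.card_univ, card_SL2]
    push_cast
    rw [hm']
  have e4 : ∑ g : SL2 p, ((nn S g : ℝ) - s ^ 2 / ((p : ℝ) + 1)) ^ 2 =
      ∑ g : SL2 p, (nn S g : ℝ) ^ 2 - 2 * (s ^ 2 / ((p : ℝ) + 1)) * ∑ g : SL2 p, (nn S g : ℝ) +
        ((Finset.univ : Finset (SL2 p)).card : ℝ) * (s ^ 2 / ((p : ℝ) + 1)) ^ 2 := by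
    rw [Finset.mul_sum, ← Finset.sum_sub_distrib, ← nsmul_eq_mul, ← Finset.sum_const,
      ← Finset.sum_add_distrib]
    apply Finset.sum_congr rfl
    intro g _
    ring
  rw [e4, e1, e2, e3]
  have hp0 : (0 : ℝ) < (p : ℝ) + 1 := by positivity
  have hp1 : (1 : ℝ) ≤ p := by exact_mod_cast (by omega : 1 ≤ p)
  have e5 : s ^ 2 * (p * (p - 1)) + (s * s - s) * (s * s - s) * (p - 1) -
      2 * (s ^ 2 / ((p : ℝ) + 1)) * (s ^ 2 * (p * (p - 1))) +
      (p + 1) * (p * (p - 1)) * (s ^ 2 / ((p : ℝ) + 1)) ^ 2 =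
      s ^ 2 * (p - 1) * (((p : ℝ) + 1 - s) ^ 2 / (p + 1)) := by
    field_simp
    ring
  rw [e5]
  have e6 : ((p : ℝ) + 1 - s) ^ 2 / (p + 1) ≤ p + 1 := by
    rw [div_le_iff₀ hp0]
    nlinarith
  calc s ^ 2 * (p - 1) * (((p : ℝ) + 1 - s) ^ 2 / (p + 1)) ≤ s ^ 2 * (p - 1) * (p + 1) :=
        mul_le_mul_of_nonneg_left e6 (mul_nonneg (sq_nonneg _) (by linarith))
    _ ≤ s ^ 2 * (p : ℝ) ^ 2 := by nlinarith [sq_nonneg s]

end Pool.Agent.Lib.MP_8dbdcc_co
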